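import Pool.Agent.PQW.Stmts

/-!
# PQW, module AST: the induction for systems of weight at most one
-/

set_option autoImplicit false

open Polynomial

namespace PQW

open CUB LOWD

namespace AST

/-- A quotient described as a surjective image. -/
lemma triv_surj (hT : S_TIS) {k P B E : Type} [Field k] [CommRing P] [CommRing B] [Algebra k P]
    [Algebra k B] [Field E] {l : ℕ} (g : P →ₐ[k] B) (hg : Function.Surjective g) (J : Ideal P)
    (hJ : RingHom.ker g = J) (h : Triv k B E l) : Triv k (P ⧸ J) E l := by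
  subst hJ
  exact hT.1 k _ B E (Ideal.quotientKerAlgEquivOfSurjective hg) l h

/-- Equal ideals. -/
lemma triv_eq {k P E : Type} [Field k] [CommRing P] [Algebra k P] [Field E] {l : ℕ}
    {I J : Ideal P} (h : I = J) (hI : Triv k (P ⧸ I) E l) : Triv k (P ⧸ J) E l := by
  subst h
  exact hI

lemma map_FM {R S σ ι : Type} [CommRing R] [CommRing S] (φ : R →+* S)
    (F : ι → MvPolynomial σ R) :
    (Ideal.span (Set.range F)).map (MvPolynomial.map (σ := σ) φ) =
      Ideal.span (Set.range (FM φ F)) := by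
  rw [Ideal.map_span, ← Set.range_comp]
  rfl

end AST

open AST in
theorem t_AST : M_AST := by
  classical
  intro hLFA hFN1 hTIS hCOV hFNP hDEV hTVA l hTA k R E σ ι _ _ _ _ _ _ _ _ _ p _ _ L S hL hS
    hcard
  refine hDEV k R E σ ι L (l + 1) ?_
  intro T _ _ _ _ ρ _
  obtain ⟨T', _, _, _, _, φ, h, a, v, L0, hh, hφ, hfin, hlc, hdeg, hL0, hS0, heq⟩ :=
    hLFA k T σ ι p (FM ρ.toRingHom L) S (fun i => (hL i).map _)
      (fun i hi => by
        obtain ⟨c, hc⟩ := hS i hi
        exact ⟨ρ c, by simp [FM, hc]⟩) (by omega)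
  refine ⟨h, hh, fun htriv => ?_⟩
  set F := FM ρ.toRingHom L with hF
  have := finiteType_mvp k σ T
  have := finiteType_mvp k σ T'
  -- (iv) the induction hypothesis
  have h4 : Triv k (AR L0) E l := by
    refine hTA k T' E {j : σ // j ≠ a} ι p L0 S hL0 hS0 ?_
    have h5 : Fintype.card (Option {j : σ // j ≠ a}) = Fintype.card σ :=
      Fintype.card_congr (Equiv.optionSubtypeNe a)
    rw [Fintype.card_option] at h5
    omega
  -- (iii) one more variable
  have h3 : Triv k (AR (FR (fun j : {j : σ // j ≠ a} => (j : σ)) L0)) E (l + 1) := by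
    have h5 := hTVA k T' E {j : σ // j ≠ a} σ ι (Equiv.optionSubtypeNe a) L0 l h4
    have h6 : (fun j : {j : σ // j ≠ a} => (Equiv.optionSubtypeNe a) (some j)) =
        fun j : {j : σ // j ≠ a} => (j : σ) := by
      funext j
      simp
    rw [h6] at h5
    exact h5
  -- (ii) the substitution
  have h2 : Triv k (AR (FM φ.toRingHom F)) E (l + 1) := by
    obtain ⟨-, hf2, hi2⟩ := hFNP T' σ p a v 0 hlc hdeg
    let Φ : MvPolynomial σ T' →ₐ[k] MvPolynomial σ T' :=
      (MvPolynomial.aeval (Phi p a v 0) : MvPolynomial σ T' →ₐ[T'] MvPolynomial σ T').restrictScalars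
        k
    refine hCOV k (MvPolynomial σ T') (MvPolynomial σ T') E Φ 1 _ (l + 1) hf2 hi2 ?_ ?_
    · refine triv_eq (I := Ideal.span (Set.range (FR (fun j : {j : σ // j ≠ a} => (j : σ)) L0)))
        ?_ h3
      rw [Ideal.map_span, ← Set.range_comp]
      congr 2
      funext i
      exact (heq i).symm
    · refine hTIS.2 k _ E (l + 1) ?_
      rw [Ideal.Quotient.subsingleton_iff]
      simp
  -- (i) the base change
  refine hCOV k (MvPolynomial σ T) (MvPolynomial σ T') E (MvPolynomial.mapAlgHom φ)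
    (MvPolynomial.C h) _ (l + 1) ?_ ?_ ?_ ?_
  · exact hFN1.2.2 T T' σ φ.toRingHom h hfin
  · exact MvPolynomial.map_injective _ hφ
  · exact triv_eq (map_FM φ.toRingHom F).symm h2
  · let g1 : MvPolynomial σ T →ₐ[k] MvPolynomial σ (T ⧸ Ideal.span {h}) :=
      MvPolynomial.mapAlgHom (Ideal.Quotient.mkₐ k (Ideal.span {h}))
    have hg1 : Function.Surjective g1 :=
      MvPolynomial.map_surjective _ Ideal.Quotient.mk_surjective
    let g2 : MvPolynomial σ (T ⧸ Ideal.span {h}) →ₐ[k]
        AR (FM (Ideal.Quotient.mk (Ideal.span {h})) F) := Ideal.Quotient.mkₐ k _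
    refine triv_surj hTIS (g2.comp g1) ((Ideal.Quotient.mk_surjective).comp hg1) _ ?_ htriv
    have hk1 : RingHom.ker g1 = Ideal.span {MvPolynomial.C h} := by
      have h5 : RingHom.ker g1 =
          RingHom.ker (MvPolynomial.map (σ := σ) (Ideal.Quotient.mk (Ideal.span {h}))) := rfl
      rw [h5, MvPolynomial.ker_map, Ideal.mk_ker, Ideal.map_span, Set.image_singleton]
    have hk2 : RingHom.ker (g2.comp g1) =
        Ideal.comap g1 (Ideal.span (Set.range (FM (Ideal.Quotient.mk (Ideal.span {h})) F))) := by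
      ext x
      rw [RingHom.mem_ker, Ideal.mem_comap, AlgHom.comp_apply]
      exact Ideal.Quotient.eq_zero_iff_mem
    rw [hk2, ← hk1, ← map_FM]
    exact Ideal.comap_map_of_surjective' g1.toRingHom hg1 _

end PQW
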