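import Pool.Agent.PQW.Stmts

/-!
# PQW: module BAS, dimension zero
-/

set_option autoImplicit false

open Polynomial

namespace PQW

open CUB LOWD

/-- BAS -/
theorem t_BAS : M_BAS := by
  classical
  intro h
  constructor
  · intro k R E σ ι _ _ _ _ _ _ _ _ _ p _ _ L S _ hS hc
    rw [zero_add] at hc
    exact h k R E σ ι L S hS hc
  · intro k R E σ ι _ _ _ _ _ _ _ _ _ p _ _ f L S _ _ hS hc
    refine h k R E (Option σ) (Option ι) (vF p f L)
      (insert none (S.map Function.Embedding.some)) ?_ ?_
    · intro i hi
      rw [Finset.mem_insert, not_or] at hi
      cases i with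
      | none => exact absurd rfl hi.1
      | some i =>
        have hi' : i ∉ S := fun h' =>
          hi.2 (Finset.mem_map_of_mem Function.Embedding.some h')
        obtain ⟨c, hc⟩ := hS i hi'
        refine ⟨c, ?_⟩
        change MvPolynomial.rename some (L i) = _
        rw [hc, MvPolynomial.rename_C]
    · rw [Fintype.card_option]
      have h1 := Finset.card_insert_le (none : Option ι) (S.map Function.Embedding.some)
      rw [Finset.card_map] at h1
      omega

end PQW
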