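import Pool.Agent.PQW.Stmts2

set_option autoImplicit false

open Polynomial

namespace PQW

open CUB LOWD

namespace BRI

variable {R σ κ : Type} [CommRing R] {p r : ℕ} (g : Fin r → MvPolynomial σ R)
  (L : κ → MvPolynomial σ R)

/-- The first ring. -/
abbrev A1 (p : ℕ) : Type := AR (vF p (FF g) (FM MvPolynomial.C L))

/-- The element `∑ t_j g_j`. -/
noncomputable abbrev li : MvPolynomial (Fin r) (AR L) :=
  lin fun j => Ideal.Quotient.mk (Ideal.span (Set.range L)) (g j)

/-- The second ring. -/
abbrev B1 (p : ℕ) : Type := ASC.QP p (MvPolynomial (Fin r) (AR L)) (li g L)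

/-- The base of the second ring. -/
noncomputable def bs (p : ℕ) : MvPolynomial (Fin r) (AR L) →+* B1 g L p :=
  algebraMap _ _

/-- The homomorphism on `R[t]`. -/
noncomputable def al00 (p : ℕ) : MvPolynomial (Fin r) R →+* B1 g L p :=
  (bs g L p).comp (MvPolynomial.map (algebraMap R (AR L)))

/-- The homomorphism on polynomials. -/
noncomputable def al0 (p : ℕ) : MvPolynomial (Option σ) (MvPolynomial (Fin r) R) →+* B1 g L p :=
  MvPolynomial.eval₂Hom (al00 g L p) fun j => match j with
    | none => ASC.yp p (li g L)
    | some j => bs g L p (MvPolynomial.C (Ideal.Quotient.mk _ (MvPolynomial.X j)))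

lemma al0_base : (((al0 g L p).comp
      (MvPolynomial.rename (some : σ → Option σ)).toRingHom).comp
      (MvPolynomial.map MvPolynomial.C)) =
    ((bs g L p).comp (MvPolynomial.C.comp (Ideal.Quotient.mk (Ideal.span (Set.range L))))) := by
  apply MvPolynomial.ringHom_ext
  · intro c
    simp [al0, al00]
    rfl
  · intro j
    simp [al0]

lemma al0_base' (q : MvPolynomial σ R) :
    al0 g L p (MvPolynomial.rename some (MvPolynomial.map MvPolynomial.C q)) =
      bs g L p (MvPolynomial.C (Ideal.Quotient.mk (Ideal.span (Set.range L)) q)) :=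
  RingHom.congr_fun (al0_base g L) q

lemma rename_FF : MvPolynomial.rename some (FF g) = ∑ j, MvPolynomial.C (MvPolynomial.X j) *
    MvPolynomial.rename (some : σ → Option σ) (MvPolynomial.map MvPolynomial.C (g j)) := by
  unfold FF
  rw [map_sum]
  apply Finset.sum_congr rfl
  intro j _
  rw [map_mul, MvPolynomial.rename_C]

lemma al0_FF : al0 g L p (MvPolynomial.rename some (FF g)) = bs g L p (li g L) := by
  have h1 : bs g L p (li g L) = ∑ j, bs g L p (MvPolynomial.X j) *
      bs g L p (MvPolynomial.C (Ideal.Quotient.mk (Ideal.span (Set.range L)) (g j))) := by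
    have h : li g L = ∑ j, MvPolynomial.X j *
      MvPolynomial.C (Ideal.Quotient.mk (Ideal.span (Set.range L)) (g j)) := rfl
    refine (congrArg (bs g L p) h).trans ?_
    rw [map_sum]
    apply Finset.sum_congr rfl
    intro j _
    rw [map_mul]
  rw [h1]
  refine (congrArg (al0 g L p) (rename_FF g)).trans ?_
  rw [map_sum]
  apply Finset.sum_congr rfl
  intro j _
  rw [map_mul, al0_base']
  congr 1
  simp [al0, al00]

lemma al0_vF (i : Option κ) : al0 g L p (vF p (FF g) (FM MvPolynomial.C L) i) = 0 := by
  cases i with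
  | none =>
    have h := ASC.yp_eq (p := p) (li g L)
    unfold vF
    rw [map_sub, map_sub, map_pow, al0_FF]
    have h1 : al0 g L p (MvPolynomial.X none) = ASC.yp p (li g L) := by simp [al0]
    rw [h1]
    exact h
  | some i =>
    have h0 : Ideal.Quotient.mk (Ideal.span (Set.range L)) (L i) = 0 :=
      Ideal.Quotient.eq_zero_iff_mem.mpr (Ideal.subset_span ⟨i, rfl⟩)
    change al0 g L p (MvPolynomial.rename some (MvPolynomial.map MvPolynomial.C (L i))) = 0
    rw [al0_base', h0, map_zero, map_zero]

/-- The homomorphism from the first ring to the second. -/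
noncomputable def al (p : ℕ) : A1 g L p →+* B1 g L p :=
  Ideal.Quotient.lift _ (al0 g L p) (by
    intro x hx
    have : Ideal.span (Set.range (vF p (FF g) (FM MvPolynomial.C L))) ≤
        RingHom.ker (al0 g L p) := by
      rw [Ideal.span_le]
      rintro _ ⟨i, rfl⟩
      exact al0_vF g L i
    exact this hx)

lemma al_mk (x : MvPolynomial (Option σ) (MvPolynomial (Fin r) R)) :
    al g L p (Ideal.Quotient.mk _ x) = al0 g L p x := rfl

/-- The homomorphism on `AR L`. -/
noncomputable def be00 (p : ℕ) : AR L →+* A1 g L p :=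
  Ideal.Quotient.lift _ ((Ideal.Quotient.mk _).comp
    ((MvPolynomial.rename (some : σ → Option σ)).toRingHom.comp
      (MvPolynomial.map MvPolynomial.C))) (by
    intro x hx
    have : Ideal.span (Set.range L) ≤
        RingHom.ker ((Ideal.Quotient.mk
          (Ideal.span (Set.range (vF p (FF g) (FM MvPolynomial.C L))))).comp
    ((MvPolynomial.rename (some : σ → Option σ)).toRingHom.comp
      (MvPolynomial.map MvPolynomial.C))) := by
      rw [Ideal.span_le]
      rintro _ ⟨i, rfl⟩
      exact Ideal.Quotient.eq_zero_iff_mem.mpr (Ideal.subset_span ⟨some i, rfl⟩)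
    exact this hx)

lemma be00_mk (x : MvPolynomial σ R) : be00 g L p (Ideal.Quotient.mk _ x) =
    Ideal.Quotient.mk _ (MvPolynomial.rename some (MvPolynomial.map MvPolynomial.C x)) := rfl

/-- The homomorphism on the base. -/
noncomputable def be0 (p : ℕ) : MvPolynomial (Fin r) (AR L) →+* A1 g L p :=
  MvPolynomial.eval₂Hom (be00 g L p) fun j => Ideal.Quotient.mk _ (MvPolynomial.C (MvPolynomial.X j))

lemma be0_li : be0 g L p (li g L) =
    (Ideal.Quotient.mk _ (MvPolynomial.rename some (FF g)) : A1 g L p) := by
  have h : (Ideal.Quotient.mk _ (MvPolynomial.rename some (FF g)) : A1 g L p) =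
      ∑ j, (Ideal.Quotient.mk _ (MvPolynomial.C (MvPolynomial.X j)) : A1 g L p) *
        Ideal.Quotient.mk _ (MvPolynomial.rename some (MvPolynomial.map MvPolynomial.C (g j))) := by
    have h := congrArg (Ideal.Quotient.mk
      (Ideal.span (Set.range (vF p (FF g) (FM MvPolynomial.C L))))) (rename_FF g)
    refine h.trans ?_
    rw [map_sum]
    apply Finset.sum_congr rfl
    intro j _
    rw [map_mul]
  refine Eq.trans ?_ h.symm
  unfold li lin
  rw [map_sum]
  apply Finset.sum_congr rfl
  intro j _
  rw [map_mul]
  congr 1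
  · simp [be0]
  · rw [be0, MvPolynomial.eval₂Hom_C]
    exact be00_mk g L (g j)

/-- The homomorphism from the second ring to the first. -/
noncomputable def be (p : ℕ) : B1 g L p →+* A1 g L p :=
  AdjoinRoot.lift (be0 g L p) (Ideal.Quotient.mk _ (MvPolynomial.X none)) (by
    refine (ASC.eval_apPoly (be0 g L p) (li g L) _).trans ?_
    rw [be0_li]
    exact Ideal.Quotient.eq_zero_iff_mem.mpr (Ideal.subset_span ⟨none, rfl⟩))

lemma be_yp : be g L p (ASC.yp p (li g L)) = Ideal.Quotient.mk _ (MvPolynomial.X none) :=
  AdjoinRoot.lift_root _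

lemma be_bs (x : MvPolynomial (Fin r) (AR L)) : be g L p (bs g L p x) = be0 g L p x :=
  AdjoinRoot.lift_of _

lemma be_al : (be g L p).comp (al g L p) = RingHom.id _ := by
  apply Ideal.Quotient.ringHom_ext
  apply MvPolynomial.ringHom_ext
  · intro x
    have h : (((be g L p).comp (al g L p)).comp (Ideal.Quotient.mk _)).comp MvPolynomial.C =
        (Ideal.Quotient.mk (Ideal.span (Set.range (vF p (FF g) (FM MvPolynomial.C L))))).comp
          MvPolynomial.C := by
      apply MvPolynomial.ringHom_ext
      · intro c
        change be g L p (al0 g L p (MvPolynomial.C (MvPolynomial.C c))) = _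
        rw [al0, MvPolynomial.eval₂Hom_C]
        change be g L p (bs g L p (MvPolynomial.map (algebraMap R (AR L)) (MvPolynomial.C c))) = _
        rw [be_bs, MvPolynomial.map_C, be0, MvPolynomial.eval₂Hom_C]
        have h1 : algebraMap R (AR L) c = Ideal.Quotient.mk _ (MvPolynomial.C c) := rfl
        rw [h1, be00_mk]
        simp
      · intro j
        change be g L p (al0 g L p (MvPolynomial.C (MvPolynomial.X j))) = _
        rw [al0, MvPolynomial.eval₂Hom_C]
        change be g L p (bs g L p (MvPolynomial.map (algebraMap R (AR L)) (MvPolynomial.X j))) = _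
        rw [be_bs, MvPolynomial.map_X, be0, MvPolynomial.eval₂Hom_X']
        rfl
    exact RingHom.congr_fun h x
  · intro j
    change be g L p (al0 g L p (MvPolynomial.X j)) = Ideal.Quotient.mk _ (MvPolynomial.X j)
    cases j with
    | none =>
      have h1 : al0 g L p (MvPolynomial.X none) = ASC.yp p (li g L) := by simp [al0]
      rw [h1, be_yp]
    | some j =>
      have h1 : al0 g L p (MvPolynomial.X (some j)) =
          bs g L p (MvPolynomial.C (Ideal.Quotient.mk _ (MvPolynomial.X j))) := by simp [al0]
      rw [h1, be_bs, be0, MvPolynomial.eval₂Hom_C, be00_mk]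
      simp

lemma al_be : (al g L p).comp (be g L p) = RingHom.id _ := by
  have h : ∀ x : MvPolynomial (Fin r) (AR L), al g L p (be0 g L p x) = bs g L p x := by
    intro x
    have h : (al g L p).comp (be0 g L p) = bs g L p := by
      apply MvPolynomial.ringHom_ext
      · intro c
        obtain ⟨c, rfl⟩ := Ideal.Quotient.mk_surjective c
        change al g L p (be0 g L p (MvPolynomial.C (Ideal.Quotient.mk _ c))) = _
        rw [be0, MvPolynomial.eval₂Hom_C, be00_mk, al_mk, al0_base']
      · intro j
        change al g L p (be0 g L p (MvPolynomial.X j)) = _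
        rw [be0, MvPolynomial.eval₂Hom_X', al_mk, al0, MvPolynomial.eval₂Hom_C]
        simp [al00]
    exact RingHom.congr_fun h x
  have h2 : ((al g L p).comp (be g L p)).comp (AdjoinRoot.mk (ASC.apPoly p (li g L))) =
      AdjoinRoot.mk (ASC.apPoly p (li g L)) := by
    apply Polynomial.ringHom_ext
    · intro x
      change al g L p (be g L p (bs g L p x)) = bs g L p x
      rw [be_bs, h]
    · change al g L p (be g L p (ASC.yp p (li g L))) = ASC.yp p (li g L)
      rw [be_yp, al_mk]
      simp [al0]
  refine RingHom.ext fun x => ?_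
  obtain ⟨x, rfl⟩ := AdjoinRoot.mk_surjective x
  exact RingHom.congr_fun h2 x

end BRI

theorem t_BRI : S_BRI := by
  intro k R σ κ _ _ _ p r g L
  let e : BRI.A1 g L p ≃+* BRI.B1 g L p :=
    RingEquiv.ofRingHom (BRI.al g L p) (BRI.be g L p) (BRI.al_be g L) (BRI.be_al g L)
  refine ⟨AlgEquiv.ofRingEquiv (f := e) ?_⟩
  intro c
  change BRI.al0 g L p (MvPolynomial.C (MvPolynomial.C (algebraMap k R c))) = _
  rw [BRI.al0, MvPolynomial.eval₂Hom_C]
  change BRI.bs g L p (MvPolynomial.map (algebraMap R (AR L))
    (MvPolynomial.C (algebraMap k R c))) = _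
  rw [MvPolynomial.map_C]
  rfl

end PQW
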