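import Pool.Agent.PQW.Stmts

/-!
# PQW: the closed piece (module CLO)
-/

set_option autoImplicit false

open Polynomial

namespace PQW

open CUB LOWD

namespace CLO

open Classical in
/-- The renaming of the variables. -/
noncomputable def ev {σ : Type} (a : σ) : Option (Option {j : σ // j ≠ a}) ≃ Option σ where
  toFun := fun x => match x with
    | none => some a
    | some none => none
    | some (some j) => some j.1
  invFun := fun x => match x with
    | none => some none
    | some s => if h : s = a then none else some (some ⟨s, h⟩)
  left_inv := by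
    intro x
    match x with
    | none => simp
    | some none => rfl
    | some (some j) => simp [j.2]
  right_inv := by
    intro x
    match x with
    | none => rfl
    | some s =>
      by_cases h : s = a
      · simp [h]
      · simp [h]

variable {k R σ ι : Type} [Field k] [CommRing R] [Algebra k R]

theorem rn {τ τ' τ'' : Type} (f : τ → τ') (g : τ' → τ'') (q : MvPolynomial τ R) :
    MvPolynomial.rename g (MvPolynomial.rename f q) = MvPolynomial.rename (fun j => g (f j)) q :=
  MvPolynomial.rename_rename f g q

/-- The two families of equations generate the same ideal. -/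
theorem ideal_eq (p : ℕ) (a : σ) (f0 La : MvPolynomial {j : σ // j ≠ a} R)
    (L0 : ι → MvPolynomial {j : σ // j ≠ a} R) :
    Ideal.span (Set.range (vF p (nf a f0 La) (FR Subtype.val L0))) ⊔
      Ideal.span {(MvPolynomial.rename (fun j : {j : σ // j ≠ a} => some (Subtype.val j)) La :
        MvPolynomial (Option σ) R)} =
      Ideal.span (Set.range (FR (fun j => ev a (some j)) (vF p f0 (cons La L0)))) := by
  set G := FR (fun j => ev a (some j)) (vF p f0 (cons La L0)) with hG
  set La' : MvPolynomial (Option σ) R :=
    MvPolynomial.rename (fun j : {j : σ // j ≠ a} => some (Subtype.val j)) La with hLa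
  have g0 : G none = MvPolynomial.X none ^ p - MvPolynomial.X none -
      MvPolynomial.rename (fun j : {j : σ // j ≠ a} => some (Subtype.val j)) f0 := by
    rw [hG]
    simp only [FR, vF, map_sub, map_pow, MvPolynomial.rename_X, rn]
    rfl
  have g1 : G (some none) = La' := by
    rw [hG]
    simp only [FR, vF, rn, cons_none]
    rfl
  have g2 : ∀ i, G (some (some i)) =
      MvPolynomial.rename (fun j : {j : σ // j ≠ a} => some (Subtype.val j)) (L0 i) := by
    intro i
    rw [hG]
    simp only [FR, vF, rn, cons_some]
    rfl
  have v0 : vF p (nf a f0 La) (FR Subtype.val L0) none =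
      G none - MvPolynomial.X (some a) * La' := by
    rw [g0, hLa]
    simp only [vF, nf, map_add, map_mul, MvPolynomial.rename_X, rn]
    ring
  have v1 : ∀ i, vF p (nf a f0 La) (FR Subtype.val L0) (some i) = G (some (some i)) := by
    intro i
    rw [g2]
    simp only [vF, FR, rn]
  have mG : ∀ i, G i ∈ Ideal.span (Set.range G) := fun i =>
    Ideal.subset_span (Set.mem_range_self i)
  apply le_antisymm
  · rw [sup_le_iff, Ideal.span_le, Ideal.span_le]
    constructor
    · rintro _ ⟨i, rfl⟩
      cases i with
      | none =>
        rw [v0]
        refine Ideal.sub_mem _ (mG none) (Ideal.mul_mem_left _ _ ?_)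
        rw [← g1]
        exact mG _
      | some i =>
        rw [v1]
        exact mG _
    · rw [Set.singleton_subset_iff, ← g1]
      exact mG _
  · rw [Ideal.span_le]
    have mL : La' ∈ Ideal.span (Set.range (vF p (nf a f0 La) (FR Subtype.val L0))) ⊔
        Ideal.span {La'} := Ideal.mem_sup_right (Ideal.subset_span rfl)
    have mv : ∀ i, vF p (nf a f0 La) (FR Subtype.val L0) i ∈
        Ideal.span (Set.range (vF p (nf a f0 La) (FR Subtype.val L0))) ⊔ Ideal.span {La'} :=
      fun i => Ideal.mem_sup_left (Ideal.subset_span (Set.mem_range_self i))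
    rintro _ ⟨i, rfl⟩
    match i with
    | none =>
      have e : G none = vF p (nf a f0 La) (FR Subtype.val L0) none +
          MvPolynomial.X (some a) * La' := by
        rw [v0]
        ring
      rw [e]
      exact Ideal.add_mem _ (mv none) (Ideal.mul_mem_left _ _ mL)
    | some none =>
      rw [g1]
      exact mL
    | some (some i) =>
      rw [← v1]
      exact mv (some i)

end CLO

open CLO in
theorem t_CLO : M_CLO := by
  intro hT hV k R E σ ι _ _ _ _ _ _ p a f0 La L0 l h
  have h1 := hV k R E (Option {j : σ // j ≠ a}) (Option σ) (Option (Option ι)) (ev a)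
    (vF p f0 (cons La L0)) l h
  set I : Ideal (MvPolynomial (Option σ) R) :=
    Ideal.span (Set.range (vF p (nf a f0 La) (FR Subtype.val L0))) with hI
  set La' : MvPolynomial (Option σ) R :=
    MvPolynomial.rename (fun j : {j : σ // j ≠ a} => some (Subtype.val j)) La with hLa
  have e0 : Ideal.span {Ideal.Quotient.mk I La'} =
      Ideal.map (Ideal.Quotient.mkₐ k I) (Ideal.span {La'}) := by
    rw [Ideal.map_span, Set.image_singleton]
    rfl
  have e1 := Ideal.quotientEquivAlgOfEq k e0
  have e2 := DoubleQuot.quotQuotEquivQuotSupₐ k I (Ideal.span {La'})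
  have e3 := Ideal.quotientEquivAlgOfEq k (ideal_eq (R := R) p a f0 La L0)
  exact hT.1 k _ _ E ((e1.trans e2).trans e3) (l + 1) h1

end PQW
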