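import Pool.Agent.PQW.Stmts

/-!
# COV: covers of closed subschemes
-/

set_option autoImplicit false

open Polynomial

namespace PQW

open CUB LOWD

namespace COV

/-- lifting a prime along the induced homomorphism of quotients -/
theorem lift {P P' : Type} [CommRing P] [CommRing P'] (Φ : P →+* P') (I : Ideal P)
    (p : PrimeSpectrum (P ⧸ I)) (q' : PrimeSpectrum P')
    (hq : PrimeSpectrum.comap Φ q' = PrimeSpectrum.comap (Ideal.Quotient.mk I) p) :
    ∃ q : PrimeSpectrum (P' ⧸ I.map Φ),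
      PrimeSpectrum.comap (Ideal.quotientMap (I.map Φ) Φ Ideal.le_comap_map) q = p := by
  have h1 : I.map Φ ≤ q'.asIdeal := by
    rw [Ideal.map_le_iff_le_comap]
    have h2 := congrArg PrimeSpectrum.asIdeal hq
    rw [PrimeSpectrum.comap_asIdeal, PrimeSpectrum.comap_asIdeal] at h2
    rw [h2]
    intro x hx
    rw [Ideal.mem_comap, Ideal.Quotient.eq_zero_iff_mem.2 hx]
    exact p.asIdeal.zero_mem
  have h3 : (q'.asIdeal.map (Ideal.Quotient.mk (I.map Φ))).IsPrime := by
    have := q'.isPrime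
    refine Ideal.map_isPrime_of_surjective Ideal.Quotient.mk_surjective ?_
    rw [Ideal.mk_ker]
    exact h1
  refine ⟨⟨_, h3⟩, ?_⟩
  apply PrimeSpectrum.comap_injective_of_surjective (Ideal.Quotient.mk I)
    Ideal.Quotient.mk_surjective
  rw [← hq]
  apply PrimeSpectrum.ext
  ext x
  have h4 : Ideal.comap (Ideal.Quotient.mk (I.map Φ))
      (q'.asIdeal.map (Ideal.Quotient.mk (I.map Φ))) = q'.asIdeal := by
    rw [Ideal.comap_map_of_surjective _ Ideal.Quotient.mk_surjective]
    apply le_antisymm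
    · apply sup_le le_rfl
      intro y hy
      rw [Ideal.mem_comap, Ideal.mem_bot, Ideal.Quotient.eq_zero_iff_mem] at hy
      exact h1 hy
    · exact le_sup_left
  have h5 := SetLike.ext_iff.1 h4 (Φ x)
  rw [Ideal.mem_comap] at h5
  exact h5

end COV

open COV in
theorem t_COV : M_COV := by
  intro h1 h2 h3 h4 k P P' E _ _ _ _ _ _ _ _ _ Φ h I l hF hinj hT hS
  -- the induced homomorphism
  obtain ⟨φ, hφ⟩ : ∃ φ : (P ⧸ I) →ₐ[k] (P' ⧸ I.map Φ.toRingHom), φ.toRingHom =
      Ideal.quotientMap (I.map Φ.toRingHom) Φ.toRingHom Ideal.le_comap_map :=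
    ⟨Ideal.quotientMapₐ (I.map Φ.toRingHom) Φ Ideal.le_comap_map, rfl⟩
  have hfin : FinOn φ (Ideal.span {Ideal.Quotient.mk I h}) := by
    apply h1.1
    rw [hφ]
    exact h1.2.1 P P' Φ.toRingHom h I hF
  have hft : Algebra.FiniteType k (P ⧸ I) :=
    Algebra.FiniteType.of_surjective (Ideal.Quotient.mkₐ k I) (Ideal.Quotient.mkₐ_surjective k I)
  have hft' : Algebra.FiniteType k (P' ⧸ I.map Φ.toRingHom) :=
    Algebra.FiniteType.of_surjective (Ideal.Quotient.mkₐ k (I.map Φ.toRingHom))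
      (Ideal.Quotient.mkₐ_surjective k _)
  refine h3 k (P ⧸ I) E (Ideal.span {Ideal.Quotient.mk I h}) l ?_ ?_
  · intro p hp
    refine ⟨P' ⧸ I.map Φ.toRingHom, inferInstance, inferInstance, hft', φ, ?_⟩
    obtain ⟨q', hq'⟩ := h2 P P' Φ.toRingHom h hF (PrimeSpectrum.comap (Ideal.Quotient.mk I) p.1)
      (((RingHom.injective_iff_ker_eq_bot Φ.toRingHom).1 hinj).le.trans bot_le)
      (by
        intro hm
        apply hp
        rw [Ideal.span_singleton_le_iff_mem]
        exact hm)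
    obtain ⟨q, hq⟩ := lift Φ.toRingHom I p.1 q' hq'
    refine ⟨q, hfin, ?_, hT⟩
    rw [hφ]
    exact hq
  · have e0 : Ideal.span {Ideal.Quotient.mk I h} =
        (Ideal.span {h}).map (Ideal.Quotient.mkₐ k I) := by
      rw [Ideal.map_span, Set.image_singleton]
      rfl
    exact h4.1 k _ _ E ((Ideal.quotientEquivAlgOfEq k e0).trans
      (DoubleQuot.quotQuotEquivQuotSupₐ k I (Ideal.span {h}))) l hS

end PQW
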