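import Pool.Agent.PQW.Stmts

/-!
# DEV: noetherian induction
-/

set_option autoImplicit false

open Polynomial

namespace PQW

open CUB LOWD

namespace DEV

variable {k : Type} [Field k] {τ κ : Type}

/-- The homomorphism to the system over a quotient of the base. -/
noncomputable def quo {T : Type} [CommRing T] [Algebra k T] (q : Ideal T)
    (F : κ → MvPolynomial τ T) : AR F →ₐ[k] AR (FM (Ideal.Quotient.mk q) F) :=
  Ideal.quotientMapₐ (Ideal.span (Set.range (FM (Ideal.Quotient.mk q) F)))
    (MvPolynomial.mapAlgHom (Ideal.Quotient.mkₐ k q)) (by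
      rw [Ideal.span_le]
      rintro _ ⟨i, rfl⟩
      exact Ideal.subset_span ⟨i, rfl⟩)

theorem quo_mk {T : Type} [CommRing T] [Algebra k T] (q : Ideal T)
    (F : κ → MvPolynomial τ T) (P : MvPolynomial τ T) :
    quo (k := k) q F (Ideal.Quotient.mk _ P) =
      Ideal.Quotient.mk _ (MvPolynomial.map (Ideal.Quotient.mk q) P) := rfl

theorem quo_surjective {T : Type} [CommRing T] [Algebra k T] (q : Ideal T)
    (F : κ → MvPolynomial τ T) : Function.Surjective (quo (k := k) q F) := by
  intro x
  obtain ⟨P, rfl⟩ := Ideal.Quotient.mk_surjective x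
  obtain ⟨Q, rfl⟩ := MvPolynomial.map_surjective _ Ideal.Quotient.mk_surjective P
  exact ⟨Ideal.Quotient.mk _ Q, quo_mk q F Q⟩

theorem ker_quo {T : Type} [CommRing T] [Algebra k T] (q : Ideal T)
    (F : κ → MvPolynomial τ T) (p : Ideal (AR F))
    (h : ∀ t ∈ q, Ideal.Quotient.mk _ (MvPolynomial.C t) ∈ p) (a : AR F)
    (ha : quo (k := k) q F a = 0) : a ∈ p := by
  obtain ⟨P, rfl⟩ := Ideal.Quotient.mk_surjective a
  rw [quo_mk, Ideal.Quotient.eq_zero_iff_mem] at ha
  have h1 : Ideal.span (Set.range (FM (Ideal.Quotient.mk q) F)) =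
      (Ideal.span (Set.range F)).map (MvPolynomial.map (σ := τ) (Ideal.Quotient.mk q)) := by
    rw [Ideal.map_span, ← Set.range_comp]
    rfl
  rw [h1, Ideal.mem_map_iff_of_surjective _
    (MvPolynomial.map_surjective _ Ideal.Quotient.mk_surjective)] at ha
  obtain ⟨Q, hQ, hQP⟩ := ha
  have h2 : P - Q ∈ RingHom.ker (MvPolynomial.map (σ := τ) (Ideal.Quotient.mk q)) := by
    rw [RingHom.mem_ker, map_sub, hQP, sub_self]
  rw [MvPolynomial.ker_map, Ideal.mk_ker] at h2
  have h3 : (Ideal.map (MvPolynomial.C (σ := τ)) q) ≤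
      p.comap (Ideal.Quotient.mk (Ideal.span (Set.range F))) := by
    rw [Ideal.map_le_iff_le_comap]
    intro t ht
    exact h t ht
  have h4 := h3 h2
  have h5 : Ideal.Quotient.mk (Ideal.span (Set.range F)) P =
      Ideal.Quotient.mk (Ideal.span (Set.range F)) (P - Q) := by
    rw [map_sub, Ideal.Quotient.eq_zero_iff_mem.2 hQ, sub_zero]
  rw [h5]
  exact h4

theorem finOn_of_surjective {A B : Type} [CommRing A] [CommRing B] [Algebra k A] [Algebra k B]
    (φ : A →ₐ[k] B) (hφ : Function.Surjective φ) (J : Ideal A) : FinOn φ J := by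
  intro h _
  refine ⟨{1}, fun b => ?_⟩
  obtain ⟨a, rfl⟩ := hφ b
  exact ⟨0, fun _ => a, by simp⟩

theorem exists_over {A B : Type} [CommRing A] [CommRing B] [Algebra k A] [Algebra k B]
    (φ : A →ₐ[k] B) (hφ : Function.Surjective φ) (p : PrimeSpectrum A)
    (hp : ∀ a, φ a = 0 → a ∈ p.asIdeal) :
    ∃ q : PrimeSpectrum B, PrimeSpectrum.comap φ.toRingHom q = p := by
  have hk : RingHom.ker φ.toRingHom ≤ p.asIdeal := fun a ha => hp a ha
  have hp' := p.2
  have h1 : (p.asIdeal.map φ.toRingHom).IsPrime :=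
    Ideal.map_isPrime_of_surjective (f := φ.toRingHom) hφ hk
  refine ⟨⟨p.asIdeal.map φ.toRingHom, h1⟩, ?_⟩
  apply PrimeSpectrum.ext
  change (p.asIdeal.map φ.toRingHom).comap φ.toRingHom = p.asIdeal
  rw [Ideal.comap_map_of_surjective φ.toRingHom hφ]
  apply sup_eq_left.2
  exact hk

theorem ker_lt {R T S : Type} [CommRing R] [CommRing T] [CommRing S] (ρ : R →+* T)
    (ψ : T →+* S) (hρ : Function.Surjective ρ) (t : T) (ht : t ≠ 0) (h : ψ t = 0) :
    RingHom.ker (ψ.comp ρ) > RingHom.ker ρ := by
  rw [gt_iff_lt, SetLike.lt_iff_le_and_exists]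
  refine ⟨fun r hr => ?_, ?_⟩
  · rw [RingHom.mem_ker] at hr ⊢
    rw [RingHom.comp_apply, hr, map_zero]
  · obtain ⟨r, rfl⟩ := hρ t
    exact ⟨r, by rw [RingHom.mem_ker]; exact h, ht⟩

end DEV

open DEV in
theorem t_DEV : M_DEV := by
  intro hTIS hFIS k R0 E τ κ _ _ _ _ _ _ _ F l H
  have hR0 : IsNoetherianRing R0 := Algebra.FiniteType.isNoetherianRing k R0
  have key : ∀ I : Ideal R0, ∀ (T : Type) [CommRing T] [Algebra k T] (ρ : R0 →ₐ[k] T),
      Function.Surjective ρ → RingHom.ker ρ.toRingHom = I →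
      Triv k (AR (FM ρ.toRingHom F)) E l := by
    intro I
    induction I using WellFoundedGT.induction with
    | ind I ih =>
      intro T _ _ ρ hρ hk
      have hT : Algebra.FiniteType k T := Algebra.FiniteType.of_surjective ρ hρ
      rcases subsingleton_or_nontrivial T with hs | hn
      · apply hTIS.2
        have h1 : Subsingleton (MvPolynomial τ T) := inferInstance
        exact Function.Surjective.subsingleton
          (Ideal.Quotient.mk_surjective (I := Ideal.span (Set.range (FM ρ.toRingHom F))))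
      by_cases hd : IsDomain T
      · obtain ⟨h, h0, h1⟩ := H T ρ hρ
        apply h1
        rw [FM_FM]
        refine ih (RingHom.ker ((Ideal.Quotient.mk (Ideal.span {h})).comp ρ.toRingHom)) ?_
          (T ⧸ Ideal.span {h}) ((Ideal.Quotient.mkₐ k (Ideal.span {h})).comp ρ)
          (Ideal.Quotient.mk_surjective.comp hρ) rfl
        rw [← hk]
        exact ker_lt ρ.toRingHom _ hρ h h0
          (Ideal.Quotient.eq_zero_iff_mem.2 (Ideal.mem_span_singleton_self h))
      · refine hFIS k (AR (FM ρ.toRingHom F)) E ⊤ l ?_ ?_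
        · intro p _
          let q : Ideal T := p.1.asIdeal.comap (algebraMap T (AR (FM ρ.toRingHom F)))
          have hq : q.IsPrime := inferInstance
          have hq0 : ∃ t ∈ q, t ≠ 0 := by
            by_contra hc
            push Not at hc
            have h1 : q = ⊥ := (Submodule.eq_bot_iff q).2 hc
            apply hd
            rw [h1] at hq
            exact IsDomain.of_bot_isPrime T
          obtain ⟨t, htq, ht0⟩ := hq0
          have hf : Algebra.FiniteType k (T ⧸ q) := finiteType_quo k T q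
          obtain ⟨q', hq'⟩ := exists_over (k := k) (quo q (FM ρ.toRingHom F))
            (quo_surjective q _) p.1
            (ker_quo q (FM ρ.toRingHom F) p.1.asIdeal (fun t ht => ht))
          refine ⟨AR (FM (Ideal.Quotient.mk q) (FM ρ.toRingHom F)), inferInstance, inferInstance,
            inferInstance, quo q (FM ρ.toRingHom F), q',
            finOn_of_surjective _ (quo_surjective q _) _, hq', ?_⟩
          rw [FM_FM]
          refine ih (RingHom.ker ((Ideal.Quotient.mk q).comp ρ.toRingHom)) ?_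
            (T ⧸ q) ((Ideal.Quotient.mkₐ k q).comp ρ)
            (Ideal.Quotient.mk_surjective.comp hρ) rfl
          rw [← hk]
          exact ker_lt ρ.toRingHom _ hρ t ht0 (Ideal.Quotient.eq_zero_iff_mem.2 htq)
        · apply hTIS.2
          exact Ideal.Quotient.subsingleton_iff.2 rfl
  have h1 := key _ R0 (AlgHom.id k R0) Function.surjective_id rfl
  have h2 : FM (AlgHom.id k R0).toRingHom F = F := by
    funext i
    exact MvPolynomial.map_id (F i)
  rw [h2] at h1
  exact h1

end PQW
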