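import Pool.Agent.PQW.Stmts

/-!
# PQW, module DST

The decomposition into an open and a closed piece.
-/

set_option autoImplicit false

open Polynomial

namespace PQW

open CUB LOWD

namespace DST

lemma finiteType_poly (k A : Type) [Field k] [CommRing A] [Algebra k A]
    [Algebra.FiniteType k A] : Algebra.FiniteType k A[X] :=
  Algebra.FiniteType.trans (S := A) inferInstance inferInstance

lemma finiteType_away (k A : Type) [Field k] [CommRing A] [Algebra k A]
    [Algebra.FiniteType k A] (x : A) : Algebra.FiniteType k (Localization.Away x) :=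
  Algebra.FiniteType.trans (S := A) inferInstance
    (IsLocalization.finiteType_of_monoid_fg (Submonoid.powers x) (Localization.Away x))

/-- The standard algebra structure of the localisation. -/
lemma away_std (k A : Type) [Field k] [CommRing A] [Algebra k A] (x : A) :
    @IsLocalization.Away A _ x (Localization.Away x) _
      (IsScalarTower.toAlgHom k A (Localization.Away x)).toRingHom.toAlgebra := by
  have h : (IsScalarTower.toAlgHom k A (Localization.Away x)).toRingHom.toAlgebra =
      (inferInstance : Algebra A (Localization.Away x)) :=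
    Algebra.algebra_ext _ _ fun r => rfl
  rw [h]
  exact inferInstance

end DST

open DST in
theorem t_DST : M_DST := by
  intro hT hO hC k R E σ ι _ _ _ _ _ _ p a f0 La L0 l h1 h2
  obtain ⟨t1, t2, t3⟩ := hT
  obtain ⟨ψ, hψ⟩ := hO k R σ ι p a f0 La L0
  have ft2 : Algebra.FiniteType k (AR L0)[X] := finiteType_poly k (AR L0)
  have ft3 := finiteType_away k (AR L0)[X] (C (Ideal.Quotient.mk _ La) : (AR L0)[X])
  have e1 := t1 k (AR L0) E l h1
  have e2 := t2 k (AR L0)[X] (Localization.Away (C (Ideal.Quotient.mk _ La) : (AR L0)[X])) E
    (IsScalarTower.toAlgHom k (AR L0)[X] _) (C (Ideal.Quotient.mk _ La)) (l + 1)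
    (away_std k (AR L0)[X] _) e1
  exact t3 k _ _ E ψ _ (l + 1) hψ e2 (hC k R E σ ι p a f0 La L0 l h2)

end PQW
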