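import Pool.Agent.PQW.Stmts

/-!
# PQW, module FIS: finite covers outside a closed subset
-/

set_option autoImplicit false

open Polynomial

namespace PQW

open CUB LOWD

namespace FIS

/-- A cycle supported on `V(J)` is trivial if all cycles on `V(J)` are. -/
lemma supp_rat (hPUSH : S_PUSH) (hRON : S_RON) (k A E : Type) [Field k] [CommRing A]
    [Algebra k A] [Field E] (J : Ideal A) (l : ℕ) (hJ : Triv k (A ⧸ J) E l)
    (c : RP k A l →₀ E) (hc : SuppOn k E J c) : c ∈ rat k A E l := by
  have hs : Function.Surjective (Ideal.Quotient.mkₐ k J) := Ideal.Quotient.mkₐ_surjective k J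
  have hk : RingHom.ker (Ideal.Quotient.mkₐ k J).toRingHom = J := Ideal.mk_ker
  obtain ⟨-, -, h3, h4, -⟩ := hPUSH k A (A ⧸ J) E (Ideal.Quotient.mkₐ k J) hs l
  rw [hk] at h3 h4
  obtain ⟨c', hc'⟩ := (h4 c).1 hc
  have h5 := h3 c' (hJ c')
  rw [hc'] at h5
  exact hRON k A E l ⊥ J bot_le h5

end FIS

theorem t_FIS : M_FIS := by
  classical
  intro _ hPUSH hRON hFLD hFPR k A E _ _ _ _ _ _ J l hcov hJ
  have hsingle : ∀ p : RP k A l, Finsupp.single p (1 : E) ∈ rat k A E l := by
    intro p
    by_cases hp : J ≤ p.1.asIdeal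
    · apply FIS.supp_rat hPUSH hRON k A E J l hJ
      intro p' hp'
      by_cases hpp : p = p'
      · rw [← hpp]
        exact hp
      · exact absurd (Finsupp.single_eq_of_ne (Ne.symm hpp)) hp'
    · obtain ⟨B, _, _, _, φ, q, hfin, hq, hB⟩ := hcov p hp
      have hJq : ¬ J ≤ (PrimeSpectrum.comap φ.toRingHom q).asIdeal := by
        rw [hq]
        exact hp
      obtain ⟨-, hdg, hdim, -⟩ := hFLD k A B φ J hfin q hJq
      have hqd : rdim k q = l := by
        rw [← hdim, hq]
        exact p.2
      obtain ⟨z, hz, hzp⟩ := hFPR k A B E φ J hfin l (Finsupp.single (⟨q, hqd⟩ : RP k B l) 1)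
        (hB _)
      have hsupp : z - (dg φ q : E) • Finsupp.single p (1 : E) ∈ rat k A E l := by
        apply FIS.supp_rat hPUSH hRON k A E J l hJ
        intro p' hp'
        by_contra hJp
        apply hp'
        have h1 : z p' = if PrimeSpectrum.comap φ.toRingHom q = p'.1 then (dg φ q : E) * 1
            else 0 := by
          rw [hzp p' hJp]
          refine Finsupp.sum_single_index ?_
          rw [mul_zero, ite_self]
        rw [Finsupp.sub_apply, Finsupp.smul_apply, h1, hq]
        by_cases hpp : p = p'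
        · subst hpp
          rw [if_pos rfl, Finsupp.single_eq_same, smul_eq_mul, sub_self]
        · have hne : ¬ p.1 = p'.1 := fun h => hpp (Subtype.ext h)
          rw [if_neg hne, Finsupp.single_eq_of_ne (Ne.symm hpp), smul_zero, sub_zero]
      have h2 : (dg φ q : E) • Finsupp.single p (1 : E) ∈ rat k A E l := by
        have h3 := Submodule.sub_mem _ hz hsupp
        rwa [sub_sub_cancel] at h3
      have hne : (dg φ q : E) ≠ 0 := Nat.cast_ne_zero.2 hdg
      have h4 := Submodule.smul_mem (rat k A E l) ((dg φ q : E)⁻¹) h2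
      rwa [smul_smul, inv_mul_cancel₀ hne, one_smul] at h4
  intro c
  induction c using Finsupp.induction_linear with
  | zero => exact Submodule.zero_mem _
  | add a b ha hb => exact Submodule.add_mem _ ha hb
  | single p e =>
    have h1 := Submodule.smul_mem (rat k A E l) e (hsingle p)
    rwa [Finsupp.smul_single, smul_eq_mul, mul_one] at h1

end PQW
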