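import Pool.Agent.PQW.Stmts

/-!
# PQW, module FN1: homomorphisms which are finite outside a hypersurface
-/

set_option autoImplicit false

open Polynomial

namespace PQW

open CUB LOWD

namespace FN1

/-- the first part -/
theorem first (k A B : Type) [Field k] [CommRing A] [CommRing B] [Algebra k A] [Algebra k B]
    (φ : A →ₐ[k] B) (h : A) (hf : Fin1 φ.toRingHom h) : FinOn φ (Ideal.span {h}) := by
  intro h' hh'
  obtain ⟨M, hM⟩ := hf
  obtain ⟨x, rfl⟩ := Ideal.mem_span_singleton.mp hh'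
  refine ⟨M, fun b => ?_⟩
  obtain ⟨s, c, hs⟩ := hM b
  have hs' : φ h ^ s * b = ∑ m ∈ M, φ (c m) * m := hs
  refine ⟨s, fun m => x ^ s * c m, ?_⟩
  rw [map_mul, mul_pow, mul_comm (φ h ^ s) (φ x ^ s), mul_assoc, hs', Finset.mul_sum]
  refine Finset.sum_congr rfl fun m _ => ?_
  rw [map_mul, map_pow, mul_assoc]

/-- the second part -/
theorem second (P P' : Type) [CommRing P] [CommRing P'] (Φ : P →+* P') (h : P) (I : Ideal P)
    (hf : Fin1 Φ h) :
    Fin1 (Ideal.quotientMap (I.map Φ) Φ Ideal.le_comap_map : P ⧸ I →+* P' ⧸ I.map Φ)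
      (Ideal.Quotient.mk I h) := by
  classical
  obtain ⟨M, hM⟩ := hf
  refine ⟨M.image (Ideal.Quotient.mk (I.map Φ)), fun b' => ?_⟩
  obtain ⟨b, rfl⟩ := Ideal.Quotient.mk_surjective b'
  obtain ⟨s, c, hs⟩ := hM b
  refine ⟨s, fun y => ∑ m ∈ M with Ideal.Quotient.mk (I.map Φ) m = y,
    Ideal.Quotient.mk I (c m), ?_⟩
  have h1 : ∀ y ∈ M.image (Ideal.Quotient.mk (I.map Φ)),
      Ideal.quotientMap (I.map Φ) Φ Ideal.le_comap_map
        (∑ m ∈ M with Ideal.Quotient.mk (I.map Φ) m = y, Ideal.Quotient.mk I (c m)) * y =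
      ∑ m ∈ M with Ideal.Quotient.mk (I.map Φ) m = y,
        Ideal.Quotient.mk (I.map Φ) (Φ (c m) * m) := by
    intro y _
    rw [map_sum, Finset.sum_mul]
    refine Finset.sum_congr rfl fun m hm => ?_
    rw [Ideal.quotientMap_mk, map_mul, (Finset.mem_filter.mp hm).2]
  have h2 : ∑ y ∈ M.image (Ideal.Quotient.mk (I.map Φ)),
      ∑ m ∈ M with Ideal.Quotient.mk (I.map Φ) m = y,
        Ideal.Quotient.mk (I.map Φ) (Φ (c m) * m) =
      ∑ m ∈ M, Ideal.Quotient.mk (I.map Φ) (Φ (c m) * m) :=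
    Finset.sum_fiberwise_of_maps_to (fun m hm => Finset.mem_image_of_mem _ hm) _
  rw [Finset.sum_congr rfl h1, h2, ← map_sum, ← hs, Ideal.quotientMap_mk, map_mul, map_pow]

/-- the third part -/
theorem third (T T' σ : Type) [CommRing T] [CommRing T'] (φ : T →+* T') (h : T)
    (hf : Fin1 φ h) : Fin1 (MvPolynomial.map (σ := σ) φ) (MvPolynomial.C h) := by
  classical
  obtain ⟨M, hM⟩ := hf
  refine ⟨M.image MvPolynomial.C, fun b => ?_⟩
  induction b using MvPolynomial.induction_on' with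
  | monomial u a =>
    obtain ⟨s, c, hs⟩ := hM a
    refine ⟨s, fun y => MvPolynomial.monomial u (c (MvPolynomial.coeff 0 y)), ?_⟩
    rw [Finset.sum_image (fun x _ y _ hxy => MvPolynomial.C_injective σ T' hxy)]
    rw [MvPolynomial.map_C, ← map_pow, MvPolynomial.C_mul_monomial, hs, map_sum]
    refine Finset.sum_congr rfl fun m _ => ?_
    beta_reduce
    rw [MvPolynomial.coeff_C, if_pos rfl, MvPolynomial.map_monomial, mul_comm _ (MvPolynomial.C m),
      MvPolynomial.C_mul_monomial, mul_comm m]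
  | add p q hp hq =>
    obtain ⟨s₁, c₁, h₁⟩ := hp
    obtain ⟨s₂, c₂, h₂⟩ := hq
    refine ⟨s₁ + s₂, fun y => MvPolynomial.C h ^ s₂ * c₁ y + MvPolynomial.C h ^ s₁ * c₂ y, ?_⟩
    have e : (MvPolynomial.map φ) (MvPolynomial.C h) ^ (s₁ + s₂) * (p + q) =
        (MvPolynomial.map φ) (MvPolynomial.C h) ^ s₂ *
          ((MvPolynomial.map φ) (MvPolynomial.C h) ^ s₁ * p) +
        (MvPolynomial.map φ) (MvPolynomial.C h) ^ s₁ *
          ((MvPolynomial.map φ) (MvPolynomial.C h) ^ s₂ * q) := by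
      rw [pow_add]
      ring
    rw [e, h₁, h₂, Finset.mul_sum, Finset.mul_sum, ← Finset.sum_add_distrib]
    refine Finset.sum_congr rfl fun m _ => ?_
    rw [map_add, map_mul, map_mul, map_pow, map_pow]
    ring

end FN1

/-- FN1. -/
theorem t_FN1 : S_FN1 := ⟨FN1.first, FN1.second, FN1.third⟩

end PQW
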