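import Pool.Agent.PQW.Stmts

/-!
# PQW: the substitution `PhiO` is finite and injective
-/

set_option autoImplicit false

open Polynomial

namespace PQW

open CUB LOWD

namespace FNP

/-- a finite type algebra which is integral -/
lemma fin1_of_isIntegral {R A B : Type} [CommRing R] [CommRing A] [CommRing B] [Algebra R A]
    [Algebra R B] [Algebra A B] [IsScalarTower R A B] [Algebra.FiniteType R B]
    [Algebra.IsIntegral A B] : Fin1 (algebraMap A B) 1 := by
  have : Algebra.FiniteType A B := Algebra.FiniteType.of_restrictScalars_finiteType R A B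
  have : Module.Finite A B := Algebra.IsIntegral.finite
  obtain ⟨M, hM⟩ := Module.Finite.fg_top (R := A) (M := B)
  refine ⟨M, fun b => ?_⟩
  have hb : b ∈ Submodule.span A (M : Set B) := by rw [hM]; trivial
  rw [Submodule.mem_span_finset] at hb
  obtain ⟨c, -, hc⟩ := hb
  refine ⟨0, c, ?_⟩
  rw [pow_zero, one_mul, ← hc]
  exact Finset.sum_congr rfl fun m _ => Algebra.smul_def _ _

lemma integral_aeval {R A B : Type} [CommRing R] [CommRing A] [CommRing B] [Algebra R A]
    [Algebra R B] [Algebra A B] [IsScalarTower R A B] {x : B} (hx : IsIntegral A x) (f : R[X]) :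
    IsIntegral A (Polynomial.aeval x f) := by
  induction f using Polynomial.induction_on' with
  | add f g hf hg => rw [map_add]; exact hf.add hg
  | monomial n r =>
    rw [Polynomial.aeval_monomial, IsScalarTower.algebraMap_apply R A B]
    exact isIntegral_algebraMap.mul (hx.pow n)

/-- integrality -/
lemma isIntegral_of {R A B τ : Type} [CommRing R] [CommRing A] [CommRing B] [Algebra R A]
    [Algebra R B] [Algebra A B] [IsScalarTower R A B] (x : τ → B)
    (hx : Algebra.adjoin R (Set.range x) = ⊤) (y : τ → A) (a : τ) (v : τ → R[X]) (e : τ → ℕ)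
    (he : ∀ j, 0 < e j) (hu : IsUnit (v a).leadingCoeff) (hd : 0 < (v a).natDegree)
    (h1 : algebraMap A B (y a) = Polynomial.aeval (x a) (v a))
    (h2 : ∀ j, j ≠ a → algebraMap A B (y j) = x j ^ e j + Polynomial.aeval (x a) (v j)) :
    Algebra.IsIntegral A B := by
  have ia : IsIntegral A (x a) := by
    obtain ⟨u, hu'⟩ := hu
    have hm : (C (↑u⁻¹ : R) * v a).Monic := by
      apply monic_C_mul_of_mul_leadingCoeff_eq_one
      rw [← hu', Units.inv_mul]
    have hn : (C (↑u⁻¹ : R) * v a).natDegree = (v a).natDegree :=
      natDegree_C_mul_of_isUnit (Units.isUnit _) _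
    rcases subsingleton_or_nontrivial A with hA | hA
    · have : Subsingleton B := by
        have h0 : (1 : B) = 0 := by
          rw [← map_one (algebraMap A B), Subsingleton.elim (1 : A) 0, map_zero]
        exact subsingleton_of_zero_eq_one h0.symm
      rw [Subsingleton.elim (x a) 0]
      exact isIntegral_zero
    · apply IsIntegral.of_aeval_monic (p := (C (↑u⁻¹ : R) * v a).map (algebraMap R A))
        (hm.map _)
      · rw [hm.natDegree_map, hn]
        exact hd.ne'
      · rw [Polynomial.aeval_map_algebraMap, map_mul, Polynomial.aeval_C, ← h1,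
          IsScalarTower.algebraMap_apply R A B]
        exact isIntegral_algebraMap.mul isIntegral_algebraMap
  have ij : ∀ j, IsIntegral A (x j) := by
    intro j
    by_cases hj : j = a
    · rw [hj]
      exact ia
    · apply IsIntegral.of_pow (he j)
      have h3 : x j ^ e j = algebraMap A B (y j) - Polynomial.aeval (x a) (v j) := by
        rw [h2 j hj]
        ring
      rw [h3]
      exact isIntegral_algebraMap.sub (integral_aeval ia _)
  refine ⟨fun b => ?_⟩
  have hb : b ∈ Algebra.adjoin R (Set.range x) := by rw [hx]; trivial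
  induction hb using Algebra.adjoin_induction with
  | mem b hb =>
    obtain ⟨j, rfl⟩ := hb
    exact ij j
  | algebraMap r =>
    rw [IsScalarTower.algebraMap_apply R A B]
    exact isIntegral_algebraMap
  | add b c _ _ hb hc => exact hb.add hc
  | mul b c _ _ hb hc => exact hb.mul hc

/-- finiteness -/
lemma fin_of {R A B τ : Type} [CommRing R] [CommRing A] [CommRing B] [Algebra R A]
    [Algebra R B] [Algebra.FiniteType R B] (φ : A →ₐ[R] B) (x : τ → B)
    (hx : Algebra.adjoin R (Set.range x) = ⊤) (y : τ → A) (a : τ) (v : τ → R[X]) (e : τ → ℕ)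
    (he : ∀ j, 0 < e j) (hu : IsUnit (v a).leadingCoeff) (hd : 0 < (v a).natDegree)
    (h1 : φ (y a) = Polynomial.aeval (x a) (v a))
    (h2 : ∀ j, j ≠ a → φ (y j) = x j ^ e j + Polynomial.aeval (x a) (v j)) :
    Fin1 φ.toRingHom 1 := by
  let _ : Algebra A B := φ.toRingHom.toAlgebra
  have : IsScalarTower R A B := IsScalarTower.of_algebraMap_eq fun r => (φ.commutes r).symm
  have : Algebra.IsIntegral A B := isIntegral_of x hx y a v e he hu hd h1 h2
  exact fin1_of_isIntegral (R := R) (A := A) (B := B)

/-- substitutions in the single variables -/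
lemma inj_single {R τ : Type} [CommRing R] [IsDomain R] (P : τ → R[X])
    (hP : ∀ j, (P j).natDegree ≠ 0) : Function.Injective
      (MvPolynomial.aeval (R := R)
        fun j => Polynomial.aeval (MvPolynomial.X j : MvPolynomial τ R) (P j)) := by
  have h := MvPolynomial.algebraicIndependent_polynomial_aeval_X P
    (fun j => Polynomial.transcendental (P j) (hP j) (mem_nonZeroDivisors_of_ne_zero (by
      rw [Ne, Polynomial.leadingCoeff_eq_zero]
      intro h0
      apply hP j
      rw [h0, Polynomial.natDegree_zero])))
  exact h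

open Classical in
/-- injectivity -/
lemma inj_of {R τ : Type} [CommRing R] [IsDomain R] (a : τ) (v : τ → R[X]) (e : τ → ℕ)
    (he : ∀ j, 0 < e j) (hd : 0 < (v a).natDegree) (G : τ → MvPolynomial τ R)
    (h1 : G a = Polynomial.aeval (MvPolynomial.X a : MvPolynomial τ R) (v a))
    (h2 : ∀ j, j ≠ a → G j = MvPolynomial.X j ^ e j +
      Polynomial.aeval (MvPolynomial.X a : MvPolynomial τ R) (v j)) :
    Function.Injective (MvPolynomial.aeval (R := R) G) := by
  let Q : τ → R[X] := fun j => if j = a then v a else X
  let P : τ → R[X] := fun j => if j = a then X else X ^ e j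
  have hQ : ∀ j, (Q j).natDegree ≠ 0 := by
    intro j
    by_cases hj : j = a
    · simp only [Q, if_pos hj]
      exact hd.ne'
    · simp only [Q, if_neg hj]
      rw [natDegree_X]
      exact one_ne_zero
  have hP : ∀ j, (P j).natDegree ≠ 0 := by
    intro j
    by_cases hj : j = a
    · simp only [P, if_pos hj]
      rw [natDegree_X]
      exact one_ne_zero
    · simp only [P, if_neg hj]
      rw [natDegree_X_pow]
      exact (he j).ne'
  let α : MvPolynomial τ R →ₐ[R] MvPolynomial τ R :=
    MvPolynomial.aeval fun j => Polynomial.aeval (MvPolynomial.X j : MvPolynomial τ R) (Q j)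
  let D : MvPolynomial τ R →ₐ[R] MvPolynomial τ R :=
    MvPolynomial.aeval fun j => Polynomial.aeval (MvPolynomial.X j : MvPolynomial τ R) (P j)
  let γ : MvPolynomial τ R →ₐ[R] MvPolynomial τ R :=
    MvPolynomial.aeval fun j => if j = a then MvPolynomial.X a else
      MvPolynomial.X j + Polynomial.aeval (MvPolynomial.X a : MvPolynomial τ R) (v j)
  let γ' : MvPolynomial τ R →ₐ[R] MvPolynomial τ R :=
    MvPolynomial.aeval fun j => if j = a then MvPolynomial.X a else
      MvPolynomial.X j - Polynomial.aeval (MvPolynomial.X a : MvPolynomial τ R) (v j)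
  have ga : γ (MvPolynomial.X a) = MvPolynomial.X a := by
    simp only [γ, MvPolynomial.aeval_X, ↓reduceIte]
  have gj : ∀ j, j ≠ a → γ (MvPolynomial.X j) = MvPolynomial.X j +
      Polynomial.aeval (MvPolynomial.X a : MvPolynomial τ R) (v j) := by
    intro j hj
    simp only [γ, MvPolynomial.aeval_X, if_neg hj]
  have ga' : γ' (MvPolynomial.X a) = MvPolynomial.X a := by
    simp only [γ', MvPolynomial.aeval_X, ↓reduceIte]
  have gj' : ∀ j, j ≠ a → γ' (MvPolynomial.X j) = MvPolynomial.X j -
      Polynomial.aeval (MvPolynomial.X a : MvPolynomial τ R) (v j) := by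
    intro j hj
    simp only [γ', MvPolynomial.aeval_X, if_neg hj]
  have hγ : γ'.comp γ = AlgHom.id R _ := by
    apply MvPolynomial.algHom_ext
    intro j
    rw [AlgHom.comp_apply, AlgHom.id_apply]
    by_cases hj : j = a
    · rw [hj, ga, ga']
    · rw [gj j hj, map_add, gj' j hj, ← Polynomial.aeval_algHom_apply, ga', sub_add_cancel]
  have hγi : Function.Injective γ := by
    intro x y hxy
    have h3 := congrArg γ' hxy
    rw [← AlgHom.comp_apply, ← AlgHom.comp_apply, hγ] at h3
    exact h3
  have hcomp : MvPolynomial.aeval (R := R) G = D.comp (γ.comp α) := by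
    apply MvPolynomial.algHom_ext
    intro j
    rw [AlgHom.comp_apply, AlgHom.comp_apply, MvPolynomial.aeval_X]
    have Da : D (MvPolynomial.X a) = MvPolynomial.X a := by
      simp only [D, P, MvPolynomial.aeval_X, ↓reduceIte, Polynomial.aeval_X]
    by_cases hj : j = a
    · have αa : α (MvPolynomial.X a) =
          Polynomial.aeval (MvPolynomial.X a : MvPolynomial τ R) (v a) := by
        simp only [α, Q, MvPolynomial.aeval_X, ↓reduceIte]
      rw [hj, αa, ← Polynomial.aeval_algHom_apply, ga, ← Polynomial.aeval_algHom_apply, Da, h1]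
    · have αj : α (MvPolynomial.X j) = MvPolynomial.X j := by
        simp only [α, Q, MvPolynomial.aeval_X, if_neg hj, Polynomial.aeval_X]
      have Dj : D (MvPolynomial.X j) = MvPolynomial.X j ^ e j := by
        simp only [D, P, MvPolynomial.aeval_X, if_neg hj, map_pow, Polynomial.aeval_X]
      rw [αj, gj j hj, map_add, Dj, ← Polynomial.aeval_algHom_apply, Da, h2 j hj]
  rw [hcomp, AlgHom.coe_comp, AlgHom.coe_comp]
  exact (inj_single P hP).comp (hγi.comp (inj_single Q hQ))

/-- the general case -/
lemma gen {R τ : Type} [CommRing R] [IsDomain R] [Finite τ] (a : τ) (v : τ → R[X]) (e : τ → ℕ)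
    (he : ∀ j, 0 < e j) (hu : IsUnit (v a).leadingCoeff) (hd : 0 < (v a).natDegree)
    (φ : MvPolynomial τ R →ₐ[R] MvPolynomial τ R)
    (h1 : φ (MvPolynomial.X a) = Polynomial.aeval (MvPolynomial.X a : MvPolynomial τ R) (v a))
    (h2 : ∀ j, j ≠ a → φ (MvPolynomial.X j) = MvPolynomial.X j ^ e j +
      Polynomial.aeval (MvPolynomial.X a : MvPolynomial τ R) (v j)) :
    Fin1 φ.toRingHom 1 ∧ Function.Injective φ := by
  constructor
  · exact fin_of φ MvPolynomial.X MvPolynomial.adjoin_range_X MvPolynomial.X a v e he hu hd h1 h2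
  · have h3 : φ = MvPolynomial.aeval (R := R) (fun j => φ (MvPolynomial.X j)) :=
      MvPolynomial.algHom_ext fun j => by rw [MvPolynomial.aeval_X]
    rw [h3]
    exact inj_of a v e he hd _ h1 h2

end FNP

open FNP in
theorem t_FNP : S_FNP := by
  intro R σ _ _ _ p _ a v B hu hd
  have hB : 0 < p ^ B := pow_pos (Fact.out : p.Prime).pos B
  have e1 : Phi p a v B a = Polynomial.aeval (MvPolynomial.X a : MvPolynomial σ R) (v a) := by
    unfold Phi
    rw [if_pos rfl, zero_add]
  have e2 : ∀ j, j ≠ a → Phi p a v B j = MvPolynomial.X j ^ p ^ B +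
      Polynomial.aeval (MvPolynomial.X a : MvPolynomial σ R) (v j) := by
    intro j hj
    unfold Phi
    rw [if_neg hj]
  constructor
  · let v' : Option σ → R[X] := fun j => match j with
      | none => 0
      | some j => v j
    let e' : Option σ → ℕ := fun j => match j with
      | none => 1
      | some _ => p ^ B
    have key : ∀ f : R[X], MvPolynomial.rename some
        (Polynomial.aeval (MvPolynomial.X a : MvPolynomial σ R) f) =
          Polynomial.aeval (MvPolynomial.X (some a) : MvPolynomial (Option σ) R) f := by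
      intro f
      rw [← Polynomial.aeval_algHom_apply, MvPolynomial.rename_X]
    refine gen (some a) v' e' ?_ hu hd (PhiO p a v B) ?_ ?_
    · intro j
      cases j with
      | none => exact one_pos
      | some j => exact hB
    · unfold PhiO
      rw [MvPolynomial.aeval_X]
      simp only
      rw [e1, key]
    · intro j hj
      cases j with
      | none =>
        unfold PhiO
        rw [MvPolynomial.aeval_X]
        simp only [v', e', pow_one, map_zero, add_zero]
      | some j =>
        have hj' : j ≠ a := fun h => hj (by rw [h])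
        unfold PhiO
        rw [MvPolynomial.aeval_X]
        simp only [v', e']
        rw [e2 j hj', map_add, map_pow, MvPolynomial.rename_X, key]
  · refine gen a v (fun _ => p ^ B) (fun _ => hB) hu hd (MvPolynomial.aeval (Phi p a v B)) ?_ ?_
    · rw [MvPolynomial.aeval_X, e1]
    · intro j hj
      rw [MvPolynomial.aeval_X, e2 j hj]

end PQW
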