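import Pool.Agent.PQW.Stmts

/-!
# PQW: fewer forms of positive degree than variables have a nonzero common zero
-/

set_option autoImplicit false

open Polynomial

namespace PQW

open CUB LOWD

namespace HSOL

/-- A prime ideal which contains all the variables contains the polynomials vanishing at `0`. -/
lemma sub_mem {K σ : Type} [Field K] (q : Ideal (MvPolynomial σ K))
    (hX : ∀ j, MvPolynomial.X j ∈ q) (f : MvPolynomial σ K) :
    f - MvPolynomial.C (MvPolynomial.constantCoeff f) ∈ q := by
  induction f using MvPolynomial.induction_on with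
  | C a => simp
  | add f g hf hg =>
    have h : f + g - MvPolynomial.C (MvPolynomial.constantCoeff (f + g)) =
        (f - MvPolynomial.C (MvPolynomial.constantCoeff f)) +
          (g - MvPolynomial.C (MvPolynomial.constantCoeff g)) := by
      rw [map_add, map_add]
      ring
    rw [h]
    exact q.add_mem hf hg
  | mul_X f j _ =>
    have h : MvPolynomial.constantCoeff (f * MvPolynomial.X j) = 0 := by simp
    rw [h, map_zero, sub_zero]
    exact q.mul_mem_left _ (hX j)

end HSOL

open HSOL in
theorem t_HSOL : M_HSOL := by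
  intro hHTM K σ κ _ _ _ _ F e hG he hcard
  have hF : ∀ i, F i ∈
      RingHom.ker (MvPolynomial.constantCoeff : MvPolynomial σ K →+* K) := by
    intro i
    rw [RingHom.mem_ker, MvPolynomial.constantCoeff_eq]
    apply (hG i).coeff_eq_zero
    rw [map_zero]
    exact (he i).ne
  have hmax : (RingHom.ker (MvPolynomial.constantCoeff : MvPolynomial σ K →+* K)).IsMaximal := by
    apply RingHom.ker_isMaximal_of_surjective
    intro c
    exact ⟨MvPolynomial.C c, MvPolynomial.constantCoeff_C σ c⟩
  obtain ⟨q, hq, hlt, hFq⟩ := hHTM K σ κ F _ hmax hF hcard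
  have hj : ∃ j, MvPolynomial.X j ∉ q := by
    by_contra hcon
    push Not at hcon
    apply hlt.not_ge
    intro f hf
    have h := sub_mem q hcon f
    rw [RingHom.mem_ker.1 hf, map_zero, sub_zero] at h
    exact h
  obtain ⟨j, hj⟩ := hj
  have hw : ∃ w ∈ MvPolynomial.zeroLocus K q, w j ≠ 0 := by
    by_contra hcon
    push Not at hcon
    apply hj
    rw [← MvPolynomial.IsPrime.vanishingIdeal_zeroLocus (K := K) q]
    intro x hx
    rw [MvPolynomial.aeval_X]
    exact hcon x hx
  obtain ⟨w, hw, hwj⟩ := hw
  refine ⟨w, fun h => hwj (by rw [h]; rfl), fun i => ?_⟩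
  have h := hw _ (hFq i)
  rw [← MvPolynomial.coe_aeval_eq_eval]
  exact h

end PQW
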