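import Pool.Agent.PQW.Stmts

/-!
# PQW, module LFT: the normal form over a finite extension of a domain
-/

set_option autoImplicit false

open Polynomial

namespace PQW

open CUB LOWD

namespace LFT

/-! ### Naturality of the substitution -/

section Nat

variable {σ R S : Type} [CommRing R] [CommRing S] (ψ : R →+* S)

lemma map_aeval (g : σ → MvPolynomial σ R) (P : MvPolynomial σ R) :
    MvPolynomial.map ψ (MvPolynomial.aeval g P) =
      MvPolynomial.aeval (fun j => MvPolynomial.map ψ (g j)) (MvPolynomial.map ψ P) :=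
  MvPolynomial.map_bind₁ ψ g P

lemma map_paeval (a : σ) (q : R[X]) :
    MvPolynomial.map ψ (Polynomial.aeval (MvPolynomial.X a : MvPolynomial σ R) q) =
      Polynomial.aeval (MvPolynomial.X a : MvPolynomial σ S) (q.map ψ) := by
  rw [Polynomial.aeval_def, Polynomial.aeval_def, Polynomial.hom_eval₂, Polynomial.eval₂_map,
    MvPolynomial.map_X]
  congr 1
  ext x
  simp [MvPolynomial.algebraMap_eq]

lemma map_Phi (p : ℕ) (a : σ) (v : σ → R[X]) (B : ℕ) (j : σ) :
    MvPolynomial.map ψ (Phi p a v B j) = Phi p a (fun j => (v j).map ψ) B j := by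
  unfold Phi
  rw [map_add, map_paeval]
  congr 1
  split_ifs
  · rw [map_zero]
  · rw [map_pow, MvPolynomial.map_X]

lemma map_aeval_Phi (p : ℕ) (a : σ) (v : σ → R[X]) (B : ℕ) (P : MvPolynomial σ R) :
    MvPolynomial.map ψ (MvPolynomial.aeval (Phi p a v B) P) =
      MvPolynomial.aeval (Phi p a (fun j => (v j).map ψ) B) (MvPolynomial.map ψ P) := by
  rw [map_aeval]
  congr 2
  funext j
  exact map_Phi ψ p a v B j

lemma map_nf (a : σ) (f0 La : MvPolynomial {j : σ // j ≠ a} R) :
    MvPolynomial.map ψ (nf a f0 La) =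
      nf a (MvPolynomial.map ψ f0) (MvPolynomial.map ψ La) := by
  unfold nf
  rw [map_add, map_mul, MvPolynomial.map_X, MvPolynomial.map_rename, MvPolynomial.map_rename]

end Nat

/-! ### Lifting of polynomials to a subalgebra -/

section Lift

variable {T K : Type} [CommRing T] [Field K] [Algebra T K] (T' : Subalgebra T K)

lemma sub_range {s : Set K} (h : s ⊆ (T' : Set K)) : s ⊆ Set.range (algebraMap T' K) :=
  fun x hx => ⟨⟨x, h hx⟩, rfl⟩

lemma lift_mv {τ : Type} (P : MvPolynomial τ K) (h : (P.coeffs : Set K) ⊆ (T' : Set K)) :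
    ∃ P' : MvPolynomial τ T', MvPolynomial.map (algebraMap T' K) P' = P :=
  MvPolynomial.mem_range_map_iff_coeffs_subset.2 (sub_range T' h)

lemma lift_p (P : K[X]) (h : (P.coeffs : Set K) ⊆ (T' : Set K)) :
    ∃ P' : T'[X], P'.map (algebraMap T' K) = P :=
  (Polynomial.mem_lifts P).1 ((Polynomial.lifts_iff_coeffs_subset_range P).2 (sub_range T' h))

lemma inj : Function.Injective (algebraMap T' K) := Subtype.val_injective

lemma PW_of_map {τ : Type} {p w : ℕ} {P : MvPolynomial τ T'}
    (h : PW p w (MvPolynomial.map (algebraMap T' K) P)) : PW p w P := by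
  intro m hm
  apply h m
  rw [MvPolynomial.support_map_of_injective P (inj T')]
  exact hm

end Lift

/-- The statement for an algebraically closed field `K`, algebraic over `T`. -/
theorem key (hVEC : S_VEC) (hNFL : S_NFL) (hNFQ : S_NFQ) (hSPR : S_SPR)
    (k T K σ ι : Type) [Field k] [CommRing T] [IsDomain T] [Algebra k T]
    [Algebra.FiniteType k T] [Fintype σ] [Fintype ι] (p : ℕ) [Fact p.Prime]
    [Field K] [IsAlgClosed K] [CharP K p] [Algebra T K] [FaithfulSMul T K]
    [Algebra.IsAlgebraic T K]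
    (f : MvPolynomial σ T) (L : ι → MvPolynomial σ T) (S : Finset ι) (hf : PW p 2 f)
    (hL : ∀ i, PW p 1 (L i)) (hS : ∀ i, i ∉ S → ∃ c : T, L i = MvPolynomial.C c)
    (hcard : S.card + 1 < Fintype.card σ) :
    ∃ (T' : Type) (_ : CommRing T') (_ : IsDomain T') (_ : Algebra k T')
      (_ : Algebra.FiniteType k T') (φ : T →ₐ[k] T') (h : T) (a : σ) (v : σ → T'[X]) (B : ℕ)
      (G : MvPolynomial σ T') (f0 La : MvPolynomial {j : σ // j ≠ a} T')
      (L0 : ι → MvPolynomial {j : σ // j ≠ a} T'), h ≠ 0 ∧ Function.Injective φ ∧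
      Fin1 φ.toRingHom h ∧ IsUnit (v a).leadingCoeff ∧ 0 < (v a).natDegree ∧ PW p 2 f0 ∧
      PW p 1 La ∧ (∀ i, PW p 1 (L0 i)) ∧ (∀ i, i ∉ S → ∃ c : T', L0 i = MvPolynomial.C c) ∧
      MvPolynomial.aeval (Phi p a v B) (MvPolynomial.map φ.toRingHom f) =
        nf a f0 La + (G ^ p - G) ∧
      ∀ i, MvPolynomial.aeval (Phi p a v B) (MvPolynomial.map φ.toRingHom (L i)) =
        MvPolynomial.rename Subtype.val (L0 i) := by
  classical
  have hp : p.Prime := Fact.out
  set iT : T →+* K := algebraMap T K with hiT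
  have hTinj : Function.Injective iT := FaithfulSMul.algebraMap_injective T K
  -- the curve
  obtain ⟨v, hv0, hvA, hvL, hvf⟩ := (hVEC K σ {i // i ∈ S} p
    (fun i => MvPolynomial.map iT (L i)) (fun i => (hL i).map iT)).2
    (MvPolynomial.map iT f) (hf.map iT) (by rwa [Fintype.card_coe])
  obtain ⟨a, ha⟩ := Function.ne_iff.1 hv0
  have ha : v a ≠ 0 := ha
  obtain ⟨B, G, f0, La, hf0, hLa, hfe⟩ := hNFQ K σ p a v (MvPolynomial.map iT f) hvA
    (hf.map iT) hvf
  have hvL' : ∀ i, MvPolynomial.aeval v (MvPolynomial.map iT (L i)) =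
      C (MvPolynomial.constantCoeff (MvPolynomial.map iT (L i))) := by
    intro i
    by_cases hi : i ∈ S
    · exact hvL ⟨i, hi⟩
    · obtain ⟨c, hc⟩ := hS i hi
      rw [hc, MvPolynomial.map_C, MvPolynomial.constantCoeff_C, MvPolynomial.aeval_C]
      rfl
  choose L0 hL0 hL0C hL0e using fun i => hNFL K σ p a v B (MvPolynomial.map iT (L i))
    ((hL i).map iT) (hvL' i)
  -- the coefficients
  obtain ⟨h, T', hh, hF, hft, hfin⟩ := hSPR T K
    ((Finset.univ.biUnion fun j => (v j).coeffs) ∪ G.coeffs ∪ f0.coeffs ∪ La.coeffs ∪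
      (Finset.univ.biUnion fun i => (L0 i).coeffs) ∪ {(v a).leadingCoeff⁻¹})
  rw [Finset.coe_union, Finset.coe_union, Finset.coe_union, Finset.coe_union,
    Finset.coe_union] at hF
  obtain ⟨hF, hFu⟩ := Set.union_subset_iff.1 hF
  obtain ⟨hF, hFL0⟩ := Set.union_subset_iff.1 hF
  obtain ⟨hF, hFLa⟩ := Set.union_subset_iff.1 hF
  obtain ⟨hF, hFf0⟩ := Set.union_subset_iff.1 hF
  obtain ⟨hFv, hFG⟩ := Set.union_subset_iff.1 hF
  have hv' : ∀ j, ∃ P' : T'[X], P'.map (algebraMap T' K) = v j := by
    intro j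
    refine lift_p T' (v j) (subset_trans ?_ hFv)
    intro x hx
    exact Finset.mem_coe.2 (Finset.mem_biUnion.2 ⟨j, Finset.mem_univ j, Finset.mem_coe.1 hx⟩)
  have hL0' : ∀ i, ∃ P' : MvPolynomial {j : σ // j ≠ a} T',
      MvPolynomial.map (algebraMap T' K) P' = L0 i := by
    intro i
    refine lift_mv T' (L0 i) (subset_trans ?_ hFL0)
    intro x hx
    exact Finset.mem_coe.2 (Finset.mem_biUnion.2 ⟨i, Finset.mem_univ i, Finset.mem_coe.1 hx⟩)
  choose v' hv'e using hv'
  choose L0' hL0'e using hL0'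
  obtain ⟨G', hG'⟩ := lift_mv T' G hFG
  obtain ⟨f0', hf0'⟩ := lift_mv T' f0 hFf0
  obtain ⟨La', hLa'⟩ := lift_mv T' La hFLa
  have hψ := inj T'
  letI : Algebra k T' := ((algebraMap T T').comp (algebraMap k T)).toAlgebra
  haveI : IsScalarTower k T T' := IsScalarTower.of_algebraMap_eq fun _ => rfl
  let φ : T →ₐ[k] T' := { algebraMap T T' with commutes' := fun _ => rfl }
  have hcomp : (algebraMap T' K).comp φ.toRingHom = iT := rfl
  have hmap : ∀ P : MvPolynomial σ T,
      MvPolynomial.map (algebraMap T' K) (MvPolynomial.map φ.toRingHom P) =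
        MvPolynomial.map iT P := by
    intro P
    rw [MvPolynomial.map_map, hcomp]
  have hv'f : (fun j => (v' j).map (algebraMap T' K)) = v := funext hv'e
  refine ⟨T', inferInstance, inferInstance, inferInstance, Algebra.FiniteType.trans
    (inferInstance : Algebra.FiniteType k T) hft, φ, h, a, v', B, G', f0', La', L0', hh, ?_, hfin,
    ?_, ?_, ?_, ?_, ?_, ?_, ?_, ?_⟩
  · intro x y hxy
    apply hTinj
    exact congrArg (algebraMap T' K) hxy
  · have hu : (v a).leadingCoeff⁻¹ ∈ T' := hFu (Finset.mem_coe.2 (Finset.mem_singleton_self _))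
    refine IsUnit.of_mul_eq_one (⟨_, hu⟩ : T') ?_
    apply hψ
    rw [map_mul, map_one, ← Polynomial.leadingCoeff_map_of_injective hψ, hv'e a]
    change (v a).leadingCoeff * (v a).leadingCoeff⁻¹ = 1
    exact mul_inv_cancel₀ (Polynomial.leadingCoeff_ne_zero.2 ha)
  · rw [← Polynomial.natDegree_map_eq_of_injective hψ, hv'e a]
    obtain ⟨s, hs⟩ := hvA a _ (Polynomial.natDegree_mem_support_of_nonzero ha)
    rw [hs]
    exact pow_pos hp.pos s
  · apply PW_of_map T'
    rw [hf0']
    exact hf0
  · apply PW_of_map T'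
    rw [hLa']
    exact hLa
  · intro i
    apply PW_of_map T'
    rw [hL0'e i]
    exact hL0 i
  · intro i hi
    obtain ⟨c, hc⟩ := hS i hi
    refine ⟨algebraMap T T' c, ?_⟩
    apply MvPolynomial.map_injective _ hψ
    rw [hL0'e i, MvPolynomial.map_C]
    exact hL0C i (iT c) (by rw [hc, MvPolynomial.map_C])
  · apply MvPolynomial.map_injective _ hψ
    rw [map_aeval_Phi, hmap, hv'f, hfe, map_add, map_sub, map_pow, map_nf, hf0', hLa', hG']
  · intro i
    apply MvPolynomial.map_injective _ hψ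
    rw [map_aeval_Phi, hmap, hv'f, hL0e i, MvPolynomial.map_rename, hL0'e i]

end LFT

theorem t_LFT : M_LFT := by
  intro hVEC hNFL hNFQ hSPR k T σ ι _ _ _ _ _ _ _ p _ _ f L S hf hL hS hcard
  haveI : Algebra.IsAlgebraic T (AlgebraicClosure (FractionRing T)) :=
    (IsFractionRing.comap_isAlgebraic_iff (A := T) (K := FractionRing T)
      (C := AlgebraicClosure (FractionRing T))).2 inferInstance
  haveI : FaithfulSMul T (AlgebraicClosure (FractionRing T)) :=
    (faithfulSMul_iff_algebraMap_injective T (AlgebraicClosure (FractionRing T))).2 (by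
      rw [IsScalarTower.algebraMap_eq T (FractionRing T) (AlgebraicClosure (FractionRing T))]
      exact (algebraMap (FractionRing T) (AlgebraicClosure (FractionRing T))).injective.comp
        (IsFractionRing.injective T (FractionRing T)))
  haveI : CharP T p := charP_of_injective_algebraMap (algebraMap k T).injective p
  haveI : CharP (AlgebraicClosure (FractionRing T)) p :=
    charP_of_injective_algebraMap (FaithfulSMul.algebraMap_injective T
      (AlgebraicClosure (FractionRing T))) p
  exact LFT.key hVEC hNFL hNFQ hSPR k T (AlgebraicClosure (FractionRing T)) σ ι p f L S hf hL hS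
    hcard

end PQW
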