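import Pool.Agent.PQW.Stmts

/-!
# PQW, module LYO: lying over outside `V(h)`, by the determinant trick
-/

set_option autoImplicit false

namespace PQW

open Polynomial

namespace LYO

/-- The value of a monic polynomial with lower coefficients in an ideal. -/
lemma eval_sub_mem {A : Type} [CommRing A] (I : Ideal A) (P : A[X]) (hP : P.Monic)
    (hc : ∀ k, P.coeff k ∈ I ^ (P.natDegree - k)) (c : A) : P.eval c - c ^ P.natDegree ∈ I := by
  rw [eval_eq_sum_range, Finset.sum_range_succ, hP.coeff_natDegree, one_mul, add_sub_cancel_right]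
  refine I.sum_mem fun i hi => I.mul_mem_right _ ?_
  have h1 : P.natDegree - i ≠ 0 := by
    have := Finset.mem_range.1 hi
    omega
  exact Ideal.pow_le_self h1 (hc i)

end LYO

theorem t_LYO : S_LYO := by
  intro A B _ _ φ h hfin p hker hh
  let _ : Algebra A B := φ.toAlgebra
  have hsm : ∀ (a : A) (b : B), a • b = φ a * b := fun a b => Algebra.smul_def a b
  obtain ⟨M, hM⟩ := hfin
  have goal : p ∈ Set.range (PrimeSpectrum.comap φ) := by
    rw [PrimeSpectrum.mem_range_comap_iff]
    refine le_antisymm ?_ Ideal.le_comap_map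
    intro a ha
    obtain ⟨N, hNdef⟩ : ∃ N : Submodule A B, N = Submodule.span A (M : Set B) := ⟨_, rfl⟩
    have hNfg : N.FG := ⟨M, hNdef.symm⟩
    have hN : ∀ b : B, ∃ s : ℕ, h ^ s • b ∈ N := by
      intro b
      obtain ⟨s, c, hc⟩ := hM b
      refine ⟨s, ?_⟩
      rw [hsm, map_pow, hc, hNdef]
      refine Submodule.sum_mem _ fun m hm => ?_
      rw [← hsm]
      exact Submodule.smul_mem _ _ (Submodule.subset_span hm)
    have hpN : ∀ b ∈ p.asIdeal.map φ, ∃ s : ℕ, h ^ s • b ∈ p.asIdeal • N := by
      intro b hb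
      refine Submodule.span_induction (p := fun b _ => ∃ s : ℕ, h ^ s • b ∈ p.asIdeal • N)
        ?_ ?_ ?_ ?_ hb
      · rintro _ ⟨x, hx, rfl⟩
        obtain ⟨s, hs⟩ := hN 1
        refine ⟨s, ?_⟩
        have e : h ^ s • φ x = x • (h ^ s • (1 : B)) := by
          rw [hsm, hsm, hsm]
          ring
        rw [e]
        exact Submodule.smul_mem_smul hx hs
      · exact ⟨0, by rw [smul_zero]; exact Submodule.zero_mem _⟩
      · rintro x y _ _ ⟨s, hs⟩ ⟨t, ht⟩
        refine ⟨s + t, ?_⟩
        have e : h ^ (s + t) • (x + y) = h ^ t • (h ^ s • x) + h ^ s • (h ^ t • y) := by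
          rw [smul_add, smul_smul, smul_smul, ← pow_add, ← pow_add, add_comm t s]
        rw [e]
        exact Submodule.add_mem _ (Submodule.smul_mem _ _ hs) (Submodule.smul_mem _ _ ht)
      · rintro r x _ ⟨s, hs⟩
        -- `p N` times `r`: the generators of `N` times `r` are in `N` up to a power of `h`
        have key : ∀ y ∈ p.asIdeal • N, ∃ t : ℕ, h ^ t • (r * y) ∈ p.asIdeal • N := by
          intro y hy
          refine Submodule.smul_induction_on hy ?_ ?_
          · intro u hu n _
            obtain ⟨t, ht⟩ := hN (r * n)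
            refine ⟨t, ?_⟩
            have e : h ^ t • (r * u • n) = u • (h ^ t • (r * n)) := by
              simp only [hsm]
              ring
            rw [e]
            exact Submodule.smul_mem_smul hu ht
          · rintro y z ⟨t, ht⟩ ⟨t', ht'⟩
            refine ⟨t + t', ?_⟩
            have e : h ^ (t + t') • (r * (y + z)) =
                h ^ t' • (h ^ t • (r * y)) + h ^ t • (h ^ t' • (r * z)) := by
              simp only [hsm, map_pow]
              ring
            rw [e]
            exact Submodule.add_mem _ (Submodule.smul_mem _ _ ht) (Submodule.smul_mem _ _ ht')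
        obtain ⟨t, ht⟩ := key _ hs
        refine ⟨t + s, ?_⟩
        have e : h ^ (t + s) • (r • x) = h ^ t • (r * h ^ s • x) := by
          simp only [hsm, map_pow, smul_eq_mul]
          ring
        rw [e]
        exact ht
    -- the generators
    have hgen : ∀ m : B, ∃ s : ℕ, h ^ s • (φ a * m) ∈ p.asIdeal • N := fun m =>
      hpN _ (Ideal.mul_mem_right _ _ ha)
    choose s hs using hgen
    obtain ⟨S, hS⟩ : ∃ S : ℕ, ∀ m ∈ M, s m ≤ S := ⟨M.sup s, fun m hm => Finset.le_sup hm⟩
    have hcm : ∀ n ∈ N, (h ^ S * a) • n ∈ p.asIdeal • N := by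
      intro n hn
      rw [hNdef] at hn
      refine Submodule.span_induction (p := fun n _ => (h ^ S * a) • n ∈ p.asIdeal • N)
        ?_ ?_ ?_ ?_ hn
      · intro m hm
        have e : (h ^ S * a) • m = h ^ (S - s m) • (h ^ s m • (φ a * m)) := by
          rw [smul_smul, ← pow_add, Nat.sub_add_cancel (hS m hm), hsm, hsm, map_mul, mul_assoc]
        rw [e]
        exact Submodule.smul_mem _ _ (hs m)
      · rw [smul_zero]
        exact Submodule.zero_mem _
      · intro x y _ _ hx hy
        rw [smul_add]
        exact Submodule.add_mem _ hx hy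
      · intro r x _ hx
        rw [smul_comm]
        exact Submodule.smul_mem _ _ hx
    have : Module.Finite A N := Module.Finite.iff_fg.2 hNfg
    have hrange : LinearMap.range (algebraMap A (Module.End A N) (h ^ S * a)) ≤
        p.asIdeal • (⊤ : Submodule A N) := by
      rintro _ ⟨x, rfl⟩
      rw [Submodule.mem_smul_top_iff]
      exact hcm x x.2
    obtain ⟨P, hPm, _, hPc, hP0⟩ :=
      LinearMap.exists_monic_and_natDegree_eq_and_coeff_mem_pow_and_aeval_eq_zero A
        (algebraMap A (Module.End A N) (h ^ S * a)) p.asIdeal hrange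
    rw [aeval_algebraMap_apply, Polynomial.coe_aeval_eq_eval] at hP0
    obtain ⟨t, ht⟩ := hN 1
    have h1 := LinearMap.congr_fun hP0 ⟨h ^ t • (1 : B), ht⟩
    have h2 : P.eval (h ^ S * a) • (h ^ t • (1 : B)) = 0 := congrArg Subtype.val h1
    have h3 : P.eval (h ^ S * a) * h ^ t ∈ p.asIdeal := by
      refine hker (RingHom.mem_ker.2 ?_)
      rw [smul_smul, hsm, mul_one] at h2
      exact h2
    have h4 : P.eval (h ^ S * a) ∈ p.asIdeal := by
      rcases p.isPrime.mem_or_mem h3 with h4 | h4
      · exact h4
      · exact absurd (p.isPrime.mem_of_pow_mem _ h4) hh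
    have h5 : (h ^ S * a) ^ P.natDegree ∈ p.asIdeal := by
      have h6 := p.asIdeal.sub_mem h4 (LYO.eval_sub_mem p.asIdeal P hPm hPc (h ^ S * a))
      rwa [sub_sub_cancel] at h6
    rcases p.isPrime.mem_or_mem (p.isPrime.mem_of_pow_mem _ h5) with h7 | h7
    · exact absurd (p.isPrime.mem_of_pow_mem _ h7) hh
    · exact h7
  exact goal

end PQW
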