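import Pool.Agent.PQW.Stmts

/-!
# PQW: normal form, additive part
-/

set_option autoImplicit false

open Polynomial

namespace PQW

open CUB LOWD

namespace NFL

section Gen

variable {σ R : Type} [CommRing R]

/-- induction in `AF` -/
lemma AF_induction {p : ℕ} {P : MvPolynomial σ R → Prop}
    (hC : ∀ c : R, P (MvPolynomial.C c)) (hadd : ∀ f g, P f → P g → P (f + g))
    (hsmul : ∀ (c : R) (f : MvPolynomial σ R), P f → P (c • f))
    (hX : ∀ (i : σ) (b : ℕ), P (MvPolynomial.X i ^ p ^ b)) {f : MvPolynomial σ R}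
    (hf : f ∈ AF σ R p) : P f := by
  obtain ⟨y, hy, z, hz, rfl⟩ := Submodule.mem_sup.1 hf
  obtain ⟨c, rfl⟩ := Submodule.mem_one.1 hy
  refine hadd _ _ (hC c) ?_
  refine Submodule.span_induction (p := fun z _ => P z) ?_ ?_ ?_ ?_ hz
  · rintro _ ⟨⟨i, b⟩, rfl⟩
    exact hX i b
  · have h := hC 0
    rwa [MvPolynomial.C_0] at h
  · intro x y _ _ hx hy
    exact hadd x y hx hy
  · intro c x _ hx
    exact hsmul c x hx

lemma C_mem_AF {p : ℕ} (c : R) : (MvPolynomial.C c : MvPolynomial σ R) ∈ AF σ R p :=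
  Submodule.mem_sup_left (Submodule.mem_one.2 ⟨c, rfl⟩)

lemma X_mem_AF {p : ℕ} (i : σ) (b : ℕ) :
    (MvPolynomial.X i ^ p ^ b : MvPolynomial σ R) ∈ AF σ R p :=
  Submodule.mem_sup_right (Submodule.subset_span ⟨(i, b), rfl⟩)

open Classical in
/-- the substitution `w` -/
noncomputable def Wp (p : ℕ) (a : σ) (B : ℕ) : σ → MvPolynomial {j : σ // j ≠ a} R :=
  fun j => if h : j = a then 0 else MvPolynomial.X ⟨j, h⟩ ^ p ^ B

lemma Wp_mem {p : ℕ} (hp : 0 < p) (a : σ) (B : ℕ) {f : MvPolynomial σ R} (hf : f ∈ AF σ R p) :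
    MvPolynomial.aeval (Wp p a B : σ → MvPolynomial {j : σ // j ≠ a} R) f ∈
      AF {j : σ // j ≠ a} R p := by
  refine AF_induction (P := fun f => MvPolynomial.aeval
    (Wp p a B : σ → MvPolynomial {j : σ // j ≠ a} R) f ∈ AF {j : σ // j ≠ a} R p)
    ?_ ?_ ?_ ?_ hf
  · intro c
    rw [MvPolynomial.aeval_C]
    exact C_mem_AF c
  · intro f g hf hg
    rw [map_add]
    exact Submodule.add_mem _ hf hg
  · intro c f hf
    rw [map_smul]
    exact Submodule.smul_mem _ c hf
  · intro i b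
    rw [map_pow, MvPolynomial.aeval_X]
    unfold Wp
    split_ifs with h
    · rw [zero_pow (Nat.pos_iff_ne_zero.1 (pow_pos hp b))]
      exact Submodule.zero_mem _
    · rw [← pow_mul, ← pow_add]
      exact X_mem_AF _ _

lemma Phi_eq (p : ℕ) (a : σ) (v : σ → R[X]) (B : ℕ) (j : σ) :
    Phi p a v B j = MvPolynomial.rename Subtype.val (Wp p a B j : MvPolynomial {j : σ // j ≠ a} R) +
      Polynomial.aeval (MvPolynomial.X a : MvPolynomial σ R) (v j) := by
  unfold Phi Wp
  by_cases h : j = a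
  · rw [if_pos h, dif_pos h, map_zero]
  · rw [if_neg h, dif_neg h, map_pow, MvPolynomial.rename_X]

lemma Phi_add {p : ℕ} [Fact p.Prime] [CharP R p] (a : σ) (v : σ → R[X]) (B : ℕ)
    {f : MvPolynomial σ R} (hf : f ∈ AF σ R p) :
    MvPolynomial.aeval (Phi p a v B) f =
      MvPolynomial.rename Subtype.val
        (MvPolynomial.aeval (Wp p a B : σ → MvPolynomial {j : σ // j ≠ a} R) f) +
      Polynomial.aeval (MvPolynomial.X a : MvPolynomial σ R) (MvPolynomial.aeval v f) -
      MvPolynomial.C (MvPolynomial.constantCoeff f) := by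
  have hp : 0 < p := (Fact.out : p.Prime).pos
  refine AF_induction (P := fun f => MvPolynomial.aeval (Phi p a v B) f =
      MvPolynomial.rename Subtype.val
        (MvPolynomial.aeval (Wp p a B : σ → MvPolynomial {j : σ // j ≠ a} R) f) +
      Polynomial.aeval (MvPolynomial.X a : MvPolynomial σ R) (MvPolynomial.aeval v f) -
      MvPolynomial.C (MvPolynomial.constantCoeff f)) ?_ ?_ ?_ ?_ hf
  · intro c
    simp only [MvPolynomial.aeval_C, MvPolynomial.constantCoeff_C]
    rw [← MvPolynomial.algebraMap_eq, AlgHom.commutes, AlgHom.commutes]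
    ring
  · intro f g hf hg
    simp only [map_add, hf, hg]
    ring
  · intro c f hf
    rw [map_smul, map_smul, map_smul, map_smul, map_smul, hf]
    rw [show MvPolynomial.constantCoeff (c • f) = c * MvPolynomial.constantCoeff f by
      rw [MvPolynomial.smul_eq_C_mul, map_mul, MvPolynomial.constantCoeff_C]]
    rw [map_mul]
    simp only [MvPolynomial.smul_eq_C_mul]
    ring
  · intro i b
    have h0 : p ^ b ≠ 0 := Nat.pos_iff_ne_zero.1 (pow_pos hp b)
    simp only [map_pow, MvPolynomial.aeval_X, MvPolynomial.constantCoeff_X, zero_pow h0, map_zero,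
      sub_zero]
    rw [Phi_eq, add_pow_char_pow]

end Gen

end NFL

open NFL in
theorem t_NFL : M_NFL := by
  intro hS K σ _ p _ _ a v B L hL hv
  have hp : 0 < p := (Fact.out : p.Prime).pos
  have hA : L ∈ AF σ K p := (hS σ K p L).2.1.1 hL
  refine ⟨MvPolynomial.aeval (Wp p a B) L, ?_, ?_, ?_⟩
  · exact (hS _ K p _).2.1.2 (Wp_mem hp a B hA)
  · intro c hc
    rw [hc, MvPolynomial.aeval_C]
    rfl
  · rw [Phi_add a v B hA, hv, ← MvPolynomial.algebraMap_eq, ← Polynomial.algebraMap_eq,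
      AlgHom.commutes]
    ring

end PQW
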