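import Pool.Agent.PQW.EqP

/-!
# PQW: the module NFQ
-/

set_option autoImplicit false

open Polynomial

namespace PQW

open CUB LOWD

namespace NFQ

open EqP

variable {K σ : Type} [Field K] {p : ℕ}

/-- The additive curve in the direction `a`. -/
noncomputable def VV (a : σ) (v : σ → K[X]) (j : σ) : MvPolynomial σ K :=
  Polynomial.aeval (MvPolynomial.X a : MvPolynomial σ K) (v j)

open Classical in
/-- The powers of the remaining variables. -/
noncomputable def WW (p : ℕ) (a : σ) (B : ℕ) (j : σ) : MvPolynomial σ K :=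
  if j = a then 0 else MvPolynomial.X j ^ p ^ B

open Classical in
/-- The same in the remaining variables. -/
noncomputable def w0 (p : ℕ) (a : σ) (B : ℕ) (j : σ) : MvPolynomial {j : σ // j ≠ a} K :=
  if h : j = a then 0 else MvPolynomial.X ⟨j, h⟩ ^ p ^ B

lemma Phi_eq (a : σ) (v : σ → K[X]) (B : ℕ) (j : σ) :
    Phi p a v B j = WW p a B j + VV a v j := rfl

lemma rename_w0 (a : σ) (B : ℕ) (j : σ) :
    MvPolynomial.rename Subtype.val (w0 (K := K) p a B j) = WW p a B j := by
  unfold w0 WW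
  split_ifs with h
  · exact map_zero _
  · rw [map_pow, MvPolynomial.rename_X]

lemma w0_mem [Fact p.Prime] (a : σ) (B : ℕ) (j : σ) (m : ℕ) :
    w0 (K := K) p a B j ^ p ^ m ∈ AF {j : σ // j ≠ a} K p := by
  unfold w0
  split_ifs with h
  · rw [zero_pow (pow_ne_zero m (Fact.out : p.Prime).ne_zero)]
    exact Submodule.zero_mem _
  · rw [← pow_mul, ← pow_add]
    exact X_mem_AF p _ _

lemma C_mul_mem {τ : Type} {M : Submodule K (MvPolynomial τ K)} (c : K) {x : MvPolynomial τ K}
    (hx : x ∈ M) : MvPolynomial.C c * x ∈ M := by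
  rw [← MvPolynomial.smul_eq_C_mul]
  exact M.smul_mem c hx

/-- The polynomials of the form `X a * La`, modulo `g ^ p - g`. -/
def Lin (p : ℕ) (a : σ) (D : MvPolynomial σ K) : Prop :=
  ∃ La ∈ AF {j : σ // j ≠ a} K p, Eqp p D (MvPolynomial.X a * MvPolynomial.rename Subtype.val La)

section

variable [Fact p.Prime] [CharP K p]

lemma Lin.zero (a : σ) : Lin (K := K) p a 0 :=
  ⟨0, Submodule.zero_mem _, Eqp.of_eq (by simp)⟩

lemma Lin.add {a : σ} {D D' : MvPolynomial σ K} (h : Lin p a D) (h' : Lin p a D') :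
    Lin p a (D + D') := by
  obtain ⟨L, h1, h2⟩ := h
  obtain ⟨L', h1', h2'⟩ := h'
  refine ⟨L + L', Submodule.add_mem _ h1 h1', (h2.add h2').trans (Eqp.of_eq ?_)⟩
  rw [map_add]
  ring

lemma Lin.sum {ι : Type} (s : Finset ι) {a : σ} {D : ι → MvPolynomial σ K}
    (h : ∀ i ∈ s, Lin p a (D i)) : Lin p a (∑ i ∈ s, D i) := by
  classical
  induction s using Finset.induction_on with
  | empty => simpa using Lin.zero (K := K) (p := p) a
  | insert x s hx ih =>
    rw [Finset.sum_insert hx]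
    exact (h x (Finset.mem_insert_self x s)).add
      (ih fun i hi => h i (Finset.mem_insert_of_mem hi))

variable [IsAlgClosed K]

lemma exists_root (c : K) (m : ℕ) : ∃ γ : K, γ ^ p ^ m = c :=
  IsAlgClosed.exists_pow_nat_eq c (pow_pos (Fact.out : p.Prime).pos m)

/-- One mixed term. -/
lemma Lin.term (a : σ) (c : K) (q B n : ℕ) (hq : q ≤ B) (j : σ) :
    Lin p a (MvPolynomial.C c * (MvPolynomial.X a ^ p ^ q * WW p a B j ^ p ^ n)) := by
  by_cases hj : j = a
  · have h : WW (K := K) p a B j = 0 := by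
      unfold WW
      rw [if_pos hj]
    rw [h, zero_pow (pow_ne_zero n (Fact.out : p.Prime).ne_zero), mul_zero, mul_zero]
    exact Lin.zero a
  · obtain ⟨γ, hγ⟩ := exists_root (p := p) c q
    refine ⟨MvPolynomial.C γ * MvPolynomial.X ⟨j, hj⟩ ^ p ^ (B + n - q),
      C_mul_mem γ (X_mem_AF p _ _), ?_⟩
    have h : WW (K := K) p a B j = MvPolynomial.X j ^ p ^ B := by
      unfold WW
      rw [if_neg hj]
    have h2 : MvPolynomial.C c * (MvPolynomial.X a ^ p ^ q * WW p a B j ^ p ^ n) =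
        (MvPolynomial.X a * (MvPolynomial.C γ * MvPolynomial.X j ^ p ^ (B + n - q)) :
          MvPolynomial σ K) ^ p ^ q := by
      rw [h, mul_pow, mul_pow, ← map_pow, hγ, ← pow_mul, ← pow_add, ← pow_mul, ← pow_add,
        Nat.sub_add_cancel (by omega)]
      ring
    rw [h2]
    refine (Eqp.pow _ q).trans (Eqp.of_eq ?_)
    rw [map_mul, map_pow, MvPolynomial.rename_C, MvPolynomial.rename_X]

/-- The mixed terms. -/
lemma Lin.cross (a : σ) (v : σ → K[X]) (hv : ∀ j, Ad p (v j)) (c : K) (i j : σ) (m n B : ℕ)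
    (hB : (v i).natDegree + m ≤ B) :
    Lin p a (MvPolynomial.C c * (VV a v i ^ p ^ m * WW p a B j ^ p ^ n)) := by
  have hp : p.Prime := Fact.out
  have h1 : VV a v i ^ p ^ m = ∑ s ∈ (v i).support,
      MvPolynomial.C ((v i).coeff s ^ p ^ m) * (MvPolynomial.X a ^ s) ^ p ^ m := by
    rw [VV, Polynomial.aeval_eq_sum_range, sum_pow_char_pow]
    symm
    refine Finset.sum_subset_zero_on_sdiff ?_ ?_ ?_
    · intro s hs
      rw [Finset.mem_range, Nat.lt_succ_iff]
      exact Polynomial.le_natDegree_of_mem_supp s hs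
    · intro s hs
      rw [Finset.mem_sdiff, Polynomial.mem_support_iff, not_not] at hs
      rw [hs.2, zero_smul, zero_pow (pow_ne_zero m hp.ne_zero)]
    · intro s _
      rw [MvPolynomial.smul_eq_C_mul, mul_pow, map_pow]
  rw [h1, Finset.sum_mul, Finset.mul_sum]
  refine Lin.sum _ fun s hs => ?_
  obtain ⟨t, rfl⟩ := hv i s hs
  have ht : t + m ≤ B := by
    have h2 := Polynomial.le_natDegree_of_mem_supp _ hs
    have h3 : t < p ^ t := Nat.lt_pow_self hp.one_lt
    omega
  have h4 := Lin.term (p := p) a (c * (v i).coeff (p ^ t) ^ p ^ m) (t + m) B n ht j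
  convert h4 using 1
  rw [map_mul, ← pow_mul, ← pow_add]
  ring

end

end NFQ

open NFQ EqP in
theorem t_NFQ : M_NFQ := by
  intro hP K σ _ _ _ p _ _ a v f hv hf hg
  have hp : p.Prime := Fact.out
  have hf' := (hP σ K p f).2.2.mp hf
  have h0 : ∀ m : ℕ, p ^ m ≠ 0 := fun m => pow_ne_zero m hp.ne_zero
  have key : ∃ B₀ : ℕ, ∀ B, B₀ ≤ B → ∃ f0 ∈ AF {j : σ // j ≠ a} K p * AF {j : σ // j ≠ a} K p,
      ∃ La ∈ AF {j : σ // j ≠ a} K p, Eqp p (MvPolynomial.aeval (Phi p a v B) f)
        (MvPolynomial.aeval (VV a v) f - MvPolynomial.C (MvPolynomial.constantCoeff f) +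
          nf a f0 La) := by
    refine AFF_induction p (P := fun f => ∃ B₀ : ℕ, ∀ B, B₀ ≤ B →
      ∃ f0 ∈ AF {j : σ // j ≠ a} K p * AF {j : σ // j ≠ a} K p,
      ∃ La ∈ AF {j : σ // j ≠ a} K p, Eqp p (MvPolynomial.aeval (Phi p a v B) f)
        (MvPolynomial.aeval (VV a v) f - MvPolynomial.C (MvPolynomial.constantCoeff f) +
          nf a f0 La)) ?_ ?_ ?_ ?_ hf'
    · intro c
      refine ⟨0, fun B _ => ⟨MvPolynomial.C c, AF_le p (C_mem_AF p c), 0, Submodule.zero_mem _,
        Eqp.of_eq ?_⟩⟩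
      simp [nf, MvPolynomial.algebraMap_eq]
    · intro c i m
      refine ⟨0, fun B _ => ⟨MvPolynomial.C c * w0 p a B i ^ p ^ m,
        AF_le p (C_mul_mem c (w0_mem a B i m)), 0, Submodule.zero_mem _, Eqp.of_eq ?_⟩⟩
      rw [nf, map_mul, map_pow, map_mul, map_pow, MvPolynomial.aeval_X, MvPolynomial.aeval_C,
        MvPolynomial.aeval_X, Phi_eq, add_pow_char_pow, map_mul, map_pow,
        MvPolynomial.constantCoeff_X, zero_pow (h0 m), mul_zero, map_zero, map_zero, mul_zero,
        map_mul, map_pow, rename_w0, MvPolynomial.rename_C, MvPolynomial.aeval_C,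
        MvPolynomial.algebraMap_eq]
      ring
    · intro c i j m n
      refine ⟨(v i).natDegree + m + ((v j).natDegree + n), fun B hB => ?_⟩
      obtain ⟨L1, h1, h1'⟩ := Lin.cross a v hv c i j m n B (by omega)
      obtain ⟨L2, h2, h2'⟩ := Lin.cross a v hv c j i n m B (by omega)
      refine ⟨MvPolynomial.C c * (w0 p a B i ^ p ^ m * w0 p a B j ^ p ^ n),
        C_mul_mem c (Submodule.mul_mem_mul (w0_mem a B i m) (w0_mem a B j n)), L1 + L2,
        Submodule.add_mem _ h1 h2, ?_⟩
      have h3 : MvPolynomial.aeval (Phi p a v B) (MvPolynomial.C c * (MvPolynomial.X i ^ p ^ m *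
          MvPolynomial.X j ^ p ^ n)) =
          (MvPolynomial.C c * (VV a v i ^ p ^ m * VV a v j ^ p ^ n) +
          MvPolynomial.C c * (WW p a B i ^ p ^ m * WW p a B j ^ p ^ n)) +
          (MvPolynomial.C c * (VV a v i ^ p ^ m * WW p a B j ^ p ^ n) +
            MvPolynomial.C c * (VV a v j ^ p ^ n * WW p a B i ^ p ^ m)) := by
        rw [map_mul, map_mul, map_pow, map_pow, MvPolynomial.aeval_X, MvPolynomial.aeval_X,
          MvPolynomial.aeval_C, Phi_eq, Phi_eq, add_pow_char_pow, add_pow_char_pow,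
          MvPolynomial.algebraMap_eq]
        ring
      rw [h3]
      refine ((Eqp.refl _).add (h1'.add h2')).trans (Eqp.of_eq ?_)
      rw [nf, map_mul (MvPolynomial.aeval (VV a v)), map_mul (MvPolynomial.aeval (VV a v)),
        map_pow (MvPolynomial.aeval (VV a v)), map_pow (MvPolynomial.aeval (VV a v)),
        MvPolynomial.aeval_X, MvPolynomial.aeval_X, MvPolynomial.aeval_C,
        map_mul MvPolynomial.constantCoeff, map_mul MvPolynomial.constantCoeff,
        map_pow MvPolynomial.constantCoeff, MvPolynomial.constantCoeff_X, zero_pow (h0 m),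
        zero_mul, mul_zero, map_zero, map_mul (MvPolynomial.rename _),
        map_mul (MvPolynomial.rename _), map_pow (MvPolynomial.rename _),
        map_pow (MvPolynomial.rename _), rename_w0, rename_w0, MvPolynomial.rename_C, map_add,
        MvPolynomial.algebraMap_eq]
      ring
    · rintro f g ⟨B1, hB1⟩ ⟨B2, hB2⟩
      refine ⟨B1 + B2, fun B hB => ?_⟩
      obtain ⟨f1, h1, L1, h2, h3⟩ := hB1 B (by omega)
      obtain ⟨f2, h1', L2, h2', h3'⟩ := hB2 B (by omega)
      refine ⟨f1 + f2, Submodule.add_mem _ h1 h1', L1 + L2, Submodule.add_mem _ h2 h2', ?_⟩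
      rw [map_add]
      refine (h3.add h3').trans (Eqp.of_eq ?_)
      simp only [nf, map_add]
      ring
  obtain ⟨B, hB⟩ := key
  obtain ⟨f0, h1, La, h2, g1, h3⟩ := hB B le_rfl
  obtain ⟨g, hg⟩ := hg
  have h4 : MvPolynomial.aeval (VV a v) f = MvPolynomial.C (MvPolynomial.constantCoeff f) +
      (Polynomial.aeval (MvPolynomial.X a : MvPolynomial σ K) g ^ p -
        Polynomial.aeval (MvPolynomial.X a : MvPolynomial σ K) g) := by
    have h5 := congrArg (Polynomial.aeval (MvPolynomial.X a : MvPolynomial σ K)) hg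
    rw [map_add, map_sub, map_pow, Polynomial.aeval_C, MvPolynomial.algebraMap_eq] at h5
    rw [← h5]
    exact (MvPolynomial.comp_aeval_apply v
      (Polynomial.aeval (MvPolynomial.X a : MvPolynomial σ K)) f).symm
  refine ⟨B, Polynomial.aeval (MvPolynomial.X a : MvPolynomial σ K) g + g1, f0, La,
    (hP _ K p f0).2.2.mpr h1, (hP _ K p La).2.1.mpr h2, ?_⟩
  rw [h3, h4, add_pow_char]
  ring

end PQW
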