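import Pool.Agent.PQW.Stmts

/-!
# PQW: the module OPN
-/

set_option autoImplicit false

open Polynomial

namespace PQW

open CUB LOWD

namespace OPN

/-- Recognising a localisation. -/
lemma loc (A C1 B : Type) [CommRing A] [CommRing C1] [CommRing B] [Algebra C1 B] (jj : C1 →+* A)
    (psi : A →+* B) (l : C1) [IsLocalization.Away l B]
    (h1 : ∀ c, psi (jj c) = algebraMap C1 B c)
    (h2 : ∀ x : A, ∃ (N : ℕ) (c : C1), jj l ^ N * x = jj c) :
    @IsLocalization.Away A _ (jj l) B _ psi.toAlgebra := by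
  let _ : Algebra A B := psi.toAlgebra
  have hal : ∀ x, algebraMap A B x = psi x := fun x => rfl
  refine IsLocalization.Away.mk _ ?_ ?_ ?_
  · rw [hal, h1]
    exact IsLocalization.Away.algebraMap_isUnit _
  · intro b
    obtain ⟨n, c, hc⟩ := IsLocalization.Away.surj l b
    refine ⟨n, jj c, ?_⟩
    rw [hal, hal, h1, h1, hc]
  · intro x y hxy
    rw [hal, hal] at hxy
    obtain ⟨N, c, hc⟩ := h2 (x - y)
    have h3 : algebraMap C1 B c = algebraMap C1 B 0 := by
      rw [← h1 c, ← hc, map_mul, map_sub, hxy, sub_self, mul_zero, map_zero]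
    obtain ⟨M, hM⟩ := IsLocalization.Away.exists_of_eq l h3
    refine ⟨M + N, ?_⟩
    have h4 := congrArg jj hM
    rw [mul_zero, map_zero, map_mul, map_pow, ← hc] at h4
    rw [pow_add]
    linear_combination h4

variable {R σ ι : Type} [CommRing R] (p : ℕ) (a : σ) (f0 La : MvPolynomial {j : σ // j ≠ a} R)
  (L0 : ι → MvPolynomial {j : σ // j ≠ a} R) {Q : Type} [CommRing Q] [Algebra R Q]
  (q : MvPolynomial {j : σ // j ≠ a} R →ₐ[R] Q)

/-- the ring of the open piece -/
abbrev B1 : Type := Localization.Away (C (q La) : Q[X])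

/-- the localisation map -/
noncomputable abbrev io := algebraMap Q[X] (B1 a La q)

/-- the inverse of the class of `La` -/
noncomputable abbrev iv : B1 a La q := IsLocalization.Away.invSelf (C (q La) : Q[X])

open Classical in
/-- the images of the variables -/
noncomputable def gg : Option σ → B1 a La q
  | none => io a La q X
  | some s => if h : s ≠ a then
      io a La q (C (q (MvPolynomial.X (⟨s, h⟩ : {j : σ // j ≠ a})))) else
      io a La q (X ^ p - X - C (q f0)) * iv a La q

lemma aeval_gg (z : MvPolynomial {j : σ // j ≠ a} R) :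
    MvPolynomial.aeval (gg p a f0 La q) (MvPolynomial.rename some
      (MvPolynomial.rename Subtype.val z)) = io a La q (C (q z)) := by
  rw [MvPolynomial.rename_rename, MvPolynomial.aeval_rename]
  have h : (MvPolynomial.aeval (gg p a f0 La q ∘ (some ∘ Subtype.val)) :
      MvPolynomial {j : σ // j ≠ a} R →ₐ[R] B1 a La q) =
      ((IsScalarTower.toAlgHom R Q[X] (B1 a La q)).comp (Polynomial.CAlgHom)).comp q := by
    apply MvPolynomial.algHom_ext
    intro j
    rw [MvPolynomial.aeval_X]
    change gg p a f0 La q (some j.1) = _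
    rw [gg, dif_pos j.2]
    rfl
  exact DFunLike.congr_fun h z

/-- the ideal of the system -/
noncomputable abbrev II : Ideal (MvPolynomial (Option σ) R) :=
  Ideal.span (Set.range (vF p (nf a f0 La) (FR Subtype.val L0)))

lemma gg_zero (hq : ∀ i, q (L0 i) = 0) (x : MvPolynomial (Option σ) R)
    (hx : x ∈ II p a f0 La L0) : MvPolynomial.aeval (gg p a f0 La q) x = 0 := by
  have h : II p a f0 La L0 ≤ RingHom.ker (MvPolynomial.aeval (gg p a f0 La q) :
      MvPolynomial (Option σ) R →ₐ[R] B1 a La q).toRingHom := by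
    rw [Ideal.span_le]
    rintro _ ⟨i, rfl⟩
    rw [SetLike.mem_coe, RingHom.mem_ker]
    change MvPolynomial.aeval (gg p a f0 La q) _ = 0
    cases i with
    | none =>
      have h1 : gg p a f0 La q none = io a La q X := rfl
      have h2 : gg p a f0 La q (some a) = io a La q (X ^ p - X - C (q f0)) * iv a La q := by
        rw [gg, dif_neg (by simp)]
      have h3 : io a La q (C (q La)) * iv a La q = 1 :=
        IsLocalization.Away.mul_invSelf _
      simp only [vF, nf, map_sub, map_pow, map_add, map_mul, MvPolynomial.aeval_X,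
        MvPolynomial.rename_X, aeval_gg, h1, h2]
      linear_combination (-(io a La q X ^ p - io a La q X - io a La q (C (q f0)))) * h3
    | some i =>
      have h4 : vF p (nf a f0 La) (FR Subtype.val L0) (some i) =
          MvPolynomial.rename some (MvPolynomial.rename Subtype.val (L0 i)) := rfl
      rw [h4, aeval_gg, hq, map_zero, map_zero]
  exact h hx

/-- the homomorphism to the open piece -/
noncomputable def psi (hq : ∀ i, q (L0 i) = 0) :
    AR (vF p (nf a f0 La) (FR Subtype.val L0)) →ₐ[R] B1 a La q :=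
  Ideal.Quotient.liftₐ (II p a f0 La L0) (MvPolynomial.aeval (gg p a f0 La q))
    (gg_zero p a f0 La L0 q hq)

lemma psi_mk (hq : ∀ i, q (L0 i) = 0) (z : MvPolynomial (Option σ) R) :
    psi p a f0 La L0 q hq (Ideal.Quotient.mk (II p a f0 La L0) z) =
      MvPolynomial.aeval (gg p a f0 La q) z := rfl

/-- the homomorphism from `Q[X]` -/
noncomputable def jj (j0 : Q →+* AR (vF p (nf a f0 La) (FR Subtype.val L0))) :
    Q[X] →+* AR (vF p (nf a f0 La) (FR Subtype.val L0)) :=
  Polynomial.eval₂RingHom j0 (Ideal.Quotient.mk (II p a f0 La L0) (MvPolynomial.X none))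

omit [Algebra R Q] in
lemma jj_C (j0 : Q →+* AR (vF p (nf a f0 La) (FR Subtype.val L0))) (b : Q) :
    jj p a f0 La L0 j0 (C b) = j0 b := by
  simp [jj]

omit [Algebra R Q] in
lemma jj_X (j0 : Q →+* AR (vF p (nf a f0 La) (FR Subtype.val L0))) :
    jj p a f0 La L0 j0 X = Ideal.Quotient.mk (II p a f0 La L0) (MvPolynomial.X none) := by
  simp [jj]

lemma psi_jj (hq : ∀ i, q (L0 i) = 0) (hs : Function.Surjective q)
    (j0 : Q →+* AR (vF p (nf a f0 La) (FR Subtype.val L0)))
    (hj : ∀ z, j0 (q z) = Ideal.Quotient.mk (II p a f0 La L0)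
      (MvPolynomial.rename (fun j : {j : σ // j ≠ a} => some j.1) z)) (c : Q[X]) :
    psi p a f0 La L0 q hq (jj p a f0 La L0 j0 c) = io a La q c := by
  have h : (psi p a f0 La L0 q hq).toRingHom.comp (jj p a f0 La L0 j0) = io a La q := by
    apply Polynomial.ringHom_ext
    · intro b
      obtain ⟨z, rfl⟩ := hs b
      change psi p a f0 La L0 q hq (jj p a f0 La L0 j0 (C _)) = _
      rw [jj_C, hj, psi_mk, ← aeval_gg p a f0 La q z, MvPolynomial.rename_rename]
      rfl
    · change psi p a f0 La L0 q hq (jj p a f0 La L0 j0 X) = _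
      rw [jj_X, psi_mk, MvPolynomial.aeval_X]
      rfl
  exact DFunLike.congr_fun h c

lemma rel (j0 : Q →+* AR (vF p (nf a f0 La) (FR Subtype.val L0)))
    (hj : ∀ z, j0 (q z) = Ideal.Quotient.mk (II p a f0 La L0)
      (MvPolynomial.rename (fun j : {j : σ // j ≠ a} => some j.1) z)) :
    jj p a f0 La L0 j0 (C (q La)) *
      Ideal.Quotient.mk (II p a f0 La L0) (MvPolynomial.X (some a)) =
    jj p a f0 La L0 j0 (X ^ p - X - C (q f0)) := by
  have h1 : Ideal.Quotient.mk (II p a f0 La L0)
      (vF p (nf a f0 La) (FR Subtype.val L0) none) = 0 :=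
    Ideal.Quotient.eq_zero_iff_mem.2 (Ideal.subset_span ⟨none, rfl⟩)
  have h2 : vF p (nf a f0 La) (FR Subtype.val L0) none = MvPolynomial.X none ^ p -
      MvPolynomial.X none - (MvPolynomial.rename (fun j : {j : σ // j ≠ a} => some j.1) f0 +
        MvPolynomial.X (some a) *
          MvPolynomial.rename (fun j : {j : σ // j ≠ a} => some j.1) La) := by
    simp only [vF, nf, map_add, map_mul, MvPolynomial.rename_X, MvPolynomial.rename_rename]
    rfl
  rw [h2] at h1
  simp only [map_sub, map_pow, map_add, map_mul] at h1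
  simp only [map_sub, map_pow, jj_X, jj_C, hj]
  linear_combination -h1

lemma num (j0 : Q →+* AR (vF p (nf a f0 La) (FR Subtype.val L0)))
    (hj : ∀ z, j0 (q z) = Ideal.Quotient.mk (II p a f0 La L0)
      (MvPolynomial.rename (fun j : {j : σ // j ≠ a} => some j.1) z))
    (x : AR (vF p (nf a f0 La) (FR Subtype.val L0))) :
    ∃ (N : ℕ) (c : Q[X]), jj p a f0 La L0 j0 (C (q La)) ^ N * x = jj p a f0 La L0 j0 c := by
  obtain ⟨z, rfl⟩ := Ideal.Quotient.mk_surjective x
  induction z using MvPolynomial.induction_on with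
  | C r =>
    refine ⟨0, C (q (MvPolynomial.C r)), ?_⟩
    rw [pow_zero, one_mul, jj_C, hj, MvPolynomial.rename_C]
  | add q1 q2 h1 h2 =>
    obtain ⟨N1, c1, e1⟩ := h1
    obtain ⟨N2, c2, e2⟩ := h2
    refine ⟨N1 + N2, C (q La) ^ N2 * c1 + C (q La) ^ N1 * c2, ?_⟩
    simp only [map_add, map_mul (jj p a f0 La L0 j0), map_pow (jj p a f0 La L0 j0), ← e1, ← e2]
    ring
  | mul_X z s h =>
    obtain ⟨N1, c1, e1⟩ := h
    have h2 : ∃ (N : ℕ) (c : Q[X]), jj p a f0 La L0 j0 (C (q La)) ^ N *
        Ideal.Quotient.mk (II p a f0 La L0) (MvPolynomial.X s) = jj p a f0 La L0 j0 c := by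
      cases s with
      | none => exact ⟨0, X, by rw [jj_X, pow_zero, one_mul]⟩
      | some t =>
        by_cases ht : t = a
        · subst ht
          exact ⟨1, X ^ p - X - C (q f0), by rw [pow_one, rel _ _ _ _ _ q j0 hj]⟩
        · refine ⟨0, C (q (MvPolynomial.X ⟨t, ht⟩)), ?_⟩
          rw [pow_zero, one_mul, jj_C, hj, MvPolynomial.rename_X]
    obtain ⟨N2, c2, e2⟩ := h2
    refine ⟨N1 + N2, c1 * c2, ?_⟩
    rw [map_mul, map_mul, ← e1, ← e2]
    ring

lemma main (k : Type) [Field k] [Algebra k R] [Algebra k Q] [IsScalarTower k R Q]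
    (hq : ∀ i, q (L0 i) = 0) (hs : Function.Surjective q)
    (j0 : Q →+* AR (vF p (nf a f0 La) (FR Subtype.val L0)))
    (hj : ∀ z, j0 (q z) = Ideal.Quotient.mk (II p a f0 La L0)
      (MvPolynomial.rename (fun j : {j : σ // j ≠ a} => some j.1) z)) :
    ∃ ψ : AR (vF p (nf a f0 La) (FR Subtype.val L0)) →ₐ[k] Localization.Away (C (q La) : Q[X]),
    @IsLocalization.Away (AR (vF p (nf a f0 La) (FR Subtype.val L0))) _
      (Ideal.Quotient.mk _ (MvPolynomial.rename (fun j => some (Subtype.val j)) La))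
      (Localization.Away (C (q La) : Q[X])) _ ψ.toRingHom.toAlgebra := by
  refine ⟨(psi p a f0 La L0 q hq).restrictScalars k, ?_⟩
  have h := loc (AR (vF p (nf a f0 La) (FR Subtype.val L0))) Q[X] (B1 a La q)
    (jj p a f0 La L0 j0) (psi p a f0 La L0 q hq).toRingHom (C (q La))
    (fun c => psi_jj p a f0 La L0 q hq hs j0 hj c) (num p a f0 La L0 q j0 hj)
  have e : jj p a f0 La L0 j0 (C (q La)) = Ideal.Quotient.mk (II p a f0 La L0)
      (MvPolynomial.rename (fun j : {j : σ // j ≠ a} => some j.1) La) := by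
    rw [jj_C, hj]
  rw [e] at h
  exact h

/-- the homomorphism from `AR L0` -/
noncomputable def j0 : AR L0 →+* AR (vF p (nf a f0 La) (FR Subtype.val L0)) :=
  Ideal.Quotient.lift (Ideal.span (Set.range L0)) ((Ideal.Quotient.mk (II p a f0 La L0)).comp
    (MvPolynomial.rename (R := R) (fun j : {j : σ // j ≠ a} => some j.1)).toRingHom) (by
    intro x hx
    have h : Ideal.span (Set.range L0) ≤ RingHom.ker ((Ideal.Quotient.mk (II p a f0 La L0)).comp
        (MvPolynomial.rename (R := R) (fun j : {j : σ // j ≠ a} => some j.1)).toRingHom) := by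
      rw [Ideal.span_le]
      rintro _ ⟨i, rfl⟩
      rw [SetLike.mem_coe, RingHom.mem_ker]
      change Ideal.Quotient.mk (II p a f0 La L0)
        (MvPolynomial.rename (fun j : {j : σ // j ≠ a} => some j.1) (L0 i)) = 0
      rw [Ideal.Quotient.eq_zero_iff_mem]
      apply Ideal.subset_span
      refine ⟨some i, ?_⟩
      change MvPolynomial.rename some (MvPolynomial.rename Subtype.val (L0 i)) = _
      rw [MvPolynomial.rename_rename]
      rfl
    exact h hx)

lemma j0_mk (z : MvPolynomial {j : σ // j ≠ a} R) :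
    j0 p a f0 La L0 (Ideal.Quotient.mk (Ideal.span (Set.range L0)) z) =
      Ideal.Quotient.mk (II p a f0 La L0)
        (MvPolynomial.rename (fun j : {j : σ // j ≠ a} => some j.1) z) := rfl

end OPN

open OPN in
theorem t_OPN : S_OPN := by
  intro k R σ ι _ _ _ _ p a f0 La L0
  exact main p a f0 La L0 (Q := AR L0) (Ideal.Quotient.mkₐ R (Ideal.span (Set.range L0))) k
    (fun i => Ideal.Quotient.eq_zero_iff_mem.2 (Ideal.subset_span ⟨i, rfl⟩))
    Ideal.Quotient.mk_surjective (j0 p a f0 La L0) (j0_mk p a f0 La L0)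

end PQW
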