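import Pool.Agent.PQW.Stmts2

set_option autoImplicit false

open Polynomial

namespace PQW

open CUB LOWD

lemma PW.add {σ R : Type} [CommRing R] {p w : ℕ} {f g : MvPolynomial σ R} (hf : PW p w f)
    (hg : PW p w g) : PW p w (f + g) := by
  classical
  intro m hm
  rcases Finset.mem_union.mp (MvPolynomial.support_add hm) with h | h
  · exact hf m h
  · exact hg m h

lemma PW.C_mul {σ R : Type} [CommRing R] {p w : ℕ} {f : MvPolynomial σ R} (hf : PW p w f)
    (c : R) : PW p w (MvPolynomial.C c * f) := by
  intro m hm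
  rw [MvPolynomial.C_mul'] at hm
  exact hf m (MvPolynomial.support_smul hm)

lemma PW.sum {σ R : Type} [CommRing R] {p w : ℕ} {κ : Type} (s : Finset κ)
    {f : κ → MvPolynomial σ R} (hf : ∀ i ∈ s, PW p w (f i)) : PW p w (∑ i ∈ s, f i) := by
  classical
  induction s using Finset.induction_on with
  | empty => simpa using PW.zero
  | insert a s ha ih =>
    rw [Finset.sum_insert ha]
    exact PW.add (hf a (Finset.mem_insert_self _ _))
      (ih fun i hi => hf i (Finset.mem_insert_of_mem hi))

lemma FF_PW {σ R : Type} [CommRing R] {p w r : ℕ} {g : Fin r → MvPolynomial σ R}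
    (hg : ∀ j, PW p w (g j)) : PW p w (FF g) :=
  PW.sum _ fun j _ => PW.C_mul ((hg j).map _) _

theorem t_PQ : M_PQ := by
  intro hBAS hAST hVST hASX hBRI hQUO hTIS
  have hT : ∀ l, TA l ∧ TV l := by
    intro l
    induction l with
    | zero => exact hBAS
    | succ l ih => exact ⟨hAST l ih.1, hVST l ih.1 ih.2⟩
  intro k R E σ ι _ _ _ _ _ _ _ _ _ p _ _ f w hw1 hw2 hf l hl
  classical
  let a : {i : ι // w i = 1} → ι := Subtype.val
  let r := Fintype.card {i : ι // w i = 2}
  let e : {i : ι // w i = 2} ≃ Fin r := Fintype.equivFin _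
  let b : Fin r → ι := fun j => (e.symm j).1
  have hb : ∀ j, w (b j) = 2 := fun j => (e.symm j).2
  have ha : ∀ i, w (a i) = 1 := fun i => i.2
  obtain ⟨ψ, hψ, hker⟩ := hQUO k R σ ι {i : ι // w i = 1} (Fin r) f a b (by
    intro i
    have h1 := hw1 i
    have h2 := hw2 i
    rcases (by omega : w i = 1 ∨ w i = 2) with h | h
    · exact Or.inl ⟨⟨i, h⟩, rfl⟩
    · exact Or.inr ⟨e ⟨i, h⟩, by simp [b]⟩)
  have hsum : ∑ i, w i = Fintype.card {i : ι // w i = 1} + 2 * r := by
    have h1 : ∀ i, w i = (if w i = 1 then 1 else 0) + 2 * (if w i = 2 then 1 else 0) := by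
      intro i
      have h1 := hw1 i
      have h2 := hw2 i
      rcases (by omega : w i = 1 ∨ w i = 2) with h | h <;> simp [h]
    calc ∑ i, w i = ∑ i, ((if w i = 1 then 1 else 0) + 2 * (if w i = 2 then 1 else 0)) :=
          Finset.sum_congr rfl fun i _ => h1 i
      _ = _ := by
          rw [Finset.sum_add_distrib, ← Finset.mul_sum]
          simp only [Finset.sum_boole, Nat.cast_id]
          rw [← Fintype.card_subtype, ← Fintype.card_subtype]
  have hft : Algebra.FiniteType k (MvPolynomial (Fin r) R) := finiteType_mvp k (Fin r) R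
  refine hASX k (AR fun i => f (a i)) (AR f) E p r _ ψ hψ hker l ?_
  obtain ⟨eq⟩ := hBRI k R σ {i : ι // w i = 1} p r (fun j => f (b j)) (fun i => f (a i))
  have hTV : Triv k (AR (vF p (FF fun j => f (b j)) (FM MvPolynomial.C fun i => f (a i)))) E
      (l + r) := by
    refine (hT (l + r)).2 k (MvPolynomial (Fin r) R) E σ {i : ι // w i = 1} p _ _ Finset.univ
      ?_ ?_ ?_ ?_
    · exact FF_PW fun j => by
        have := hf (b j)
        rwa [hb j] at this
    · intro i
      have := hf (a i)
      rw [ha i] at this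
      exact this.map _
    · intro i hi
      exact absurd (Finset.mem_univ i) hi
    · rw [Finset.card_univ]
      omega
  exact hTIS.1 k _ _ E eq.symm (l + r) hTV

end PQW
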