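import Pool.Agent.PQW.Stmts

/-!
# PWS: the polynomials of small `p`-weight
-/

set_option autoImplicit false

namespace PQW

namespace PWS

/-! ## Digit sums -/

/-- the digit sum -/
def ds (p e : ℕ) : ℕ := (Nat.digits p e).sum

lemma ds_zero (p : ℕ) : ds p 0 = 0 := by simp [ds]

lemma ds_rec {p : ℕ} (hp : 1 < p) (e : ℕ) : ds p e = e % p + ds p (e / p) := by
  rcases Nat.eq_zero_or_pos e with rfl | he
  · simp [ds]
  · unfold ds
    rw [Nat.digits_def' hp he, List.sum_cons]

lemma div_lt' {p e : ℕ} (hp : 1 < p) (he : e ≠ 0) : e / p < e :=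
  Nat.div_lt_self (Nat.pos_of_ne_zero he) hp

lemma ds_eq_zero {p : ℕ} (hp : 1 < p) (e : ℕ) : ds p e = 0 → e = 0 := by
  induction e using Nat.strong_induction_on with
  | _ e ih =>
    intro h
    by_contra he
    rw [ds_rec hp] at h
    have h1 : e % p = 0 := by omega
    have h2 : e / p = 0 := ih _ (div_lt' hp he) (by omega)
    have h3 := Nat.div_add_mod e p
    rw [h1, h2] at h3
    simp at h3
    exact he h3.symm

lemma ds_le_one {p : ℕ} (hp : 1 < p) (e : ℕ) : ds p e ≤ 1 → e = 0 ∨ ∃ a, e = p ^ a := by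
  induction e using Nat.strong_induction_on with
  | _ e ih =>
    intro h
    by_cases he : e = 0
    · exact Or.inl he
    right
    rw [ds_rec hp] at h
    have h3 := Nat.div_add_mod e p
    by_cases h1 : e % p = 0
    · rcases ih _ (div_lt' hp he) (by omega) with h2 | ⟨a, ha⟩
      · rw [h1, h2] at h3
        simp at h3
        exact absurd h3.symm he
      · refine ⟨a + 1, ?_⟩
        rw [h1, ha] at h3
        rw [← h3, pow_succ]
        ring
    · have h2 : e / p = 0 := ds_eq_zero hp _ (by omega)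
      refine ⟨0, ?_⟩
      rw [h2] at h3
      rw [pow_zero]
      omega

lemma ds_le_two {p : ℕ} (hp : 1 < p) (e : ℕ) :
    ds p e ≤ 2 → e = 0 ∨ (∃ a, e = p ^ a) ∨ ∃ a b, e = p ^ a + p ^ b := by
  induction e using Nat.strong_induction_on with
  | _ e ih =>
    intro h
    by_cases he : e = 0
    · exact Or.inl he
    right
    rw [ds_rec hp] at h
    have h3 := Nat.div_add_mod e p
    by_cases h1 : e % p = 0
    · rcases ih _ (div_lt' hp he) (by omega) with h2 | ⟨a, ha⟩ | ⟨a, b, hab⟩
      · rw [h1, h2] at h3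
        simp at h3
        exact absurd h3.symm he
      · refine Or.inl ⟨a + 1, ?_⟩
        rw [h1, ha] at h3
        rw [← h3, pow_succ]
        ring
      · refine Or.inr ⟨a + 1, b + 1, ?_⟩
        rw [h1, hab] at h3
        rw [← h3, pow_succ, pow_succ]
        ring
    · by_cases h4 : e % p = 1
      · rcases ds_le_one hp (e / p) (by omega) with h2 | ⟨a, ha⟩
        · refine Or.inl ⟨0, ?_⟩
          rw [h2] at h3
          rw [pow_zero]
          omega
        · refine Or.inr ⟨a + 1, 0, ?_⟩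
          rw [h4, ha] at h3
          rw [← h3, pow_succ, pow_zero]
          ring
      · have h2 : e / p = 0 := ds_eq_zero hp _ (by omega)
        refine Or.inr ⟨0, 0, ?_⟩
        rw [h2] at h3
        simp only [pow_zero]
        omega

lemma ds_mul {p : ℕ} (hp : 1 < p) (e : ℕ) : ds p (p * e) = ds p e := by
  rw [ds_rec hp, Nat.mul_mod_right, Nat.mul_div_cancel_left _ (by omega), zero_add]

lemma ds_pow_mul {p : ℕ} (hp : 1 < p) (a e : ℕ) : ds p (p ^ a * e) = ds p e := by
  induction a with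
  | zero => rw [pow_zero, one_mul]
  | succ a ih => rw [pow_succ', mul_assoc, ds_mul hp, ih]

lemma ds_one {p : ℕ} (hp : 1 < p) : ds p 1 = 1 := by
  rw [ds_rec hp, Nat.mod_eq_of_lt hp, Nat.div_eq_of_lt hp, ds_zero]

lemma ds_pow {p : ℕ} (hp : 1 < p) (a : ℕ) : ds p (p ^ a) = 1 := by
  have := ds_pow_mul hp a 1
  rw [mul_one] at this
  rw [this, ds_one hp]

lemma ds_one_add {p : ℕ} (hp : 1 < p) (c : ℕ) : ds p (1 + p ^ c) ≤ 2 := by
  cases c with
  | zero =>
    rw [pow_zero]
    rcases Nat.lt_or_ge 2 p with h | h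
    · rw [ds_rec hp, Nat.mod_eq_of_lt (by omega : 1 + 1 < p), Nat.div_eq_of_lt (by omega), ds_zero]
    · have h2 : p = 2 := by omega
      subst h2
      simp [ds]
  | succ c =>
    have e1 : (1 + p ^ (c + 1)) % p = 1 := by
      rw [pow_succ', Nat.add_mul_mod_self_left, Nat.mod_eq_of_lt hp]
    have e2 : (1 + p ^ (c + 1)) / p = p ^ c := by
      rw [pow_succ', Nat.add_mul_div_left _ _ (by omega), Nat.div_eq_of_lt hp, zero_add]
    rw [ds_rec hp, e1, e2, ds_pow hp]

lemma ds_add_pow {p : ℕ} (hp : 1 < p) (a b : ℕ) : ds p (p ^ a + p ^ b) ≤ 2 := by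
  wlog h : a ≤ b generalizing a b
  · rw [add_comm]
    exact this b a (by omega)
  obtain ⟨c, rfl⟩ := Nat.exists_eq_add_of_le h
  have : p ^ a + p ^ (a + c) = p ^ a * (1 + p ^ c) := by ring
  rw [this, ds_pow_mul hp]
  exact ds_one_add hp c

/-! ## Weights of monomials -/

variable {σ : Type}

lemma pw_zero (p : ℕ) : pw p (0 : σ →₀ ℕ) = 0 := by simp [pw]

lemma pw_single (p : ℕ) (i : σ) (e : ℕ) : pw p (Finsupp.single i e) = ds p e := by
  unfold pw ds
  rw [Finsupp.sum_single_index (by simp)]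

open Classical in
lemma pw_erase (p : ℕ) (m : σ →₀ ℕ) (i : σ) : pw p m = ds p (m i) + pw p (m.erase i) := by
  unfold pw ds
  exact (Finsupp.add_sum_erase' m i (fun _ e => (Nat.digits p e).sum) (by simp)).symm

lemma pw_eq_zero {p : ℕ} (hp : 1 < p) (m : σ →₀ ℕ) (h : pw p m = 0) : m = 0 := by
  ext i
  rw [pw_erase p m i] at h
  exact ds_eq_zero hp _ (by omega)

open Classical in
lemma eq_add_erase (m : σ →₀ ℕ) (i : σ) : m = Finsupp.single i (m i) + m.erase i :=
  (Finsupp.single_add_erase i m).symm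

lemma pw_le_one {p : ℕ} (hp : 1 < p) (m : σ →₀ ℕ) (h : pw p m ≤ 1) :
    m = 0 ∨ ∃ i a, m = Finsupp.single i (p ^ a) := by
  by_cases h0 : m = 0
  · exact Or.inl h0
  right
  obtain ⟨i, hi⟩ := Finsupp.ne_iff.1 h0
  rw [Finsupp.zero_apply] at hi
  have h1 : ds p (m i) ≠ 0 := fun h' => hi (ds_eq_zero hp _ h')
  rw [pw_erase p m i] at h
  have h2 : m.erase i = 0 := pw_eq_zero hp _ (by omega)
  rcases ds_le_one hp (m i) (by omega) with h3 | ⟨a, ha⟩
  · exact absurd h3 hi
  · refine ⟨i, a, ?_⟩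
    rw [← ha]
    conv_lhs => rw [eq_add_erase m i, h2, add_zero]

lemma pw_le_two {p : ℕ} (hp : 1 < p) (m : σ →₀ ℕ) (h : pw p m ≤ 2) :
    m = 0 ∨ (∃ i a, m = Finsupp.single i (p ^ a)) ∨
      ∃ i a j b, m = Finsupp.single i (p ^ a) + Finsupp.single j (p ^ b) := by
  by_cases h0 : m = 0
  · exact Or.inl h0
  right
  obtain ⟨i, hi⟩ := Finsupp.ne_iff.1 h0
  rw [Finsupp.zero_apply] at hi
  have h1 : ds p (m i) ≠ 0 := fun h' => hi (ds_eq_zero hp _ h')
  rw [pw_erase p m i] at h
  by_cases h4 : ds p (m i) ≤ 1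
  · rcases ds_le_one hp (m i) h4 with h3 | ⟨a, ha⟩
    · exact absurd h3 hi
    · rcases pw_le_one hp (m.erase i) (by omega) with h2 | ⟨j, b, h2⟩
      · left
        refine ⟨i, a, ?_⟩
        rw [← ha]
        conv_lhs => rw [eq_add_erase m i, h2, add_zero]
      · right
        refine ⟨i, a, j, b, ?_⟩
        rw [← ha, ← h2]
        exact eq_add_erase m i
  · have h2 : m.erase i = 0 := pw_eq_zero hp _ (by omega)
    rcases ds_le_two hp (m i) (by omega) with h3 | ⟨a, ha⟩ | ⟨a, b, hab⟩
    · exact absurd h3 hi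
    · left
      refine ⟨i, a, ?_⟩
      rw [← ha]
      conv_lhs => rw [eq_add_erase m i, h2, add_zero]
    · right
      refine ⟨i, a, i, b, ?_⟩
      rw [← Finsupp.single_add, ← hab]
      conv_lhs => rw [eq_add_erase m i, h2, add_zero]

open Classical in
lemma pw_two_le {p : ℕ} (hp : 1 < p) (i j : σ) (a b : ℕ) :
    pw p (Finsupp.single i (p ^ a) + Finsupp.single j (p ^ b)) ≤ 2 := by
  by_cases h : i = j
  · subst h
    rw [← Finsupp.single_add, pw_single]
    exact ds_add_pow hp a b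
  · rw [pw_erase p _ i]
    have e1 : (Finsupp.single i (p ^ a) + Finsupp.single j (p ^ b) : σ →₀ ℕ) i = p ^ a := by
      rw [Finsupp.add_apply, Finsupp.single_eq_same, Finsupp.single_apply, if_neg (Ne.symm h), add_zero]
    have e2 : (Finsupp.single i (p ^ a) + Finsupp.single j (p ^ b) : σ →₀ ℕ).erase i =
        Finsupp.single j (p ^ b) := by
      rw [Finsupp.erase_add, Finsupp.erase_single, zero_add, Finsupp.erase_single_ne h]
    rw [e1, e2, pw_single, ds_pow hp, ds_pow hp]

/-! ## The submodules -/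

variable {R : Type} [CommRing R]

variable (σ R) in
/-- the polynomials of weight at most `w` -/
def PWm (p w : ℕ) : Submodule R (MvPolynomial σ R) where
  carrier := {f | PW p w f}
  add_mem' := by
    classical
    intro f g hf hg m hm
    rcases Finset.mem_union.1 (MvPolynomial.support_add hm) with h | h
    · exact hf m h
    · exact hg m h
  zero_mem' := PW.zero
  smul_mem' := by
    intro c f hf m hm
    exact hf m (MvPolynomial.support_smul hm)

lemma mem_PWm {p w : ℕ} {f : MvPolynomial σ R} : f ∈ PWm σ R p w ↔ PW p w f := Iff.rfl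

lemma monomial_mem {p w : ℕ} {m : σ →₀ ℕ} (h : pw p m ≤ w) (c : R) :
    MvPolynomial.monomial m c ∈ PWm σ R p w := by
  classical
  intro m' hm'
  have := Finset.mem_singleton.1 (MvPolynomial.support_monomial_subset hm')
  rw [this]
  exact h

lemma le_of_monomial {p w : ℕ} (S : Submodule R (MvPolynomial σ R))
    (h : ∀ m : σ →₀ ℕ, pw p m ≤ w → MvPolynomial.monomial m (1 : R) ∈ S) {f : MvPolynomial σ R}
    (hf : PW p w f) : f ∈ S := by
  rw [MvPolynomial.as_sum f]
  refine Submodule.sum_mem _ fun m hm => ?_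
  have : MvPolynomial.monomial m (MvPolynomial.coeff m f) =
      MvPolynomial.coeff m f • MvPolynomial.monomial m (1 : R) := by
    rw [MvPolynomial.smul_monomial, smul_eq_mul, mul_one]
  rw [this]
  exact Submodule.smul_mem _ _ (h m (hf m hm))

lemma one_mem_AF (p : ℕ) : (1 : MvPolynomial σ R) ∈ AF σ R p :=
  Submodule.mem_sup_left (Submodule.one_le.1 le_rfl)

lemma X_mem_AF (p : ℕ) (i : σ) (a : ℕ) :
    MvPolynomial.monomial (Finsupp.single i (p ^ a)) (1 : R) ∈ AF σ R p := by
  rw [← MvPolynomial.X_pow_eq_monomial]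
  exact Submodule.mem_sup_right (Submodule.subset_span ⟨(i, a), rfl⟩)

lemma AF_eq (p : ℕ) : AF σ R p = Submodule.span R ({1} ∪
    Set.range fun x : σ × ℕ => (MvPolynomial.X x.1 : MvPolynomial σ R) ^ p ^ x.2) := by
  rw [Submodule.span_union, AF, AA, Submodule.one_eq_span]

end PWS

open PWS in
theorem t_PWS : S_PWS := by
  intro σ R _ p hpf f
  have hp : 1 < p := hpf.out.one_lt
  refine ⟨⟨fun h => ?_, ?_⟩, ⟨fun h => ?_, fun h => ?_⟩, ⟨fun h => ?_, fun h => ?_⟩⟩
  · have h1 : f ∈ (1 : Submodule R (MvPolynomial σ R)) := by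
      refine le_of_monomial _ (fun m hm => ?_) h
      rw [pw_eq_zero hp m (by omega)]
      exact Submodule.one_le.1 le_rfl
    obtain ⟨c, hc⟩ := Submodule.mem_one.1 h1
    exact ⟨c, hc.symm⟩
  · rintro ⟨c, rfl⟩
    exact PW.C c
  · refine le_of_monomial _ (fun m hm => ?_) h
    rcases pw_le_one hp m hm with rfl | ⟨i, a, rfl⟩
    · exact one_mem_AF p
    · exact X_mem_AF p i a
  · have h1 : AF σ R p ≤ PWm σ R p 1 := by
      rw [AF_eq, Submodule.span_le]
      rintro _ (h | ⟨⟨i, a⟩, rfl⟩)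
      · rw [Set.mem_singleton_iff.1 h]
        exact monomial_mem (by rw [pw_zero]; omega) 1
      · change MvPolynomial.X i ^ p ^ a ∈ PWm σ R p 1
        rw [MvPolynomial.X_pow_eq_monomial]
        exact monomial_mem (by rw [pw_single, ds_pow hp]) 1
    exact h1 h
  · refine le_of_monomial _ (fun m hm => ?_) h
    rcases pw_le_two hp m hm with rfl | ⟨i, a, rfl⟩ | ⟨i, a, j, b, rfl⟩
    · have := Submodule.mul_mem_mul (one_mem_AF (σ := σ) (R := R) p) (one_mem_AF p)
      rwa [one_mul] at this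
    · have := Submodule.mul_mem_mul (X_mem_AF (R := R) p i a) (one_mem_AF p)
      rwa [mul_one] at this
    · have := Submodule.mul_mem_mul (X_mem_AF (R := R) p i a) (X_mem_AF p j b)
      rwa [MvPolynomial.monomial_mul, one_mul] at this
  · have h1 : AF σ R p * AF σ R p ≤ PWm σ R p 2 := by
      rw [AF_eq, Submodule.span_mul_span, Submodule.span_le]
      rintro _ ⟨x, (hx | ⟨⟨i, a⟩, rfl⟩), y, (hy | ⟨⟨j, b⟩, rfl⟩), rfl⟩
      · rw [Set.mem_singleton_iff.1 hx, Set.mem_singleton_iff.1 hy]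
        change (1 : MvPolynomial σ R) * 1 ∈ PWm σ R p 2
        rw [one_mul]
        exact monomial_mem (by rw [pw_zero]; omega) 1
      · rw [Set.mem_singleton_iff.1 hx]
        change (1 : MvPolynomial σ R) * MvPolynomial.X j ^ p ^ b ∈ PWm σ R p 2
        rw [one_mul, MvPolynomial.X_pow_eq_monomial]
        exact monomial_mem (by rw [pw_single, ds_pow hp]; omega) 1
      · rw [Set.mem_singleton_iff.1 hy]
        change MvPolynomial.X i ^ p ^ a * (1 : MvPolynomial σ R) ∈ PWm σ R p 2
        rw [mul_one, MvPolynomial.X_pow_eq_monomial]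
        exact monomial_mem (by rw [pw_single, ds_pow hp]; omega) 1
      · change MvPolynomial.X i ^ p ^ a * MvPolynomial.X j ^ p ^ b ∈ PWm σ R p 2
        rw [MvPolynomial.X_pow_eq_monomial, MvPolynomial.X_pow_eq_monomial,
          MvPolynomial.monomial_mul, one_mul]
        exact monomial_mem (pw_two_le hp i j a b) 1
    exact h1 h

end PQW
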