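import Pool.Agent.PQW.Stmts2

set_option autoImplicit false

open Polynomial

namespace PQW

open CUB LOWD

theorem t_QUO : S_QUO := by
  intro k R σ ι κ κ' _ _ _ f a b hab
  have hle : Ideal.span (Set.range fun i => f (a i)) ≤ Ideal.span (Set.range f) := by
    apply Ideal.span_mono
    rintro _ ⟨i, rfl⟩
    exact ⟨a i, rfl⟩
  refine ⟨Ideal.Quotient.factorₐ k hle, ?_, ?_⟩
  · exact Ideal.Quotient.factor_surjective hle
  · have h1 : RingHom.ker (Ideal.Quotient.factorₐ k hle).toRingHom =
        (Ideal.span (Set.range f)).map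
          (Ideal.Quotient.mk (Ideal.span (Set.range fun i => f (a i)))) :=
      Ideal.Quotient.factor_ker hle
    rw [h1, Ideal.map_span]
    apply le_antisymm
    · rw [Ideal.span_le]
      rintro _ ⟨_, ⟨i, rfl⟩, rfl⟩
      rcases hab i with ⟨j, rfl⟩ | ⟨j, rfl⟩
      · have h0 : Ideal.Quotient.mk (Ideal.span (Set.range fun i => f (a i))) (f (a j)) = 0 :=
          Ideal.Quotient.eq_zero_iff_mem.mpr (Ideal.subset_span ⟨j, rfl⟩)
        rw [SetLike.mem_coe, h0]
        exact Ideal.zero_mem _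
      · exact Ideal.subset_span ⟨j, rfl⟩
    · apply Ideal.span_mono
      rintro _ ⟨j, rfl⟩
      exact ⟨f (b j), ⟨b j, rfl⟩, rfl⟩

end PQW
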