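import Pool.Agent.PQW.Stmts

/-!
# PQW, module SPR: spreading out
-/

set_option autoImplicit false

open Polynomial

namespace PQW

open CUB LOWD

namespace SPR

/-- a power of `h` maps an element of the algebra generated by `F` to the one generated by `h F` -/
theorem pow_mem {T K : Type} [CommRing T] [CommRing K] [Algebra T K] (F : Set K) (h : T) (b : K)
    (hb : b ∈ Algebra.adjoin T F) :
    ∃ s : ℕ, h ^ s • b ∈ Algebra.adjoin T ((fun x => h • x) '' F) := by
  induction hb using Algebra.adjoin_induction with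
  | mem x hx => exact ⟨1, by rw [pow_one]; exact Algebra.subset_adjoin ⟨x, hx, rfl⟩⟩
  | algebraMap r => exact ⟨0, by rw [pow_zero, one_smul]; exact Subalgebra.algebraMap_mem _ r⟩
  | add x y _ _ hx hy =>
    obtain ⟨s, hs⟩ := hx
    obtain ⟨t, ht⟩ := hy
    refine ⟨s + t, ?_⟩
    rw [smul_add]
    refine add_mem ?_ ?_
    · rw [add_comm, pow_add, mul_smul]
      exact Subalgebra.smul_mem _ hs _
    · rw [pow_add, mul_smul]
      exact Subalgebra.smul_mem _ ht _
  | mul x y _ _ hx hy =>
    obtain ⟨s, hs⟩ := hx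
    obtain ⟨t, ht⟩ := hy
    refine ⟨s + t, ?_⟩
    rw [pow_add, mul_smul_mul_comm]
    exact mul_mem hs ht

end SPR

theorem t_SPR : S_SPR := by
  intro T K _ _ _ _ _ _ F
  classical
  obtain ⟨h, hh, hint⟩ := Algebra.IsAlgebraic.exists_integral_multiples T F
  have hfg : (Subalgebra.toSubmodule
      (Algebra.adjoin T ((fun x => h • x) '' (F : Set K)))).FG := by
    refine fg_adjoin_of_finite (F.finite_toSet.image _) ?_
    rintro _ ⟨x, hx, rfl⟩
    exact hint x hx
  obtain ⟨M0, hM0⟩ := hfg
  have hle : Algebra.adjoin T ((fun x => h • x) '' (F : Set K)) ≤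
      Algebra.adjoin T (F : Set K) := by
    refine Algebra.adjoin_le ?_
    rintro _ ⟨x, hx, rfl⟩
    exact Subalgebra.smul_mem _ (Algebra.subset_adjoin hx) h
  have hM : ∀ m ∈ M0, m ∈ Algebra.adjoin T (F : Set K) := by
    intro m hm
    apply hle
    have h1 : m ∈ Submodule.span T (M0 : Set K) := Submodule.subset_span hm
    rw [hM0] at h1
    exact h1
  refine ⟨h, Algebra.adjoin T (F : Set K), hh, Algebra.subset_adjoin,
    (Algebra.adjoin T (F : Set K)).fg_iff_finiteType.1 (Subalgebra.fg_adjoin_finset F), ?_⟩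
  refine ⟨M0.attach.map ⟨fun m => ⟨m.1, hM m.1 m.2⟩, fun m m' e => ?_⟩, fun b => ?_⟩
  · exact Subtype.ext (congrArg (fun z : Algebra.adjoin T (F : Set K) => (z : K)) e)
  · obtain ⟨s, hs⟩ := SPR.pow_mem (F : Set K) h b.1 b.2
    have hs' : h ^ s • (b : K) ∈ Submodule.span T (M0 : Set K) := by
      rw [hM0]
      exact hs
    obtain ⟨f, -, hf⟩ := Submodule.mem_span_finset.1 hs'
    refine ⟨s, fun m => f m, ?_⟩
    rw [Finset.sum_map]
    apply Subtype.ext
    rw [AddSubmonoidClass.coe_finsetSum]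
    have e1 : ((algebraMap T (Algebra.adjoin T (F : Set K)) h ^ s * b :
        Algebra.adjoin T (F : Set K)) : K) = h ^ s • (b : K) := by
      rw [Algebra.smul_def, map_pow]
      rfl
    rw [e1, ← hf, ← Finset.sum_attach M0]
    refine Finset.sum_congr rfl fun m _ => ?_
    rw [Algebra.smul_def]
    rfl

end PQW
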