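import Pool.Agent.PQW.Stmts

/-!
# PQW, module TIS: isomorphisms, and the zero ring
-/

set_option autoImplicit false

open Polynomial

namespace PQW

open CUB LOWD

theorem t_TIS : M_TIS := by
  intro hP
  constructor
  · intro k A B E _ _ _ _ _ _ e l hB c
    have h1 : push E e.toAlgHom e.surjective (push E e.symm.toAlgHom e.symm.surjective c) = c := by
      rw [← hP.1 k A B A E l e.toAlgHom e.symm.toAlgHom (AlgHom.id k A) e.surjective
        e.symm.surjective Function.surjective_id (by
          ext x
          exact (e.symm_apply_apply x).symm) c]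
      exact hP.2.1 k A E l (AlgHom.id k A) Function.surjective_id rfl c
    rw [← h1]
    exact (hP.2.2.1 k A B E l e _).2 (hB _)
  · intro k A E _ _ _ _ l hA c
    have h1 : IsEmpty (RP k A l) := ⟨fun p => p.1.2.ne_top (Subsingleton.elim _ _)⟩
    have h2 : c = 0 := Subsingleton.elim _ _
    rw [h2]
    exact Submodule.zero_mem _

end PQW
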