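import Pool.Agent.PQW.Stmts

/-!
# PQW, TPX: trivial cycles on polynomial rings and localisations, gluing
-/

set_option autoImplicit false

open Polynomial

namespace PQW

open CUB LOWD

namespace TPX

/-- polynomial rings in one variable -/
theorem poly (hFP : S_FP) (hGX : S_GX) (hL0 : S_L0) (k A E : Type) [Field k] [CommRing A]
    [Algebra k A] [Algebra.FiniteType k A] [Field E] (l : ℕ) (h : Triv k A E l) :
    Triv k A[X] E (l + 1) := by
  intro c
  obtain ⟨v, d, hvd, hcd⟩ := (hL0 k A E).1 l c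
  have hd := hFP k A A[X] E 1 l (IsScalarTower.toAlgHom k A A[X]) (hGX.1 k A) ⊥ v d hvd (h v)
  rw [Ideal.map_bot] at hd
  have e : c = (c - d) + d := by abel
  rw [e]
  exact Submodule.add_mem _ hcd hd

/-- localisations -/
theorem loc (hFP : S_FP) (hGLO : S_GLO) (hLOC : S_LOC) (k A B E : Type) [Field k] [CommRing A]
    [CommRing B] [Algebra k A] [Algebra k B] [Algebra.FiniteType k A] [Algebra.FiniteType k B]
    [Field E] (φ : A →ₐ[k] B) (a : A) (l : ℕ)
    (hφ : @IsLocalization.Away A _ a B _ φ.toRingHom.toAlgebra) (h : Triv k A E l) :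
    Triv k B E l := by
  intro d
  obtain ⟨c, hcd⟩ := (hLOC k A B E φ a hφ l ⊥).2 d
  have hd := hFP k A B E 0 l φ (hGLO k A B φ a hφ) ⊥ c d hcd (h c)
  rw [Ideal.map_bot] at hd
  exact hd

/-- gluing -/
theorem glue (hPUSH : S_PUSH) (hRON : S_RON) (hFPX : S_FPX) (hGLO : S_GLO) (hLOC : S_LOC)
    (k A B E : Type) [Field k] [CommRing A]
    [CommRing B] [Algebra k A] [Algebra k B] [Algebra.FiniteType k A] [Algebra.FiniteType k B]
    [Field E] (φ : A →ₐ[k] B) (a : A) (l : ℕ)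
    (hφ : @IsLocalization.Away A _ a B _ φ.toRingHom.toAlgebra) (hB : Triv k B E l)
    (hA : Triv k (A ⧸ Ideal.span {a}) E l) : Triv k A E l := by
  intro c
  obtain ⟨d, hcd⟩ := hFPX k A B E 0 l φ (hGLO k A B φ a hφ) c
  have hd : d ∈ ratOn k E l ((⊥ : Ideal A).map φ.toRingHom) := by
    rw [Ideal.map_bot]
    exact hB d
  obtain ⟨ρ, hρ, hs⟩ := (hLOC k A B E φ a hφ l ⊥).1 c d hcd hd
  have hsurj : Function.Surjective (Ideal.Quotient.mkₐ k (Ideal.span {a})) :=
    Ideal.Quotient.mkₐ_surjective k _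
  have hker : RingHom.ker (Ideal.Quotient.mkₐ k (Ideal.span {a})).toRingHom = Ideal.span {a} :=
    Ideal.Quotient.mkₐ_ker k _
  obtain ⟨-, -, h3, h4, -⟩ := hPUSH k A (A ⧸ Ideal.span {a}) E
    (Ideal.Quotient.mkₐ k (Ideal.span {a})) hsurj l
  rw [hker] at h3 h4
  obtain ⟨c', hc'⟩ := (h4 (c - ρ)).1 hs
  have h5 := h3 c' (hA c')
  rw [hc'] at h5
  have h6 : c - ρ ∈ rat k A E l := hRON k A E l ⊥ (Ideal.span {a}) bot_le h5
  have e : c = (c - ρ) + ρ := by abel
  rw [e]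
  exact Submodule.add_mem _ h6 hρ

end TPX

theorem t_TPX : M_TPX := by
  intro _ hPUSH hRON hFPX hFP hGX hGLO hLOC _ hL0
  refine ⟨?_, ?_, ?_⟩
  · intro k A E _ _ _ _ _ l h
    exact TPX.poly hFP hGX hL0 k A E l h
  · intro k A B E _ _ _ _ _ _ _ _ φ a l hφ h
    exact TPX.loc hFP hGLO hLOC k A B E φ a l hφ h
  · intro k A B E _ _ _ _ _ _ _ _ φ a l hφ hB hA
    exact TPX.glue hPUSH hRON hFPX hGLO hLOC k A B E φ a l hφ hB hA

end PQW
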