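import Pool.Agent.PQW.Stmts

/-!
# TVA: a variable which does not occur
-/

set_option autoImplicit false

open Polynomial

namespace PQW

open CUB LOWD

namespace TVA

variable {R τ τ' κ : Type} [CommRing R] (e : Option τ ≃ τ') (F : κ → MvPolynomial τ R)

/-- the images of the variables in `(AR F)[X]` -/
noncomputable def im : τ' → (AR F)[X] := fun t => match e.symm t with
  | none => X
  | some j => C (Ideal.Quotient.mk _ (MvPolynomial.X j))

theorem im_none : im e F (e none) = X := by
  unfold im; rw [e.symm_apply_apply]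

theorem im_some (j : τ) : im e F (e (some j)) = C (Ideal.Quotient.mk _ (MvPolynomial.X j)) := by
  unfold im; rw [e.symm_apply_apply]

theorem im_F (i : κ) :
    MvPolynomial.aeval (R := R) (im e F) (MvPolynomial.rename (fun j => e (some j)) (F i)) = 0 := by
  have h : (MvPolynomial.aeval (R := R) (im e F)).comp (MvPolynomial.rename (fun j => e (some j))) =
      (Polynomial.CAlgHom).comp (Ideal.Quotient.mkₐ R (Ideal.span (Set.range F))) := by
    apply MvPolynomial.algHom_ext
    intro j
    rw [AlgHom.comp_apply, MvPolynomial.rename_X, MvPolynomial.aeval_X, im_some]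
    rfl
  have h' := DFunLike.congr_fun h (F i)
  rw [AlgHom.comp_apply, AlgHom.comp_apply] at h'
  rw [h']
  have h0 : Ideal.Quotient.mkₐ R (Ideal.span (Set.range F)) (F i) = 0 :=
    Ideal.Quotient.eq_zero_iff_mem.mpr (Ideal.subset_span ⟨i, rfl⟩)
  rw [h0, map_zero]

/-- one direction -/
noncomputable def fw : AR (FR (fun j => e (some j)) F) →ₐ[R] (AR F)[X] :=
  Ideal.Quotient.liftₐ _ (MvPolynomial.aeval (R := R) (im e F)) (by
    intro a ha
    have : Ideal.span (Set.range (FR (fun j => e (some j)) F)) ≤
        RingHom.ker (MvPolynomial.aeval (R := R) (im e F)) := by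
      rw [Ideal.span_le]
      rintro _ ⟨i, rfl⟩
      exact im_F e F i
    exact this ha)

/-- the homomorphism of the coefficients -/
noncomputable def co : AR F →ₐ[R] AR (FR (fun j => e (some j)) F) :=
  Ideal.Quotient.liftₐ _ ((Ideal.Quotient.mkₐ R _).comp
    (MvPolynomial.rename (fun j => e (some j)))) (by
    intro a ha
    have : Ideal.span (Set.range F) ≤ RingHom.ker ((Ideal.Quotient.mkₐ R
        (Ideal.span (Set.range (FR (fun j => e (some j)) F)))).comp
          (MvPolynomial.rename (fun j => e (some j)))) := by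
      rw [Ideal.span_le]
      rintro _ ⟨i, rfl⟩
      exact Ideal.Quotient.eq_zero_iff_mem.mpr (Ideal.subset_span ⟨i, rfl⟩)
    exact this ha)

/-- the other direction -/
noncomputable def bw : (AR F)[X] →ₐ[R] AR (FR (fun j => e (some j)) F) :=
  Polynomial.eval₂AlgHom (co e F) (Ideal.Quotient.mk _ (MvPolynomial.X (e none)))
    (fun a => Commute.all _ _)

theorem fw_X (t : τ') : fw e F (Ideal.Quotient.mk _ (MvPolynomial.X t)) = im e F t := by
  show MvPolynomial.aeval (R := R) (im e F) (MvPolynomial.X t) = _
  rw [MvPolynomial.aeval_X]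

theorem co_X (j : τ) : co e F (Ideal.Quotient.mk _ (MvPolynomial.X j)) =
    Ideal.Quotient.mk _ (MvPolynomial.X (e (some j))) := by
  show Ideal.Quotient.mk _ (MvPolynomial.rename (fun j => e (some j)) (MvPolynomial.X j)) = _
  rw [MvPolynomial.rename_X]

theorem bw_C (a : AR F) : bw e F (C a) = co e F a :=
  Polynomial.eval₂_C _ _

theorem bw_X : bw e F X = Ideal.Quotient.mk _ (MvPolynomial.X (e none)) :=
  Polynomial.eval₂_X _ _

/-- the isomorphism -/
noncomputable def eqv : AR (FR (fun j => e (some j)) F) ≃ₐ[R] (AR F)[X] :=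
  AlgEquiv.ofAlgHom (fw e F) (bw e F)
    (by
      apply Polynomial.algHom_ext'
      · apply Ideal.Quotient.algHom_ext
        apply MvPolynomial.algHom_ext
        intro j
        show fw e F (bw e F (C (Ideal.Quotient.mk _ (MvPolynomial.X j)))) = _
        rw [bw_C, co_X, fw_X, im_some]
        rfl
      · show fw e F (bw e F X) = X
        rw [bw_X, fw_X, im_none])
    (by
      apply Ideal.Quotient.algHom_ext
      apply MvPolynomial.algHom_ext
      intro t
      show bw e F (fw e F (Ideal.Quotient.mk _ (MvPolynomial.X t))) = Ideal.Quotient.mk _ _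
      rw [fw_X]
      obtain ⟨o, rfl⟩ := e.surjective t
      cases o with
      | none => rw [im_none, bw_X]
      | some j => rw [im_some, bw_C, co_X])

end TVA

theorem t_TVA : M_TVA := by
  intro hI hP k R E τ τ' κ _ _ _ _ _ _ e F l h
  exact hI.1 k _ _ E ((TVA.eqv e F).restrictScalars k) (l + 1) (hP.1 k (AR F) E l h)

end PQW
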