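import Pool.Agent.PQW.Stmts

/-!
# PQW, module VEC: isotropic additive curves
-/

set_option autoImplicit false

open Polynomial

namespace PQW

namespace VEC

variable {K σ : Type} [Field K]

/-- The additive curve with coefficients `u`. -/
noncomputable def vu (p N : ℕ) (u : σ × Fin (N + 1) → K) : σ → K[X] :=
  fun j => ∑ a : Fin (N + 1), (C (u (j, a)) * X : K[X]) ^ p ^ (a : ℕ)

lemma coeff_vu (p N : ℕ) (u : σ × Fin (N + 1) → K) (j : σ) (m : ℕ) :
    (vu p N u j).coeff m =
      ∑ a : Fin (N + 1), if m = p ^ (a : ℕ) then u (j, a) ^ p ^ (a : ℕ) else 0 := by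
  unfold vu
  rw [Polynomial.finsetSum_coeff]
  refine Finset.sum_congr rfl fun a _ => ?_
  rw [mul_pow, ← C_pow, Polynomial.coeff_C_mul, Polynomial.coeff_X_pow]
  split_ifs <;> simp

lemma ad_vu (p N : ℕ) (u : σ × Fin (N + 1) → K) (j : σ) : Ad p (vu p N u j) := by
  intro m hm
  by_contra h
  push Not at h
  rw [Polynomial.mem_support_iff, coeff_vu] at hm
  apply hm
  refine Finset.sum_eq_zero fun a _ => ?_
  rw [if_neg (h a)]

lemma vu_ne (p N : ℕ) (hp : 1 < p) (u : σ × Fin (N + 1) → K) (hu : u ≠ 0) :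
    vu p N u ≠ 0 := by
  intro h
  apply hu
  funext ⟨j, a⟩
  have h1 : (vu p N u j).coeff (p ^ (a : ℕ)) = 0 := by
    rw [h]
    simp
  rw [coeff_vu, Finset.sum_eq_single a] at h1
  · rw [if_pos rfl] at h1
    exact eq_zero_of_pow_eq_zero h1
  · intro b _ hb
    rw [if_neg]
    intro hab
    exact hb (Fin.ext (Nat.pow_right_injective hp hab).symm)
  · intro ha
    exact absurd (Finset.mem_univ a) ha

end VEC

/-- VEC: isotropic additive curves. -/
theorem t_VEC : M_VEC := by
  intro hsol vel veq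
  intro K σ ι _ _ p _ _ _ _ L hL
  have hp : p.Prime := Fact.out
  choose H hH using fun i => vel K σ p (L i) (hL i)
  refine ⟨fun hc => ?_, fun f hf hc => ?_⟩
  · obtain ⟨N, hN⟩ : ∃ N : ℕ, N = ∑ i, H i := ⟨_, rfl⟩
    choose F hF1 hF2 using fun i => hH i N
    obtain ⟨u, hu, hz⟩ := hsol K (σ × Fin (N + 1)) (Σ i : ι, Fin (N + H i))
      (fun x => F x.1 x.2) (fun x => p ^ (x.2 : ℕ)) (fun x => hF1 x.1 x.2)
      (fun x => pow_pos hp.pos _) (by
        rw [Fintype.card_sigma, Fintype.card_prod, Fintype.card_fin]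
        simp only [Fintype.card_fin, Finset.sum_add_distrib, Finset.sum_const, Finset.card_univ,
          smul_eq_mul]
        rw [← hN]
        nlinarith [Nat.mul_le_mul_right (N + 1) (Nat.succ_le_of_lt hc)])
    refine ⟨VEC.vu p N u, VEC.vu_ne p N hp.one_lt u hu, fun j => VEC.ad_vu p N u j, fun i => ?_⟩
    have h1 := hF2 i u
    rw [Finset.sum_eq_zero, add_zero] at h1
    · exact h1
    · intro m hm
      have h2 := hz ⟨i, ⟨m, Finset.mem_range.1 hm⟩⟩
      simp only at h2
      rw [h2]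
      simp
  · obtain ⟨H0, hH0⟩ := veq K σ p f hf
    obtain ⟨N, hN⟩ : ∃ N : ℕ, N = ∑ i, H i + H0 + 1 := ⟨_, rfl⟩
    choose F hF1 hF2 using fun i => hH i N
    obtain ⟨l, G, hl, hG1, hG2⟩ := hH0 N
    obtain ⟨u, hu, hz⟩ := hsol K (σ × Fin (N + 1))
      ((Σ i : ι, Fin (N + H i)) ⊕ (Unit ⊕ Fin (N + H0)))
      (Sum.elim (fun x => F x.1 x.2) (Sum.elim (fun _ => l) (fun x => G x)))
      (Sum.elim (fun x => p ^ (x.2 : ℕ)) (Sum.elim (fun _ => 1) (fun x => 1 + p ^ (x : ℕ))))
      (by
        rintro (x | x | x)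
        · exact hF1 x.1 x.2
        · exact hl
        · exact hG1 x)
      (by
        rintro (x | x | x)
        · exact pow_pos hp.pos _
        · exact one_pos
        · exact Nat.add_pos_left one_pos _) (by
        rw [Fintype.card_sum, Fintype.card_sum, Fintype.card_sigma, Fintype.card_prod,
          Fintype.card_fin]
        simp only [Fintype.card_fin, Fintype.card_unit, Finset.sum_add_distrib, Finset.sum_const,
          Finset.card_univ, smul_eq_mul]
        nlinarith [Nat.mul_le_mul_right (N + 1) (Nat.succ_le_of_lt hc)])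
    refine ⟨VEC.vu p N u, VEC.vu_ne p N hp.one_lt u hu, fun j => VEC.ad_vu p N u j,
      fun i => ?_, ?_⟩
    · have h1 := hF2 i u
      rw [Finset.sum_eq_zero, add_zero] at h1
      · exact h1
      · intro m hm
        have h2 := hz (Sum.inl ⟨i, ⟨m, Finset.mem_range.1 hm⟩⟩)
        simp only [Sum.elim_inl] at h2
        rw [h2]
        simp
    · obtain ⟨g, hg⟩ := hG2 u
      refine ⟨g, ?_⟩
      have hlz := hz (Sum.inr (Sum.inl ()))
      simp only [Sum.elim_inr, Sum.elim_inl] at hlz
      rw [hlz, Finset.sum_eq_zero] at hg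
      · rw [map_zero, zero_mul, add_zero, add_zero] at hg
        exact hg
      · intro m hm
        have h2 := hz (Sum.inr (Sum.inr ⟨m, Finset.mem_range.1 hm⟩))
        simp only [Sum.elim_inr] at h2
        rw [h2]
        simp

end PQW
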