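import Pool.Agent.PQW.Stmts

/-!
# VEL: the linear part of VEC
-/

set_option autoImplicit false

open Polynomial

namespace PQW

open CUB LOWD

namespace VEL

variable {K σ : Type} [Field K]

/-- the statement with a free upper bound of the sum -/
def Pr (p : ℕ) (L : MvPolynomial σ K) : Prop :=
  ∃ H : ℕ, ∀ N M : ℕ, N + H ≤ M → ∃ F : ℕ → MvPolynomial (σ × Fin (N + 1)) K,
    (∀ m, (F m).IsHomogeneous (p ^ m)) ∧ ∀ u : σ × Fin (N + 1) → K,
      MvPolynomial.aeval (fun j : σ => ∑ a : Fin (N + 1), (C (u (j, a)) * X : K[X]) ^ p ^ (a : ℕ)) L =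
        C (MvPolynomial.constantCoeff L) +
          ∑ m ∈ Finset.range M, C (MvPolynomial.eval u (F m)) * X ^ p ^ m

theorem pr_add {p : ℕ} {L L' : MvPolynomial σ K} (h : Pr p L) (h' : Pr p L') : Pr p (L + L') := by
  obtain ⟨H, h⟩ := h
  obtain ⟨H', h'⟩ := h'
  refine ⟨max H H', fun N M hM => ?_⟩
  have hl := le_max_left H H'
  have hr := le_max_right H H'
  obtain ⟨F, hF, e⟩ := h N M (by omega)
  obtain ⟨F', hF', e'⟩ := h' N M (by omega)
  refine ⟨fun m => F m + F' m, fun m => (hF m).add (hF' m), fun u => ?_⟩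
  rw [map_add, e u, e' u, map_add, C_add]
  have : ∑ m ∈ Finset.range M, C (MvPolynomial.eval u (F m + F' m)) * (X : K[X]) ^ p ^ m =
      ∑ m ∈ Finset.range M, C (MvPolynomial.eval u (F m)) * X ^ p ^ m +
      ∑ m ∈ Finset.range M, C (MvPolynomial.eval u (F' m)) * X ^ p ^ m := by
    rw [← Finset.sum_add_distrib]
    refine Finset.sum_congr rfl fun m _ => ?_
    rw [map_add, C_add, add_mul]
  rw [this]
  ring

theorem pr_smul {p : ℕ} {L : MvPolynomial σ K} (c : K) (h : Pr p L) : Pr p (c • L) := by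
  obtain ⟨H, h⟩ := h
  refine ⟨H, fun N M hM => ?_⟩
  obtain ⟨F, hF, e⟩ := h N M hM
  refine ⟨fun m => MvPolynomial.C c * F m, fun m => ?_, fun u => ?_⟩
  · have := (MvPolynomial.isHomogeneous_C (σ × Fin (N + 1)) c).mul (hF m)
    rwa [zero_add] at this
  · have h0 : MvPolynomial.constantCoeff (c • L) = c * MvPolynomial.constantCoeff L := by
      rw [MvPolynomial.smul_eq_C_mul, map_mul, MvPolynomial.constantCoeff_C]
    rw [map_smul, e u, h0, smul_eq_C_mul, mul_add, ← C_mul, Finset.mul_sum]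
    congr 1
    refine Finset.sum_congr rfl fun m _ => ?_
    rw [map_mul, MvPolynomial.eval_C, C_mul, mul_assoc]

theorem pr_const {p : ℕ} (c : K) : Pr p (MvPolynomial.C c : MvPolynomial σ K) := by
  refine ⟨0, fun N M _ => ⟨fun _ => 0, fun m => MvPolynomial.isHomogeneous_zero _ _ _,
    fun u => ?_⟩⟩
  rw [MvPolynomial.aeval_C, MvPolynomial.constantCoeff_C]
  simp

theorem pr_gen {p : ℕ} [Fact p.Prime] [CharP K p] (i : σ) (s : ℕ) :
    Pr p ((MvPolynomial.X i : MvPolynomial σ K) ^ p ^ s) := by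
  classical
  have hp : 0 < p := (Fact.out : p.Prime).pos
  refine ⟨s + 1, fun N M hM => ⟨fun m => ∑ a : Fin (N + 1),
    if (a : ℕ) + s = m then (MvPolynomial.X (i, a)) ^ p ^ m else 0, fun m => ?_, fun u => ?_⟩⟩
  · refine MvPolynomial.IsHomogeneous.sum _ _ _ fun a _ => ?_
    split_ifs
    · have := (MvPolynomial.isHomogeneous_X K (i, a)).pow (p ^ m)
      rwa [one_mul] at this
    · exact MvPolynomial.isHomogeneous_zero _ _ _
  · have h0 : MvPolynomial.constantCoeff ((MvPolynomial.X i : MvPolynomial σ K) ^ p ^ s) = 0 := by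
      rw [map_pow, MvPolynomial.constantCoeff_X, zero_pow (pow_pos hp s).ne']
    rw [h0, C_0, zero_add, map_pow, MvPolynomial.aeval_X, sum_pow_char_pow]
    have h1 : ∀ m ∈ Finset.range M, C (MvPolynomial.eval u (∑ a : Fin (N + 1),
        if (a : ℕ) + s = m then (MvPolynomial.X (i, a)) ^ p ^ m else 0)) * (X : K[X]) ^ p ^ m =
        ∑ a : Fin (N + 1), if (a : ℕ) + s = m then (C (u (i, a)) * X) ^ p ^ m else 0 := by
      intro m _
      rw [map_sum, map_sum, Finset.sum_mul]
      refine Finset.sum_congr rfl fun a _ => ?_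
      split_ifs
      · rw [map_pow, MvPolynomial.eval_X, C_pow, mul_pow]
      · simp
    rw [Finset.sum_congr rfl h1, Finset.sum_comm]
    refine Finset.sum_congr rfl fun a _ => ?_
    rw [Finset.sum_ite_eq, if_pos (Finset.mem_range.mpr (by have := a.2; omega)), ← pow_mul,
      ← pow_add]

theorem pr_all {p : ℕ} [Fact p.Prime] [CharP K p] (L : MvPolynomial σ K) (h : L ∈ AF σ K p) :
    Pr p L := by
  obtain ⟨x, hx, y, hy, rfl⟩ := Submodule.mem_sup.mp h
  refine pr_add ?_ ?_
  · obtain ⟨c, rfl⟩ := Submodule.mem_one.mp hx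
    exact pr_const c
  · refine Submodule.span_induction (p := fun z _ => Pr p z) ?_ ?_ ?_ ?_ hy
    · rintro _ ⟨⟨i, s⟩, rfl⟩
      exact pr_gen i s
    · have := pr_const (p := p) (σ := σ) (0 : K)
      rwa [MvPolynomial.C_0] at this
    · intro x y _ _ hx hy
      exact pr_add hx hy
    · intro c x _ hx
      exact pr_smul c hx

end VEL

theorem t_VEL : M_VEL := by
  intro hP K σ _ _ p _ _ L hL
  obtain ⟨H, h⟩ := VEL.pr_all L (((hP σ K p L).2.1).mp hL)
  exact ⟨H, fun N => h N (N + H) le_rfl⟩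

end PQW
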