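import Pool.Agent.PQW.EqP

/-!
# PQW: the module VEQ
-/

set_option autoImplicit false

open Polynomial

namespace PQW

open CUB LOWD

namespace VEQ

open EqP

variable {K σ : Type} [Field K] {p : ℕ}

/-- The generic additive curve. -/
noncomputable def vu (p : ℕ) {N : ℕ} (u : σ × Fin (N + 1) → K) (j : σ) : K[X] :=
  ∑ a : Fin (N + 1), (C (u (j, a)) * X : K[X]) ^ p ^ (a : ℕ)

/-- The functions of `u` of the required form, modulo `g ^ p - g`. -/
def Rep (p N M : ℕ) (φ : (σ × Fin (N + 1) → K) → K[X]) : Prop :=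
  ∃ (l : MvPolynomial (σ × Fin (N + 1)) K) (F : ℕ → MvPolynomial (σ × Fin (N + 1)) K),
    l.IsHomogeneous 1 ∧ (∀ e, (F e).IsHomogeneous (1 + p ^ e)) ∧ ∀ u,
      Eqp p (φ u) (C (MvPolynomial.eval u l) * X +
        ∑ e ∈ Finset.range M, C (MvPolynomial.eval u (F e)) * X ^ (1 + p ^ e))

lemma Rep.mono {N M M' : ℕ} {φ : (σ × Fin (N + 1) → K) → K[X]} (h : Rep p N M φ) (hM : M ≤ M') :
    Rep p N M' φ := by
  obtain ⟨l, F, h1, h2, h3⟩ := h
  refine ⟨l, fun e => if e < M then F e else 0, h1, fun e => ?_, fun u => ?_⟩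
  · dsimp only
    split_ifs
    · exact h2 e
    · exact MvPolynomial.isHomogeneous_zero _ _ _
  · have h4 : ∑ e ∈ Finset.range M', C (MvPolynomial.eval u (if e < M then F e else 0)) *
        (X : K[X]) ^ (1 + p ^ e) =
        ∑ e ∈ Finset.range M, C (MvPolynomial.eval u (F e)) * X ^ (1 + p ^ e) := by
      rw [← Finset.sum_subset (Finset.range_subset_range.mpr hM)]
      · refine Finset.sum_congr rfl fun e he => ?_
        rw [if_pos (Finset.mem_range.mp he)]
      · intro e _ he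
        rw [if_neg (fun h => he (Finset.mem_range.mpr h)), map_zero, C_0, zero_mul]
    rw [h4]
    exact h3 u

section

variable [Fact p.Prime] [CharP K p]

lemma Rep.of_eqp {N M : ℕ} {φ ψ : (σ × Fin (N + 1) → K) → K[X]} (h : Rep p N M φ)
    (hψ : ∀ u, Eqp p (ψ u) (φ u)) : Rep p N M ψ := by
  obtain ⟨l, F, h1, h2, h3⟩ := h
  exact ⟨l, F, h1, h2, fun u => (hψ u).trans (h3 u)⟩

lemma Rep.zero {N M : ℕ} : Rep (K := K) (σ := σ) p N M fun _ => 0 :=
  ⟨0, fun _ => 0, MvPolynomial.isHomogeneous_zero _ _ _,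
    fun _ => MvPolynomial.isHomogeneous_zero _ _ _, fun u => Eqp.of_eq (by simp)⟩

lemma Rep.add {N M : ℕ} {φ ψ : (σ × Fin (N + 1) → K) → K[X]} (h : Rep p N M φ)
    (h' : Rep p N M ψ) : Rep p N M fun u => φ u + ψ u := by
  obtain ⟨l, F, h1, h2, h3⟩ := h
  obtain ⟨l', F', h1', h2', h3'⟩ := h'
  refine ⟨l + l', fun e => F e + F' e, h1.add h1', fun e => (h2 e).add (h2' e), fun u => ?_⟩
  refine ((h3 u).add (h3' u)).trans (Eqp.of_eq ?_)
  simp only [map_add, add_mul, Finset.sum_add_distrib]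
  ring

lemma Rep.sum {ι : Type} (s : Finset ι) {N M : ℕ} {φ : ι → (σ × Fin (N + 1) → K) → K[X]}
    (h : ∀ i ∈ s, Rep p N M (φ i)) : Rep p N M fun u => ∑ i ∈ s, φ i u := by
  classical
  induction s using Finset.induction_on with
  | empty => simpa using Rep.zero
  | insert a s ha ih =>
    have h1 := (h a (Finset.mem_insert_self a s)).add
      (ih fun i hi => h i (Finset.mem_insert_of_mem hi))
    simpa only [Finset.sum_insert ha] using h1

lemma Rep.lin {N M : ℕ} (c : K) (x : σ × Fin (N + 1)) :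
    Rep p N M fun u => C c * (C (u x) * X) := by
  refine ⟨MvPolynomial.C c * MvPolynomial.X x, fun _ => 0, ?_,
    fun _ => MvPolynomial.isHomogeneous_zero _ _ _, fun u => Eqp.of_eq ?_⟩
  · have h := (MvPolynomial.isHomogeneous_C (σ × Fin (N + 1)) c).mul
      (MvPolynomial.isHomogeneous_X K x)
    rwa [zero_add] at h
  · simp only [map_mul, MvPolynomial.eval_C, MvPolynomial.eval_X, map_zero, zero_mul,
      Finset.sum_const_zero, add_zero]
    ring

lemma Rep.quad {N M : ℕ} (c : K) (x y : σ × Fin (N + 1)) (e : ℕ) (he : e < M) :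
    Rep p N M fun u => C c * ((C (u x) * X) * (C (u y) * X) ^ p ^ e) := by
  refine ⟨0, fun e' => if e' = e then MvPolynomial.C c * (MvPolynomial.X x *
    MvPolynomial.X y ^ p ^ e) else 0, MvPolynomial.isHomogeneous_zero _ _ _, fun e' => ?_,
    fun u => Eqp.of_eq ?_⟩
  · dsimp only
    split_ifs with h
    · subst h
      have h1 := (MvPolynomial.isHomogeneous_C (σ × Fin (N + 1)) c).mul
        ((MvPolynomial.isHomogeneous_X K x).mul ((MvPolynomial.isHomogeneous_X K y).pow (p ^ e')))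
      rwa [zero_add, one_mul] at h1
    · exact MvPolynomial.isHomogeneous_zero _ _ _
  · rw [Finset.sum_eq_single e]
    · dsimp only
      rw [if_pos rfl]
      simp only [map_mul, map_pow, MvPolynomial.eval_C, MvPolynomial.eval_X, map_zero, zero_mul,
        zero_add]
      ring
    · intro e' _ he'
      dsimp only
      rw [if_neg he', map_zero, C_0, zero_mul]
    · intro h
      exact absurd (Finset.mem_range.mpr he) h

variable [IsAlgClosed K]

lemma exists_root (c : K) (m : ℕ) : ∃ γ : K, γ ^ p ^ m = c :=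
  IsAlgClosed.exists_pow_nat_eq c (pow_pos (Fact.out : p.Prime).pos m)

lemma Rep.lin_pow {N M : ℕ} (c : K) (x : σ × Fin (N + 1)) (m : ℕ) :
    Rep p N M fun u => C c * (C (u x) * X) ^ p ^ m := by
  obtain ⟨γ, hγ⟩ := exists_root (p := p) c m
  refine (Rep.lin γ x).of_eqp fun u => ?_
  have h : C c * (C (u x) * X) ^ p ^ m = (C γ * (C (u x) * X)) ^ p ^ m := by
    rw [mul_pow (C γ), ← C_pow, hγ]
  rw [h]
  exact Eqp.pow _ m

lemma Rep.quad_pow {N M : ℕ} (c : K) (x y : σ × Fin (N + 1)) (m n : ℕ) (hm : m < M)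
    (hn : n < M) :
    Rep p N M fun u => C c * ((C (u x) * X) ^ p ^ m * (C (u y) * X) ^ p ^ n) := by
  rcases le_total m n with h | h
  · obtain ⟨γ, hγ⟩ := exists_root (p := p) c m
    refine (Rep.quad γ x y (n - m) (by omega)).of_eqp fun u => ?_
    have h : C c * ((C (u x) * X) ^ p ^ m * (C (u y) * X) ^ p ^ n) =
        (C γ * ((C (u x) * X) * (C (u y) * X) ^ p ^ (n - m))) ^ p ^ m := by
      rw [mul_pow (C γ), ← C_pow, hγ, mul_pow (C (u x) * X), ← pow_mul, ← pow_add,
        Nat.sub_add_cancel h]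
    rw [h]
    exact Eqp.pow _ m
  · obtain ⟨γ, hγ⟩ := exists_root (p := p) c n
    refine (Rep.quad γ y x (m - n) (by omega)).of_eqp fun u => ?_
    have h : C c * ((C (u x) * X) ^ p ^ m * (C (u y) * X) ^ p ^ n) =
        (C γ * ((C (u y) * X) * (C (u x) * X) ^ p ^ (m - n))) ^ p ^ n := by
      rw [mul_pow (C γ), ← C_pow, hγ, mul_pow (C (u y) * X), ← pow_mul, ← pow_add,
        Nat.sub_add_cancel h, mul_comm ((C (u y) * X) ^ p ^ n)]
    rw [h]
    exact Eqp.pow _ n

end

lemma vu_pow [Fact p.Prime] [CharP K p] {N : ℕ} (u : σ × Fin (N + 1) → K) (j : σ) (m : ℕ) :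
    vu p u j ^ p ^ m = ∑ a : Fin (N + 1), (C (u (j, a)) * X : K[X]) ^ p ^ ((a : ℕ) + m) := by
  rw [vu, sum_pow_char_pow]
  refine Finset.sum_congr rfl fun a _ => ?_
  rw [← pow_mul, ← pow_add]

end VEQ

open VEQ EqP in
theorem t_VEQ : M_VEQ := by
  intro hP K σ _ _ p _ _ f hf
  have hp : p.Prime := Fact.out
  have hf' := (hP σ K p f).2.2.mp hf
  have h0 : ∀ m : ℕ, p ^ m ≠ 0 := fun m => pow_ne_zero m hp.ne_zero
  have key : ∃ H : ℕ, ∀ N : ℕ, Rep p N (N + H) fun u =>
      MvPolynomial.aeval (vu p u) f - C (MvPolynomial.constantCoeff f) := by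
    refine AFF_induction p (P := fun f => ∃ H : ℕ, ∀ N : ℕ, Rep p N (N + H) fun u =>
      MvPolynomial.aeval (vu p u) f - C (MvPolynomial.constantCoeff f)) ?_ ?_ ?_ ?_ hf'
    · intro c
      refine ⟨0, fun N => Rep.zero.of_eqp fun u => Eqp.of_eq ?_⟩
      simp [MvPolynomial.algebraMap_eq]
    · intro c i m
      refine ⟨m + 1, fun N => ?_⟩
      refine (Rep.sum Finset.univ (φ := fun (a : Fin (N + 1)) u => C c * (C (u (i, a)) * X) ^
        p ^ ((a : ℕ) + m)) fun a _ => Rep.lin_pow c (i, a) _).of_eqp fun u => Eqp.of_eq ?_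
      have h1 : MvPolynomial.constantCoeff (MvPolynomial.C c * MvPolynomial.X i ^ p ^ m :
          MvPolynomial σ K) = 0 := by
        rw [map_mul, map_pow, MvPolynomial.constantCoeff_X, zero_pow (h0 m), mul_zero]
      rw [h1, C_0, sub_zero, map_mul, map_pow, MvPolynomial.aeval_X, MvPolynomial.aeval_C,
        vu_pow, Finset.mul_sum]
      rfl
    · intro c i j m n
      refine ⟨m + n + 1, fun N => ?_⟩
      refine (Rep.sum Finset.univ (φ := fun (a : Fin (N + 1)) u => ∑ b : Fin (N + 1),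
        C c * ((C (u (i, a)) * X) ^ p ^ ((a : ℕ) + m) * (C (u (j, b)) * X) ^ p ^ ((b : ℕ) + n)))
        fun a _ => Rep.sum Finset.univ fun b _ => Rep.quad_pow c (i, a) (j, b) _ _ (by omega)
          (by omega)).of_eqp fun u => Eqp.of_eq ?_
      have h1 : MvPolynomial.constantCoeff (MvPolynomial.C c * (MvPolynomial.X i ^ p ^ m *
          MvPolynomial.X j ^ p ^ n) : MvPolynomial σ K) = 0 := by
        rw [map_mul, map_mul, map_pow, MvPolynomial.constantCoeff_X, zero_pow (h0 m), zero_mul,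
          mul_zero]
      rw [h1, C_0, sub_zero, map_mul, map_mul, map_pow, map_pow, MvPolynomial.aeval_X,
        MvPolynomial.aeval_X, MvPolynomial.aeval_C, vu_pow, vu_pow, Finset.sum_mul_sum,
        Finset.mul_sum]
      refine Finset.sum_congr rfl fun a _ => ?_
      rw [Finset.mul_sum]
      rfl
    · rintro f g ⟨H, hH⟩ ⟨H', hH'⟩
      refine ⟨H + H', fun N => ?_⟩
      refine (((hH N).mono (by omega)).add ((hH' N).mono (by omega))).of_eqp fun u =>
        Eqp.of_eq ?_
      simp only [map_add]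
      ring
  obtain ⟨H, h⟩ := key
  refine ⟨H, fun N => ?_⟩
  obtain ⟨l, F, h1, h2, h3⟩ := h N
  refine ⟨l, F, h1, h2, fun u => ?_⟩
  obtain ⟨g, hg⟩ := h3 u
  refine ⟨g, ?_⟩
  change MvPolynomial.aeval (vu p u) f = _
  linear_combination hg

end PQW
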