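import Pool.Agent.PQW.Stmts

/-!
# VST: the step `TA l → TV l → TV (l + 1)`
-/

set_option autoImplicit false

open Polynomial

namespace PQW

open CUB LOWD

namespace VST

/-- Triviality depends only on the ideal. -/
lemma triv_of_eq {k A E : Type} [Field k] [CommRing A] [Algebra k A] [Field E] {l : ℕ}
    {I J : Ideal A} (h : I = J) (hJ : Triv k (A ⧸ J) E l) : Triv k (A ⧸ I) E l := by
  subst h
  exact hJ

/-- The image of the ideal of a family. -/
lemma map_span_range {A B ι : Type} [CommRing A] [CommRing B] (φ : A →+* B) (F : ι → A) :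
    (Ideal.span (Set.range F)).map φ = Ideal.span (Set.range fun i => φ (F i)) := by
  rw [Ideal.map_span]
  congr 1
  rw [← Set.range_comp]
  rfl

/-- `P` modulo the equations and `h`. -/
noncomputable def quo (k : Type) {T τ κ : Type} [Field k] [CommRing T] [Algebra k T]
    (F : κ → MvPolynomial τ T) (h : T) :
    (MvPolynomial τ T ⧸ (Ideal.span (Set.range F) ⊔ Ideal.span {MvPolynomial.C h})) ≃ₐ[k]
      AR (FM (Ideal.Quotient.mk (Ideal.span {h})) F) := by
  let ψ : MvPolynomial τ T →ₐ[k] MvPolynomial τ (T ⧸ Ideal.span {h}) :=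
    MvPolynomial.mapAlgHom (Ideal.Quotient.mkₐ k (Ideal.span {h}))
  have hψ : ψ.toRingHom = MvPolynomial.map (Ideal.Quotient.mk (Ideal.span {h})) := by
    ext x
    · simp [ψ]
    · simp [ψ]
  have hψs : Function.Surjective (MvPolynomial.map (σ := τ) (Ideal.Quotient.mk (Ideal.span {h}))) :=
    MvPolynomial.map_surjective _ Ideal.Quotient.mk_surjective
  let χ : MvPolynomial τ T →ₐ[k] AR (FM (Ideal.Quotient.mk (Ideal.span {h})) F) :=
    (Ideal.Quotient.mkₐ k _).comp ψ
  have hχ : Function.Surjective χ := by
    intro y
    obtain ⟨z, rfl⟩ := Ideal.Quotient.mk_surjective y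
    obtain ⟨x, rfl⟩ := hψs z
    refine ⟨x, ?_⟩
    show Ideal.Quotient.mk _ (ψ.toRingHom x) = _
    rw [hψ]
  have hker : Ideal.span (Set.range F) ⊔ Ideal.span {MvPolynomial.C h} = RingHom.ker χ := by
    have h1 : RingHom.ker χ = Ideal.comap (MvPolynomial.map (Ideal.Quotient.mk (Ideal.span {h})))
        (Ideal.map (MvPolynomial.map (Ideal.Quotient.mk (Ideal.span {h})))
          (Ideal.span (Set.range F))) := by
      ext x
      rw [RingHom.mem_ker, Ideal.mem_comap, map_span_range]
      show Ideal.Quotient.mk _ (ψ.toRingHom x) = 0 ↔ _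
      rw [hψ, Ideal.Quotient.eq_zero_iff_mem]
      rfl
    rw [h1, Ideal.comap_map_of_surjective' _ hψs, MvPolynomial.ker_map, Ideal.mk_ker,
      Ideal.map_span, Set.image_singleton]
  exact (Ideal.quotientEquivAlgOfEq k hker).trans (Ideal.quotientKerAlgEquivOfSurjective hχ)

end VST

theorem t_VST : M_VST := by
  intro hLFT hFN1 hTIS hCOV hFNP hDEV hYSH hDST l hTA hTV k R E σ ι _ _ _ _ _ _ _ _ _ p _ _ f L
    S hf hL hS hcard
  classical
  refine hDEV k R E (Option σ) (Option ι) (vF p f L) (l + 1) ?_
  intro T _ _ _ _ ρ hρ
  obtain ⟨T', _, _, _, _, φ, h, a, v, B, G, f0, La, L0, hh, hφ, hfin, hu, hdeg, hf0, hLa, hL0, hc,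
    hPf, hPL⟩ := hLFT k T σ ι p (MvPolynomial.map ρ.toRingHom f) (FM ρ.toRingHom L) S
      (hf.map _) (fun i => (hL i).map _)
      (fun i hi => by
        obtain ⟨c, hc⟩ := hS i hi
        exact ⟨ρ.toRingHom c, by show MvPolynomial.map _ (L i) = _; rw [hc, MvPolynomial.map_C]⟩)
      (by omega)
  refine ⟨h, hh, fun hT => ?_⟩
  rw [FM_vF] at hT ⊢
  set fT := MvPolynomial.map ρ.toRingHom f with hfT
  set LT := FM ρ.toRingHom L with hLT
  -- base change
  have hΦ : (MvPolynomial.mapAlgHom (σ := Option σ) φ).toRingHom =
      MvPolynomial.map φ.toRingHom := by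
    ext x
    · simp
    · simp
  refine hCOV k (MvPolynomial (Option σ) T) (MvPolynomial (Option σ) T') E
    (MvPolynomial.mapAlgHom φ) (MvPolynomial.C h) _ (l + 1) ?_ ?_ ?_ ?_
  · rw [hΦ]
    exact hFN1.2.2 T T' (Option σ) φ.toRingHom h hfin
  · have h1 : Function.Injective (MvPolynomial.map (σ := Option σ) φ.toRingHom) :=
      MvPolynomial.map_injective _ hφ
    rw [← hΦ] at h1
    exact h1
  · have h2 : (Ideal.span (Set.range (vF p fT LT))).map
        (MvPolynomial.mapAlgHom (σ := Option σ) φ).toRingHom =
        Ideal.span (Set.range (vF p (MvPolynomial.map φ.toRingHom fT) (FM φ.toRingHom LT))) := by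
      rw [hΦ, VST.map_span_range, ← FM_vF φ.toRingHom p fT LT]
      rfl
    refine VST.triv_of_eq h2 ?_
    -- the substitution
    have hP := (hFNP T' σ p a v B hu hdeg).1
    refine hCOV k (MvPolynomial (Option σ) T') (MvPolynomial (Option σ) T') E
      ((PhiO p a v B).restrictScalars k) 1 _ (l + 1) hP.1 hP.2 ?_ ?_
    · have hΨ : ∀ g : MvPolynomial σ T', PhiO p a v B (MvPolynomial.rename some g) =
          MvPolynomial.rename some (MvPolynomial.aeval (Phi p a v B) g) := by
        intro g
        unfold PhiO
        rw [MvPolynomial.aeval_rename]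
        have h3 : (MvPolynomial.rename some (MvPolynomial.aeval (Phi p a v B) g) :
            MvPolynomial (Option σ) T') =
            MvPolynomial.aeval (fun j => MvPolynomial.rename some (Phi p a v B j)) g := by
          rw [MvPolynomial.aeval_def, MvPolynomial.aeval_def, ← AlgHom.coe_toRingHom,
            MvPolynomial.hom_eval₂]
          congr 1
          ext x
          simp
        rw [h3]
        rfl
      have hnone : PhiO p a v B (MvPolynomial.X none) = MvPolynomial.X none := by
        unfold PhiO
        rw [MvPolynomial.aeval_X]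
      have h3 : (Ideal.span (Set.range (vF p (MvPolynomial.map φ.toRingHom fT)
          (FM φ.toRingHom LT)))).map ((PhiO p a v B).restrictScalars k).toRingHom =
          Ideal.span (Set.range (vF p (nf a f0 La + (G ^ p - G)) (FR Subtype.val L0))) := by
        rw [VST.map_span_range]
        congr 2
        funext i
        show PhiO p a v B _ = _
        cases i with
        | none =>
          simp only [vF]
          rw [map_sub, map_sub, map_pow, hnone, hΨ, hPf]
        | some i =>
          simp only [vF]
          rw [hΨ]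
          show MvPolynomial.rename some (MvPolynomial.aeval (Phi p a v B)
            (MvPolynomial.map φ.toRingHom (LT i))) = _
          rw [hPL i]
          rfl
      refine VST.triv_of_eq h3 ?_
      refine hYSH k T' E σ ι p (nf a f0 La) G (FR Subtype.val L0) (l + 1) ?_
      have hcd : Fintype.card {j : σ // j ≠ a} = Fintype.card σ - 1 := by
        rw [Fintype.card_subtype_compl, Fintype.card_subtype_eq]
      refine hDST k T' E σ ι p a f0 La L0 l ?_ ?_
      · exact hTA k T' E {j : σ // j ≠ a} ι p L0 S hL0 hc (by rw [hcd]; omega)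
      · refine hTV k T' E {j : σ // j ≠ a} (Option ι) p f0 (cons La L0)
          (insert none (S.map Function.Embedding.some)) hf0 ?_ ?_ ?_
        · intro i
          cases i with
          | none => exact hLa
          | some i => exact hL0 i
        · intro i hi
          cases i with
          | none => exact absurd (Finset.mem_insert_self _ _) hi
          | some i =>
            refine hc i fun h4 => hi ?_
            rw [Finset.mem_insert, Finset.mem_map]
            exact Or.inr ⟨i, h4, rfl⟩
        · have h4 : (insert none (S.map Function.Embedding.some)).card ≤ S.card + 1 := by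
            refine (Finset.card_insert_le _ _).trans ?_
            rw [Finset.card_map]
          rw [hcd]
          omega
    · refine hTIS.2 k _ E (l + 1) ?_
      rw [Ideal.Quotient.subsingleton_iff, Ideal.span_singleton_one, sup_top_eq]
  · exact hTIS.1 k _ _ E (VST.quo k (vF p fT LT) h) (l + 1) hT

end PQW
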