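import Pool.Agent.ASC.Asm
import Pool.Agent.CUB.A_GLO
import Pool.Agent.CUB.A_LOC
import Pool.Agent.CUB.A_RON
import Pool.Agent.LOWD.Asm
import Pool.Agent.PQW.AST
import Pool.Agent.PQW.BAS
import Pool.Agent.PQW.BRI
import Pool.Agent.PQW.CLO
import Pool.Agent.PQW.COV
import Pool.Agent.PQW.DEV
import Pool.Agent.PQW.DST
import Pool.Agent.PQW.FIS
import Pool.Agent.PQW.FN1
import Pool.Agent.PQW.FNP
import Pool.Agent.PQW.HSOL
import Pool.Agent.PQW.LFA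
import Pool.Agent.PQW.LFT
import Pool.Agent.PQW.LYO
import Pool.Agent.PQW.NFL
import Pool.Agent.PQW.NFQ
import Pool.Agent.PQW.OPN
import Pool.Agent.PQW.PQ
import Pool.Agent.PQW.PWS
import Pool.Agent.PQW.QUO
import Pool.Agent.PQW.SPR
import Pool.Agent.PQW.TIS
import Pool.Agent.PQW.TPX
import Pool.Agent.PQW.TVA
import Pool.Agent.PQW.VEC
import Pool.Agent.PQW.VEL
import Pool.Agent.PQW.VEQ
import Pool.Agent.PQW.VST
import Pool.Agent.PQW.YSH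

/-!
# PQW: assembly of all modules
-/

set_option autoImplicit false

namespace PQW

namespace Asm

open CUB LOWD

theorem c_GLO : S_GLO := t_GLO

theorem c_LOC : S_LOC := t_LOC LOWD.Asm.c_DIM1 LOWD.Asm.c_LENB LOWD.Asm.c_LENC LOWD.Asm.c_DVX c_GLO

theorem c_RON : S_RON := t_RON

theorem s_PWS : S_PWS := t_PWS

theorem s_HSOL : S_HSOL := t_HSOL LOWD.Asm.s_HTM

theorem s_VEL : S_VEL := t_VEL s_PWS

theorem s_VEQ : S_VEQ := t_VEQ s_PWS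

theorem s_VEC : S_VEC := t_VEC s_HSOL s_VEL s_VEQ

theorem s_NFL : S_NFL := t_NFL s_PWS

theorem s_NFQ : S_NFQ := t_NFQ s_PWS

theorem s_SPR : S_SPR := t_SPR

theorem s_LFT : S_LFT := t_LFT s_VEC s_NFL s_NFQ s_SPR

theorem s_LFA : S_LFA := t_LFA s_VEC s_NFL s_SPR

theorem s_FN1 : S_FN1 := t_FN1

theorem s_LYO : S_LYO := t_LYO

theorem s_FIS : S_FIS :=
  t_FIS LOWD.Asm.c_LENA LOWD.Asm.c_PUSH c_RON LOWD.Asm.s_FLD LOWD.Asm.s_FPR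

theorem s_TIS : S_TIS := t_TIS LOWD.Asm.c_PCO

theorem s_COV : S_COV := t_COV s_FN1 s_LYO s_FIS s_TIS

theorem s_FNP : S_FNP := t_FNP

theorem s_DEV : S_DEV := t_DEV s_TIS s_FIS

theorem s_TPX : S_TPX :=
  t_TPX LOWD.Asm.c_LENA LOWD.Asm.c_PUSH c_RON LOWD.Asm.c_FPX LOWD.Asm.c_FP LOWD.Asm.c_GX c_GLO
    c_LOC LOWD.Asm.c_PLIN LOWD.Asm.c_L0

theorem s_TVA : S_TVA := t_TVA s_TIS s_TPX

theorem s_YSH : S_YSH := t_YSH s_TIS

theorem s_OPN : S_OPN := t_OPN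

theorem s_CLO : S_CLO := t_CLO s_TIS s_TVA

theorem s_DST : S_DST := t_DST s_TPX s_OPN s_CLO

theorem s_BAS : S_BAS := t_BAS LOWD.Asm.s_ZER

theorem s_AST : S_AST := t_AST s_LFA s_FN1 s_TIS s_COV s_FNP s_DEV s_TVA

theorem s_VST : S_VST := t_VST s_LFT s_FN1 s_TIS s_COV s_FNP s_DEV s_YSH s_DST

theorem s_PQ : S_PQ := t_PQ s_BAS s_AST s_VST ASC.s_ASX t_BRI t_QUO s_TIS

end Asm

end PQW
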