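import Pool.Agent.LOWD.Stmts

/-!
# PQW: cycles of small dimension on affine varieties defined by polynomials of `p`-weight at most two (definitions)

`k` is a finite field of characteristic `p`, `R` a `k`-algebra of finite type, `f i` polynomials over `R` in the
variables `σ`.  The `p`-weight of a monomial is the sum of the digits in base `p` of its exponents.  THEOREM: if the
monomials of `f i` have `p`-weight at most `w i`, `w i ≤ 2`, and `2 l + ∑ w i < |σ|`, then every cycle of dimension `l` on
`Spec (R[σ] / (f i))` is rationally equivalent to zero modulo torsion.  See `PAPER.md`.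
-/

set_option autoImplicit false

open Polynomial

namespace PQW

open CUB LOWD

/-! ## 1. Weights -/

section Weights

variable {σ R : Type} [CommRing R]

/-- The `p`-weight of a monomial: the sum of the base `p` digits of the exponents. -/
def pw (p : ℕ) (m : σ →₀ ℕ) : ℕ := m.sum fun _ e => (Nat.digits p e).sum

/-- All monomials of `f` have `p`-weight at most `w`. -/
def PW (p w : ℕ) (f : MvPolynomial σ R) : Prop := ∀ m ∈ f.support, pw p m ≤ w

variable (σ R) in
/-- The additive polynomials: the span of the `X i ^ (p ^ a)`. -/
noncomputable def AA (p : ℕ) : Submodule R (MvPolynomial σ R) :=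
  Submodule.span R (Set.range fun x : σ × ℕ => (MvPolynomial.X x.1 : MvPolynomial σ R) ^ p ^ x.2)

variable (σ R) in
/-- The sums of a constant and an additive polynomial. -/
noncomputable def AF (p : ℕ) : Submodule R (MvPolynomial σ R) := 1 ⊔ AA σ R p

/-- The polynomial `v` in one variable is additive: its monomials are `X ^ (p ^ a)`. -/
def Ad (p : ℕ) (v : R[X]) : Prop := ∀ m ∈ v.support, ∃ a : ℕ, m = p ^ a

lemma PW.map {p w : ℕ} {f : MvPolynomial σ R} (h : PW p w f) {S : Type} [CommRing S]
    (φ : R →+* S) : PW p w (MvPolynomial.map φ f) :=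
  fun m hm => h m (MvPolynomial.support_map_subset _ _ hm)

lemma PW.mono {p w w' : ℕ} {f : MvPolynomial σ R} (h : PW p w f) (hw : w ≤ w') : PW p w' f :=
  fun m hm => (h m hm).trans hw

lemma PW.zero {p w : ℕ} : PW p w (0 : MvPolynomial σ R) := by
  intro m hm
  simp at hm

lemma PW.C {p w : ℕ} (c : R) : PW p w (MvPolynomial.C c : MvPolynomial σ R) := by
  classical
  intro m hm
  have h : m = 0 := by
    by_contra h0
    rw [MvPolynomial.mem_support_iff, MvPolynomial.coeff_C, if_neg (Ne.symm h0)] at hm
    exact hm rfl
  subst h
  simp [pw]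

end Weights

/-! ## 2. Systems -/

section Systems

variable {σ ι R : Type} [CommRing R]

/-- The equations `y ^ p - y - f(x) = 0`, `L i (x) = 0` in the variables `y = X none`, `x j = X (some j)`. -/
noncomputable def vF (p : ℕ) (f : MvPolynomial σ R) (L : ι → MvPolynomial σ R) :
    Option ι → MvPolynomial (Option σ) R
  | none => MvPolynomial.X none ^ p - MvPolynomial.X none - MvPolynomial.rename some f
  | some i => MvPolynomial.rename some (L i)

/-- The family `F` with one more member `a` (at `none`). -/
def cons {α : Type} (a : α) (F : ι → α) : Option ι → α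
  | none => a
  | some i => F i

@[simp] lemma cons_none {α : Type} (a : α) (F : ι → α) : cons a F none = a := rfl

@[simp] lemma cons_some {α : Type} (a : α) (F : ι → α) (i : ι) : cons a F (some i) = F i := rfl

/-- The family `F` over another ring. -/
noncomputable def FM {S : Type} [CommRing S] (φ : R →+* S) (F : ι → MvPolynomial σ R) :
    ι → MvPolynomial σ S := fun i => MvPolynomial.map φ (F i)

/-- The family `F` in other variables. -/
noncomputable def FR {τ : Type} (e : σ → τ) (F : ι → MvPolynomial σ R) :
    ι → MvPolynomial τ R := fun i => MvPolynomial.rename e (F i)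

lemma FM_vF {S : Type} [CommRing S] (φ : R →+* S) (p : ℕ) (f : MvPolynomial σ R)
    (L : ι → MvPolynomial σ R) :
    FM φ (vF p f L) = vF p (MvPolynomial.map φ f) (FM φ L) := by
  funext i
  cases i with
  | none => simp [FM, vF, MvPolynomial.map_rename]
  | some i => simp [FM, vF, MvPolynomial.map_rename]

lemma FM_FM {S T : Type} [CommRing S] [CommRing T] (φ : R →+* S) (ψ : S →+* T)
    (F : ι → MvPolynomial σ R) : FM ψ (FM φ F) = FM (ψ.comp φ) F := by
  funext i
  exact MvPolynomial.map_map _ _ _

open Classical in
/-- The substitution `x a = v a (t)`, `x j = w j ^ (p ^ B) + v j (t)` for `j ≠ a`, where `t = X a` and `w j = X j`. -/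
noncomputable def Phi (p : ℕ) (a : σ) (v : σ → R[X]) (B : ℕ) : σ → MvPolynomial σ R :=
  fun j => (if j = a then 0 else MvPolynomial.X j ^ p ^ B) +
    Polynomial.aeval (MvPolynomial.X a : MvPolynomial σ R) (v j)

/-- The same substitution, with the additional variable `y`. -/
noncomputable def PhiO (p : ℕ) (a : σ) (v : σ → R[X]) (B : ℕ) :
    MvPolynomial (Option σ) R →ₐ[R] MvPolynomial (Option σ) R :=
  MvPolynomial.aeval fun j => match j with
    | none => MvPolynomial.X none
    | some j => MvPolynomial.rename some (Phi p a v B j)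

/-- The polynomial `f0(w) + t * Lambda(w)` in the variables `σ`, where `t = X a`. -/
noncomputable def nf (a : σ) (f0 La : MvPolynomial {j : σ // j ≠ a} R) : MvPolynomial σ R :=
  MvPolynomial.rename Subtype.val f0 + MvPolynomial.X a * MvPolynomial.rename Subtype.val La

end Systems

/-! ## 3. Cycles -/

/-- Every cycle of dimension `l` on `Spec A` is rationally equivalent to zero (coefficients `E`). -/
def Triv (k A E : Type) [Field k] [CommRing A] [Algebra k A] [Field E] (l : ℕ) : Prop :=
  ∀ c : RP k A l →₀ E, c ∈ rat k A E l

/-- `B` is a finite `A`-algebra outside the closed subset `V(h)`. -/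
def Fin1 {A B : Type} [CommRing A] [CommRing B] (φ : A →+* B) (h : A) : Prop :=
  ∃ M : Finset B, ∀ b : B, ∃ (s : ℕ) (c : B → A), φ h ^ s * b = ∑ m ∈ M, φ (c m) * m

/-- The statement for systems of equations of `p`-weight at most one, in dimension `l`: if `S` contains the indices of
the non-constant equations, and `l + |S| < |σ|`, then every cycle of dimension `l` is trivial. -/
def TA (l : ℕ) : Prop := ∀ (k R E σ ι : Type) [Field k] [Finite k] [CommRing R] [Algebra k R]
  [Algebra.FiniteType k R] [Field E] [CharZero E] [Fintype σ] [Fintype ι] (p : ℕ)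
  [Fact p.Prime] [CharP k p] (L : ι → MvPolynomial σ R) (S : Finset ι), (∀ i, PW p 1 (L i)) →
  (∀ i, i ∉ S → ∃ c : R, L i = MvPolynomial.C c) → l + S.card < Fintype.card σ →
  Triv k (AR L) E l

/-- The statement for the systems `y ^ p - y = f`, `L i = 0`, in dimension `l`. -/
def TV (l : ℕ) : Prop := ∀ (k R E σ ι : Type) [Field k] [Finite k] [CommRing R] [Algebra k R]
  [Algebra.FiniteType k R] [Field E] [CharZero E] [Fintype σ] [Fintype ι] (p : ℕ)
  [Fact p.Prime] [CharP k p] (f : MvPolynomial σ R) (L : ι → MvPolynomial σ R) (S : Finset ι),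
  PW p 2 f → (∀ i, PW p 1 (L i)) → (∀ i, i ∉ S → ∃ c : R, L i = MvPolynomial.C c) →
  2 * l + S.card < Fintype.card σ → Triv k (AR (vF p f L)) E l

end PQW
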