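import Pool.Agent.PQW.Stmts

/-!
# PQW: equality up to `g ^ p - g` (lemmas for VEQ and NFQ)
-/

set_option autoImplicit false

open Polynomial Pointwise

namespace PQW

open CUB LOWD

namespace EqP

/-- `P` and `Q` differ by an element of the form `g ^ p - g`. -/
def Eqp (p : ℕ) {A : Type} [CommRing A] (P Q : A) : Prop := ∃ g : A, P = Q + (g ^ p - g)

section

variable {p : ℕ} [Fact p.Prime] {A : Type} [CommRing A] [CharP A p]

lemma Eqp.refl (P : A) : Eqp p P P :=
  ⟨0, by rw [zero_pow (Fact.out : p.Prime).ne_zero]; ring⟩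

omit [Fact p.Prime] [CharP A p] in
lemma Eqp.of_eq [Fact p.Prime] {P Q : A} (h : P = Q) : Eqp p P Q :=
  ⟨0, by rw [zero_pow (Fact.out : p.Prime).ne_zero, h]; ring⟩

lemma Eqp.add {P Q P' Q' : A} (h : Eqp p P Q) (h' : Eqp p P' Q') : Eqp p (P + P') (Q + Q') := by
  obtain ⟨g, hg⟩ := h
  obtain ⟨g', hg'⟩ := h'
  refine ⟨g + g', ?_⟩
  rw [add_pow_char g g' p, hg, hg']
  ring

lemma Eqp.trans {P Q R : A} (h : Eqp p P Q) (h' : Eqp p Q R) : Eqp p P R := by
  obtain ⟨g, hg⟩ := h
  obtain ⟨g', hg'⟩ := h'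
  refine ⟨g + g', ?_⟩
  rw [add_pow_char g g' p, hg, hg']
  ring

lemma Eqp.symm {P Q : A} (h : Eqp p P Q) : Eqp p Q P := by
  obtain ⟨g, hg⟩ := h
  refine ⟨-g, ?_⟩
  have h1 : (-g) ^ p = - g ^ p := by
    have h2 := sub_pow_char (0 : A) g (p := p)
    rwa [zero_sub, zero_pow (Fact.out : p.Prime).ne_zero, zero_sub] at h2
  rw [h1, hg]
  ring

lemma Eqp.sum {ι : Type} (s : Finset ι) {P Q : ι → A} (h : ∀ i ∈ s, Eqp p (P i) (Q i)) :
    Eqp p (∑ i ∈ s, P i) (∑ i ∈ s, Q i) := by
  classical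
  induction s using Finset.induction_on with
  | empty => simpa using Eqp.refl (0 : A)
  | insert a s ha ih =>
    rw [Finset.sum_insert ha, Finset.sum_insert ha]
    exact (h a (Finset.mem_insert_self a s)).add
      (ih fun i hi => h i (Finset.mem_insert_of_mem hi))

omit [Fact p.Prime] [CharP A p] in
lemma Eqp.pow_p (P : A) : Eqp p (P ^ p) P := ⟨P, by ring⟩

lemma Eqp.pow (P : A) (s : ℕ) : Eqp p (P ^ p ^ s) P := by
  induction s with
  | zero => simpa using Eqp.refl P
  | succ s ih =>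
    rw [pow_succ, pow_mul]
    exact (Eqp.pow_p (P ^ p ^ s)).trans ih

omit [Fact p.Prime] [CharP A p] in
lemma Eqp.map {B : Type} [CommRing B] (φ : A →+* B) {P Q : A} (h : Eqp p P Q) :
    Eqp p (φ P) (φ Q) := by
  obtain ⟨g, hg⟩ := h
  exact ⟨φ g, by rw [hg, map_add, map_sub, map_pow]⟩

end

section AF

variable {σ R : Type} [CommRing R]

variable (σ R) in
/-- The generators of the polynomials of weight at most one. -/
def gen (p : ℕ) : Set (MvPolynomial σ R) :=
  {1} ∪ Set.range fun x : σ × ℕ => (MvPolynomial.X x.1 : MvPolynomial σ R) ^ p ^ x.2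

lemma AF_eq (p : ℕ) : AF σ R p = Submodule.span R (gen σ R p) := by
  rw [AF, AA, gen, Submodule.span_union, Submodule.one_eq_span]

lemma AFF_eq (p : ℕ) : AF σ R p * AF σ R p = Submodule.span R (gen σ R p * gen σ R p) := by
  rw [AF_eq, Submodule.span_mul_span]

lemma one_mem_AF (p : ℕ) : (1 : MvPolynomial σ R) ∈ AF σ R p := by
  rw [AF_eq]
  exact Submodule.subset_span (Or.inl rfl)

lemma X_mem_AF (p : ℕ) (i : σ) (m : ℕ) :
    (MvPolynomial.X i : MvPolynomial σ R) ^ p ^ m ∈ AF σ R p := by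
  rw [AF_eq]
  exact Submodule.subset_span (Or.inr ⟨(i, m), rfl⟩)

lemma C_mem_AF (p : ℕ) (c : R) : (MvPolynomial.C c : MvPolynomial σ R) ∈ AF σ R p := by
  have h := (AF σ R p).smul_mem c (one_mem_AF p)
  rwa [MvPolynomial.smul_eq_C_mul, mul_one] at h

lemma AF_le (p : ℕ) : AF σ R p ≤ AF σ R p * AF σ R p := by
  intro x hx
  have h := Submodule.mul_mem_mul hx (one_mem_AF (σ := σ) (R := R) p)
  rwa [mul_one] at h

/-- Induction for the polynomials of weight at most two. -/
lemma AFF_induction (p : ℕ) {P : MvPolynomial σ R → Prop}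
    (h0 : ∀ c : R, P (MvPolynomial.C c))
    (h1 : ∀ (c : R) (i : σ) (m : ℕ), P (MvPolynomial.C c * MvPolynomial.X i ^ p ^ m))
    (h2 : ∀ (c : R) (i j : σ) (m n : ℕ),
      P (MvPolynomial.C c * (MvPolynomial.X i ^ p ^ m * MvPolynomial.X j ^ p ^ n)))
    (hadd : ∀ f g, P f → P g → P (f + g)) {f : MvPolynomial σ R}
    (hf : f ∈ AF σ R p * AF σ R p) : P f := by
  rw [AFF_eq] at hf
  have key : ∀ c : R, P (MvPolynomial.C c * f) := by
    induction hf using Submodule.span_induction with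
    | mem x hx =>
      intro c
      obtain ⟨s, hs, t, ht, rfl⟩ := hx
      rcases hs with hs | ⟨⟨i, m⟩, rfl⟩
      · rw [Set.mem_singleton_iff] at hs
        subst hs
        rcases ht with ht | ⟨⟨j, n⟩, rfl⟩
        · rw [Set.mem_singleton_iff] at ht
          subst ht
          simpa using h0 c
        · simpa using h1 c j n
      · rcases ht with ht | ⟨⟨j, n⟩, rfl⟩
        · rw [Set.mem_singleton_iff] at ht
          subst ht
          simpa using h1 c i m
        · exact h2 c i j m n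
    | zero =>
      intro c
      have h := h0 0
      rw [map_zero] at h
      rwa [mul_zero]
    | add x y _ _ hx hy =>
      intro c
      rw [mul_add]
      exact hadd _ _ (hx c) (hy c)
    | smul b x _ hx =>
      intro c
      rw [MvPolynomial.smul_eq_C_mul, ← mul_assoc, ← MvPolynomial.C_mul]
      exact hx (c * b)
  have h := key 1
  rwa [MvPolynomial.C_1, one_mul] at h

end AF

end EqP

end PQW
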