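import Pool.Agent.PQW.Defs

/-!
# PQW: statements

Module `X` proves `theorem t_X : M_X` (or `t_X : S_X` if there is no `M_X`) in the namespace `PQW`, in the file
`Pool/Agent/PQW/X.lean`, importing this file.  The hypotheses of `M_X` are statements of other modules (of this file, of
`LOWD/Stmts.lean` or of `CUB`).  Definitions: `rdim`, `RP`, `len`, `rat`, `push`, `IsPull`, `Good` in `CUB/Defs.lean`; `AR`, `FinOn` in
`LOWD/Defs.lean`; `pw`, `PW`, `AA`, `AF`, `Ad`, `vF`, `cons`, `FM`, `FR`, `Phi`, `PhiO`, `nf`, `Triv`, `Fin1`, `TA`, `TV` in `PQW/Defs.lean`.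
-/

set_option autoImplicit false

open Polynomial

namespace PQW

open CUB LOWD

/-! ## 1. Algebra over an algebraically closed field -/

/-- PWS. The span description. Digits: the digit sum of `e` is `0` iff `e = 0`; `1` iff `e = p ^ a` (induction on `e` with `e = p * (e / p) + e % p`, `Nat.digits_def'`: the last digit is `1` and `e / p = 0`, or the last digit is `0`); if it is at most `2` then `e = 0`, `e = p ^ a` or `e = p ^ a + p ^ b`;
conversely the digit sum of `p ^ a` is `1` and the one of `p ^ a + p ^ b` is at most `2` (`2 p ^ a` has digit sum `2` for `p > 2` and `1` for `p = 2`; or: the digit sum is subadditive; it is enough: for `a < b` use `Nat.digits_append_digits`-like lemmas, or induction on `min a b`, dividing by `p`).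
So a monomial of weight `≤ 1` is `1` or `X i ^ (p ^ a)` and a monomial of weight `≤ 2` is `1`, `X i ^ (p ^ a)`, or `X i ^ (p ^ a) * X j ^ (p ^ b)` (`i = j` allowed). `f` is the sum of its monomials. Conversely `PW p w` is closed under sums and multiples (`support_add`, `support_smul`), and the elements of `AF * AF` are sums of products
`f g`, `f, g ∈ AF`, so sums of multiples of products of two generators (`Submodule.mul_induction_on`, `Submodule.span_induction`). -/
def S_PWS : Prop := ∀ (σ R : Type) [CommRing R] (p : ℕ) [Fact p.Prime] (f : MvPolynomial σ R),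
  (PW p 0 f ↔ ∃ c : R, f = MvPolynomial.C c) ∧ (PW p 1 f ↔ f ∈ AF σ R p) ∧
  (PW p 2 f ↔ f ∈ AF σ R p * AF σ R p)

/-- HSOL. Fewer forms of positive degree than variables have a nonzero common zero. Let `m` be the ideal of the polynomials vanishing at the origin (the kernel of the evaluation at `0`), a maximal ideal, `F i ∈ m`. S_HTM gives a prime `q < m` containing all `F i`. Some variable `X j` is not in `q` (otherwise `m ≤ q`). By the Nullstellensatz
(`MvPolynomial.IsPrime.vanishingIdeal_zeroLocus` or similar) there is a zero `w` of `q` with `w j ≠ 0`. (Compare `LOWD/KRU.lean`.) -/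
def S_HSOL : Prop := ∀ (K σ κ : Type) [Field K] [IsAlgClosed K] [Fintype σ] [Fintype κ]
  (F : κ → MvPolynomial σ K) (e : κ → ℕ), (∀ i, (F i).IsHomogeneous (e i)) → (∀ i, 0 < e i) →
  Fintype.card κ < Fintype.card σ →
  ∃ w : σ → K, w ≠ 0 ∧ ∀ i, MvPolynomial.eval w (F i) = 0

def M_HSOL : Prop := S_HTM → S_HSOL

/-- VEL (linear part of VEC). Let `v_u j = ∑_{a ≤ N} (C (u (j, a)) * X) ^ (p ^ a)` for `u : σ × Fin (N + 1) → K`. For `L` of weight `≤ 1` there are `H` and for all `N` and `m : ℕ` forms `F m` of degree `p ^ m` in the variables `σ × Fin (N + 1)`, with `F m = 0` for `m ≥ N + H`, such that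
`L(v_u) = C (L(0)) + ∑_{m < N + H} C (F m (u)) X ^ (p ^ m)` for all `u`. By S_PWS `L = C c + ∑ b_r X_(i_r) ^ (p ^ (a_r))`, a finite sum, `H` larger than all `a_r`; `(v_u i) ^ (p ^ a') = ∑_a (C (u (i, a)) X) ^ (p ^ (a + a'))` (characteristic `p`), so `F m = ∑_r ∑_{a + a_r = m} C b_r * X (i_r, a) ^ (p ^ m)`. -/
def S_VEL : Prop := ∀ (K σ : Type) [Field K] [IsAlgClosed K] (p : ℕ) [Fact p.Prime] [CharP K p]
  (L : MvPolynomial σ K), PW p 1 L → ∃ H : ℕ, ∀ N : ℕ, ∃ F : ℕ → MvPolynomial (σ × Fin (N + 1)) K,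
  (∀ m, (F m).IsHomogeneous (p ^ m)) ∧ ∀ u : σ × Fin (N + 1) → K,
    MvPolynomial.aeval (fun j : σ => ∑ a : Fin (N + 1), (C (u (j, a)) * X : K[X]) ^ p ^ (a : ℕ)) L =
      C (MvPolynomial.constantCoeff L) +
        ∑ m ∈ Finset.range (N + H), C (MvPolynomial.eval u (F m)) * X ^ p ^ m

def M_VEL : Prop := S_PWS → S_VEL

/-- VEQ (quadratic part of VEC). With `v_u` as in S_VEL, for `f` of weight `≤ 2` there are `H` and for all `N` a linear form `l` and forms `F e` of degree `1 + p ^ e` such that for all `u` there is `g ∈ K[X]` with `f(v_u) = C (f(0)) + C (l(u)) X + ∑_{e < N + H} C (F e (u)) X ^ (1 + p ^ e) + g ^ p - g`.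
Write `P ≈ Q` if `P - Q = g ^ p - g` for some `g`: an equivalence relation, stable under sums, and `P ^ p ≈ P`, so `P ^ (p ^ s) ≈ P`. By S_PWS (and for instance `Finsupp.mem_span_range_iff_exists_finsupp` for the generators `1`, `X i ^ (p ^ a')`, `X i ^ (p ^ a') * X j ^ (p ^ b')`) `f` is a finite sum of terms `C c`, `C c * X i ^ (p ^ a')`, `C c * X i ^ (p ^ a') * X j ^ (p ^ b')`; the statement is stable
under sums (add the forms; `H` the maximum), so treat one term. (1) `C c * (v_u i) ^ (p ^ a') = ∑_a C c * (C u_(i,a) X) ^ (p ^ (a + a'))` and `C c * P ^ (p ^ s) = (C γ * P) ^ (p ^ s) ≈ C γ * P`, where `γ ^ (p ^ s) = c` (`IsAlgClosed.exists_pow_nat_eq`): so `l = ∑_a C γ_(a + a') * X (i, a)`. (2) `C c * (v_u i) ^ (p ^ a') * (v_u j) ^ (p ^ b')` is the sum over `a, b` of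
`C c * P ^ (p ^ α) * Q ^ (p ^ β)`, `P = C u_(i,a) X`, `Q = C u_(j,b) X`, `α = a + a'`, `β = b + b'`; for `α ≤ β`, `e = β - α`, it is `(C γ * P * Q ^ (p ^ e)) ^ (p ^ α) ≈ C (γ u_(i,a) u_(j,b) ^ (p ^ e)) * X ^ (1 + p ^ e)`; for `β < α` exchange the roles. So `F e` is a sum of terms `C γ * X (i, a) * X (j, b) ^ (p ^ e)`, homogeneous of degree `1 + p ^ e`; `e < N + H` if `H > a', b'`. -/
def S_VEQ : Prop := ∀ (K σ : Type) [Field K] [IsAlgClosed K] (p : ℕ) [Fact p.Prime] [CharP K p]
  (f : MvPolynomial σ K), PW p 2 f → ∃ H : ℕ, ∀ N : ℕ, ∃ (l : MvPolynomial (σ × Fin (N + 1)) K)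
  (F : ℕ → MvPolynomial (σ × Fin (N + 1)) K), l.IsHomogeneous 1 ∧
  (∀ e, (F e).IsHomogeneous (1 + p ^ e)) ∧ ∀ u : σ × Fin (N + 1) → K, ∃ g : K[X],
    MvPolynomial.aeval (fun j : σ => ∑ a : Fin (N + 1), (C (u (j, a)) * X : K[X]) ^ p ^ (a : ℕ)) f =
      C (MvPolynomial.constantCoeff f) + C (MvPolynomial.eval u l) * X +
        ∑ e ∈ Finset.range (N + H), C (MvPolynomial.eval u (F e)) * X ^ (1 + p ^ e) + (g ^ p - g)

def M_VEQ : Prop := S_PWS → S_VEQ

/-- VEC. Isotropic additive curves. Take one `H` for `f` and all `L i` (S_VEL, S_VEQ; the maximum: the forms beyond are not needed, but for different `H i` just use the index set `Σ i, Fin (N + H i)`), `s = |ι|`. (2) The conditions `F_i m (u) = 0` (`m < N + H_i`), `l(u) = 0`, `F e (u) = 0` (`e < N + H`) are at most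
`(s + 1) (N + H) + 1` forms of positive degree in `|σ| (N + 1) ≥ (s + 2) (N + 1)` variables: fewer if `N ≥ (s + 1) H + 1`. S_HSOL gives `u ≠ 0`, and `v = v_u`. `v_u j` is a polynomial in `X ^ (p ^ a)`, so `Ad`; `u (j, a) ≠ 0` implies that its coefficient `u (j, a) ^ (p ^ a)` at `p ^ a` is not zero (`a ↦ p ^ a` is injective), so `v ≠ 0`.
(1) The same with the `s (N + H)` conditions of the `L i` and `|σ| ≥ s + 1`. -/
def S_VEC : Prop := ∀ (K σ ι : Type) [Field K] [IsAlgClosed K] (p : ℕ) [Fact p.Prime]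
  [CharP K p] [Fintype σ] [Fintype ι] (L : ι → MvPolynomial σ K), (∀ i, PW p 1 (L i)) →
  (Fintype.card ι < Fintype.card σ → ∃ v : σ → K[X], v ≠ 0 ∧ (∀ j, Ad p (v j)) ∧
    ∀ i, MvPolynomial.aeval v (L i) = C (MvPolynomial.constantCoeff (L i))) ∧
  ∀ f : MvPolynomial σ K, PW p 2 f → Fintype.card ι + 1 < Fintype.card σ →
    ∃ v : σ → K[X], v ≠ 0 ∧ (∀ j, Ad p (v j)) ∧
      (∀ i, MvPolynomial.aeval v (L i) = C (MvPolynomial.constantCoeff (L i))) ∧
      ∃ g : K[X], MvPolynomial.aeval v f = C (MvPolynomial.constantCoeff f) + (g ^ p - g)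

def M_VEC : Prop := S_HSOL → S_VEL → S_VEQ → S_VEC

/-- NFL. Normal form, additive part. In characteristic `p` an element `L = C c + ℓ` of `AF`, `ℓ ∈ AA` (S_PWS), satisfies `L(x + x') = L(x) + ℓ(x')` for all `x, x'` in a `K`-algebra (check it for `X i ^ (p ^ a)`). `Phi j = V j + W j`, `V j = v j (X a)`, `W a = 0`, `W j = X j ^ (p ^ B)`. `L(V) = C c` (apply `X ↦ X a` to `aeval v L = C c`), so `L(Phi) = C c + ℓ(W)`, and
`C c + ℓ(W) = L(W)` is the image of `L0 = C c + ℓ(W')`, `W' a = 0`, `W' j = X j ^ (p ^ B)` in the variables `j ≠ a`, which is in `AF` (`(X j ^ (p ^ B)) ^ (p ^ b) = X j ^ (p ^ (B + b))`). If `L = C c` then `L0 = C c`. -/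
def S_NFL : Prop := ∀ (K σ : Type) [Field K] (p : ℕ) [Fact p.Prime] [CharP K p]
  (a : σ) (v : σ → K[X]) (B : ℕ) (L : MvPolynomial σ K), PW p 1 L →
  MvPolynomial.aeval v L = C (MvPolynomial.constantCoeff L) →
  ∃ L0 : MvPolynomial {j : σ // j ≠ a} K, PW p 1 L0 ∧
    (∀ c, L = MvPolynomial.C c → L0 = MvPolynomial.C c) ∧
    MvPolynomial.aeval (Phi p a v B) L = MvPolynomial.rename Subtype.val L0

def M_NFL : Prop := S_PWS → S_NFL

/-- NFQ. Normal form, quadratic part. `≈` as in S_VEQ, now in `K[σ]`. `f` is a finite sum of terms `C c`, `C c X i ^ (p ^ a')`, `C c X i ^ (p ^ a') X j ^ (p ^ b')` (S_PWS). With `V, W` as in S_NFL (`B` to be chosen): `(V i + W i) ^ (p ^ a') = V i ^ (p ^ a') + W i ^ (p ^ a')`, so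
`f(V + W) = f(V) + f(W) - C c0 + D`, `c0 = f(0)`, where `D` is the sum over the quadratic terms of `C c * (V i ^ (p ^ a') * W j ^ (p ^ b') + W i ^ (p ^ a') * V j ^ (p ^ b'))`. `f(V) ≈ C c0` (apply `X ↦ X a` to the hypothesis). `f(W)` is the image of a polynomial `f0 ∈ AF * AF` in the variables `j ≠ a`. CLAIM: `D ≈ X a * (image of an element of AA)` if `B` is large:
the set of the `F` with this property is closed under sums, and with `V i = ∑_s ν_s (X a) ^ (p ^ s)` (`v i` is `Ad`) it is enough to treat `C c' * (X a) ^ (p ^ m) * X j ^ (p ^ (B + b'))`, `m = s + a' ≤ B`, `j ≠ a`: it is `(C γ * X a * X j ^ (p ^ (B + b' - m))) ^ (p ^ m) ≈ C γ * X a * X j ^ (p ^ (B + b' - m))`, `γ ^ (p ^ m) = c'`. `B` = the maximum of the `s + a'` which occur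
(`s ≤ natDegree (v i)`). -/
def S_NFQ : Prop := ∀ (K σ : Type) [Field K] [IsAlgClosed K] [Finite σ] (p : ℕ) [Fact p.Prime]
  [CharP K p] (a : σ) (v : σ → K[X]) (f : MvPolynomial σ K), (∀ j, Ad p (v j)) → PW p 2 f →
  (∃ g : K[X], MvPolynomial.aeval v f = C (MvPolynomial.constantCoeff f) + (g ^ p - g)) →
  ∃ (B : ℕ) (G : MvPolynomial σ K) (f0 La : MvPolynomial {j : σ // j ≠ a} K),
    PW p 2 f0 ∧ PW p 1 La ∧
    MvPolynomial.aeval (Phi p a v B) f = nf a f0 La + (G ^ p - G)

def M_NFQ : Prop := S_PWS → S_NFQ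

/-! ## 2. Spreading out -/

/-- SPR. `K` is a field, algebraic over the domain `T ⊆ K`. Every `x ∈ F` satisfies `a_x x ^ n + ... = 0` with coefficients in `T` and `a_x ≠ 0`; `h` = the product of the `a_x`, `T'` = the subalgebra generated by `F`, `M` = the monomials in the elements of `F` with exponents `< n_x`. By induction on the total degree
`h ^ s` times a monomial in the elements of `F` is a combination of the elements of `M` with coefficients in `T`, for some `s`; a finite sum of such elements has the same property (take the maximum of the `s`). (Induction on `F` is also possible: compose two such extensions, with `h` the product.) -/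
def S_SPR : Prop := ∀ (T K : Type) [CommRing T] [IsDomain T] [Field K] [Algebra T K]
  [FaithfulSMul T K] [Algebra.IsAlgebraic T K] (F : Finset K),
  ∃ (h : T) (T' : Subalgebra T K), h ≠ 0 ∧ (F : Set K) ⊆ T' ∧ Algebra.FiniteType T T' ∧
    Fin1 (algebraMap T T') h

/-- LFT. Everything over a finite extension of a domain. `K = AlgebraicClosure (FractionRing T)`, algebraically closed, algebraic over `T`, of characteristic `p`. Let `f_K`, `L_K i` be the images over `K`. Apply S_VEC (2) to `f_K` and the `L_K i`, `i ∈ S` (`ι := {i // i ∈ S}`): `v ≠ 0`; for `i ∉ S` the condition on `L_K i`, a constant, is automatic. Choose `a` with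
`v a ≠ 0`. S_NFQ gives `B, G, f0, La`, S_NFL gives the `L0 i`. Let `F` be the (finite) set of all coefficients of all these polynomials, and the inverse of the leading coefficient of `v a`. S_SPR gives `h` and `T' ⊆ K`. All these polynomials are images of polynomials over `T'` (same supports, since `T' → K` is injective: `MvPolynomial.map` has image the polynomials with coefficients in
the range, `MvPolynomial.mem_range_map_iff_coeffs_subset` or similar; `Polynomial.lifts`...), and the identities hold over `T'` since `MvPolynomial.map` of the injective `T' → K` is injective (`MvPolynomial.map_injective`). `0 < natDegree (v a)`, since `v a ≠ 0` is a combination of the `X ^ (p ^ s)`, `p ^ s > 0`. `T'` is of finite type over `k` (transitivity). `L i = C c` implies `L0 i = C (image of c)`: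
in `K`, `L0 i = C c` by S_NFL, and for `i ∉ S` this gives the constant in `T'`. -/
def S_LFT : Prop := ∀ (k T σ ι : Type) [Field k] [CommRing T] [IsDomain T] [Algebra k T]
  [Algebra.FiniteType k T] [Fintype σ] [Fintype ι] (p : ℕ) [Fact p.Prime] [CharP k p]
  (f : MvPolynomial σ T) (L : ι → MvPolynomial σ T) (S : Finset ι), PW p 2 f →
  (∀ i, PW p 1 (L i)) → (∀ i, i ∉ S → ∃ c : T, L i = MvPolynomial.C c) →
  S.card + 1 < Fintype.card σ →
  ∃ (T' : Type) (_ : CommRing T') (_ : IsDomain T') (_ : Algebra k T')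
    (_ : Algebra.FiniteType k T') (φ : T →ₐ[k] T') (h : T) (a : σ) (v : σ → T'[X]) (B : ℕ)
    (G : MvPolynomial σ T') (f0 La : MvPolynomial {j : σ // j ≠ a} T')
    (L0 : ι → MvPolynomial {j : σ // j ≠ a} T'), h ≠ 0 ∧ Function.Injective φ ∧
    Fin1 φ.toRingHom h ∧ IsUnit (v a).leadingCoeff ∧ 0 < (v a).natDegree ∧ PW p 2 f0 ∧
    PW p 1 La ∧ (∀ i, PW p 1 (L0 i)) ∧ (∀ i, i ∉ S → ∃ c : T', L0 i = MvPolynomial.C c) ∧
    MvPolynomial.aeval (Phi p a v B) (MvPolynomial.map φ.toRingHom f) =
      nf a f0 La + (G ^ p - G) ∧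
    ∀ i, MvPolynomial.aeval (Phi p a v B) (MvPolynomial.map φ.toRingHom (L i)) =
      MvPolynomial.rename Subtype.val (L0 i)

def M_LFT : Prop := S_VEC → S_NFL → S_NFQ → S_SPR → S_LFT

/-- LFA. The same for systems without `f`, from S_VEC (1), S_NFL (with `B = 0`), S_SPR; the same proof. -/
def S_LFA : Prop := ∀ (k T σ ι : Type) [Field k] [CommRing T] [IsDomain T] [Algebra k T]
  [Algebra.FiniteType k T] [Fintype σ] [Fintype ι] (p : ℕ) [Fact p.Prime] [CharP k p]
  (L : ι → MvPolynomial σ T) (S : Finset ι),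
  (∀ i, PW p 1 (L i)) → (∀ i, i ∉ S → ∃ c : T, L i = MvPolynomial.C c) →
  S.card < Fintype.card σ →
  ∃ (T' : Type) (_ : CommRing T') (_ : IsDomain T') (_ : Algebra k T')
    (_ : Algebra.FiniteType k T') (φ : T →ₐ[k] T') (h : T) (a : σ) (v : σ → T'[X])
    (L0 : ι → MvPolynomial {j : σ // j ≠ a} T'), h ≠ 0 ∧ Function.Injective φ ∧
    Fin1 φ.toRingHom h ∧ IsUnit (v a).leadingCoeff ∧ 0 < (v a).natDegree ∧
    (∀ i, PW p 1 (L0 i)) ∧ (∀ i, i ∉ S → ∃ c : T', L0 i = MvPolynomial.C c) ∧
    ∀ i, MvPolynomial.aeval (Phi p a v 0) (MvPolynomial.map φ.toRingHom (L i)) =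
      MvPolynomial.rename Subtype.val (L0 i)

def M_LFA : Prop := S_VEC → S_NFL → S_SPR → S_LFA

/-! ## 3. Finite homomorphisms -/

/-- FN1. (1) An element of `span {h}` is `x h`, and `φ (x h) ^ s * b = ∑ φ (x ^ s c(m)) m`. (2) If `P → P'` is `Fin1` and `I` is mapped into `I'` then so is the quotient map: take the image of `M`. (Here `I' = I.map Φ` is used.) (3) Polynomials: the same finite set `M` of constants; a polynomial has finitely many coefficients, take the maximum `s` of the exponents
(multiply `c` by powers of `h`). -/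
def S_FN1 : Prop :=
  (∀ (k A B : Type) [Field k] [CommRing A] [CommRing B] [Algebra k A] [Algebra k B]
    (φ : A →ₐ[k] B) (h : A), Fin1 φ.toRingHom h → FinOn φ (Ideal.span {h})) ∧
  (∀ (P P' : Type) [CommRing P] [CommRing P'] (Φ : P →+* P') (h : P) (I : Ideal P), Fin1 Φ h →
    Fin1 (Ideal.quotientMap (I.map Φ) Φ Ideal.le_comap_map : P ⧸ I →+* P' ⧸ I.map Φ)
      (Ideal.Quotient.mk I h)) ∧
  (∀ (T T' σ : Type) [CommRing T] [CommRing T'] (φ : T →+* T') (h : T), Fin1 φ h →
    Fin1 (MvPolynomial.map (σ := σ) φ) (MvPolynomial.C h))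

/-- LYO. Lying over outside `V(h)`. The localisation `A_h → B_h` (at the powers of `h` and of `φ h`) is a finite, so integral, homomorphism: `B_h` is generated by `M` as a module over `A_h`. Its kernel is contained in the prime `p A_h` (if `φ(a) h ^ s = 0` then `a h ^ s ∈ ker φ ⊆ p`, `h ∉ p`), so there is a prime of `B_h` over `p A_h`
(`Ideal.exists_ideal_over_prime_of_isIntegral` or similar), and its preimage in `B` lies over `p`. Without localisation: the set of `φ(A ∖ p) h ^ s` does not meet `p B` by the determinant trick. -/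
def S_LYO : Prop := ∀ (A B : Type) [CommRing A] [CommRing B] (φ : A →+* B) (h : A), Fin1 φ h →
  ∀ p : PrimeSpectrum A, RingHom.ker φ ≤ p.asIdeal → h ∉ p.asIdeal →
  ∃ q : PrimeSpectrum B, PrimeSpectrum.comap φ q = p

/-- FIS. Finite covers outside `V(J)`. It is enough to treat `[p]`, `p ∈ RP k A l` (a cycle is a combination of these). (a) `J ≤ p`: by S_PUSH (4) for `A → A / J` the cycle `[p]` is the push-forward of a cycle of `A / J`, which is in `rat`, so `[p] ∈ ratOn (ker)` by S_PUSH (3), and in `rat` (S_RON). (b) `J ≰ p`: `φ`, `q` as given; `q` has dimension `l` by S_FLD, and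
`[q] ∈ rat`; S_FPR for `z' = [q]` gives `z ∈ rat` with `z p = dg φ q`, and `z p' = 0` for `p' ≠ p` with `J ≰ p'`. So `z - dg φ q • [p]` is supported on `V(J)`, and in `rat` by (a). `dg φ q ≠ 0` (S_FLD), `CharZero E`. -/
def S_FIS : Prop := ∀ (k A E : Type) [Field k] [CommRing A] [Algebra k A]
  [Algebra.FiniteType k A] [Field E] [CharZero E] (J : Ideal A) (l : ℕ),
  (∀ p : RP k A l, ¬ J ≤ p.1.asIdeal → ∃ (B : Type) (_ : CommRing B) (_ : Algebra k B)
    (_ : Algebra.FiniteType k B) (φ : A →ₐ[k] B) (q : PrimeSpectrum B), FinOn φ J ∧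
    PrimeSpectrum.comap φ.toRingHom q = p.1 ∧ Triv k B E l) →
  Triv k (A ⧸ J) E l → Triv k A E l

def M_FIS : Prop := S_LENA → S_PUSH → S_RON → S_FLD → S_FPR → S_FIS

/-- TIS. Isomorphisms, and the zero ring. `c = push e (c')` for a cycle `c'` of `B` (`push` along an isomorphism is surjective, the primes correspond), and S_PCO (3). If `A` is the zero ring there are no primes, `c = 0`. -/
def S_TIS : Prop := (∀ (k A B E : Type) [Field k] [CommRing A] [CommRing B] [Algebra k A]
  [Algebra k B] [Field E] (e : A ≃ₐ[k] B) (l : ℕ), Triv k B E l → Triv k A E l) ∧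
  ∀ (k A E : Type) [Field k] [CommRing A] [Algebra k A] [Field E] (l : ℕ), Subsingleton A →
    Triv k A E l

def M_TIS : Prop := S_PCO → S_TIS

/-- COV. Covers of closed subschemes. `A = P / I`, `J` generated by the class of `h`, `B = P' / I P'`, `φ` the induced homomorphism, `FinOn φ J` by S_FN1 (2), (1). Let `p ∈ Spec A`, `h ∉ p`, `𝔮` its preimage in `P`: `I ≤ 𝔮`, `h ∉ 𝔮`. S_LYO (`ker Φ = 0`) gives `𝔮'` in `P'` over `𝔮`, it contains `I P'`, so it gives `q ∈ Spec B` over `p`.
`A / J ≅ P / (I + (h))` (`DoubleQuot`), S_TIS, S_FIS. -/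
def S_COV : Prop := ∀ (k P P' E : Type) [Field k] [CommRing P] [CommRing P'] [Algebra k P]
  [Algebra k P'] [Algebra.FiniteType k P] [Algebra.FiniteType k P'] [Field E] [CharZero E]
  (Φ : P →ₐ[k] P') (h : P) (I : Ideal P) (l : ℕ), Fin1 Φ.toRingHom h → Function.Injective Φ →
  Triv k (P' ⧸ I.map Φ.toRingHom) E l → Triv k (P ⧸ (I ⊔ Ideal.span {h})) E l →
  Triv k (P ⧸ I) E l

def M_COV : Prop := S_FN1 → S_LYO → S_FIS → S_TIS → S_COV

/-- FNP. `PhiO` is finite and injective. It is the composition `D ∘ γ ∘ α` (`α` first): `α : X (some a) ↦ v a (X (some a))`, the other variables fixed; `γ : X (some j) ↦ X (some j) + v j (X (some a))` for `j ≠ a`, the other variables fixed, an automorphism (the inverse has the sign `-`); `D : X (some j) ↦ X (some j) ^ (p ^ B)` for `j ≠ a`, the other variables fixed.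
`α` and `D` have the form `X i ↦ P i (X i)` with `0 < natDegree (P i)` and unit leading coefficient; injectivity: `AlgebraicIndependent.polynomial_aeval_of_transcendental` (or similar) for the variables `X i`; finiteness: `X i` is a root of the polynomial `P i (T) - α (X i)`, monic up to a unit, so integral over the image, and the algebra is of finite type, generated by the integral elements `X i`
(`Algebra.IsIntegral`, finite type and integral is finite). `Fin1 Φ 1` follows from finiteness (`s = 0`). The same for `aeval (Phi ...)` itself (no `y`). -/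
def S_FNP : Prop := ∀ (R σ : Type) [CommRing R] [IsDomain R] [Finite σ] (p : ℕ) [Fact p.Prime]
  (a : σ) (v : σ → R[X]) (B : ℕ), IsUnit (v a).leadingCoeff → 0 < (v a).natDegree →
  (Fin1 (PhiO p a v B).toRingHom 1 ∧ Function.Injective (PhiO p a v B)) ∧
  Fin1 (MvPolynomial.aeval (Phi p a v B) : MvPolynomial σ R →ₐ[R] MvPolynomial σ R).toRingHom 1 ∧
  Function.Injective (MvPolynomial.aeval (Phi p a v B) : MvPolynomial σ R →ₐ[R] MvPolynomial σ R)

/-- DEV. Noetherian induction. CLAIM: for every ideal `I` of `R0`, every `k`-algebra `T` and surjective `ρ : R0 → T` with kernel `I`: `Triv k (AR (FM ρ F)) E l`. Well-founded induction on `I` for `>` (`R0` is Noetherian). If `T` is the zero ring: S_TIS (2). (a) `T` not a domain: S_FIS with `J = ⊤` for `A = AR (FM ρ F)` (then `A / ⊤` is the zero ring): for `p ∈ Spec A` let `𝔮` be its preimage in `T`,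
`B = AR (FM (mk 𝔮) (FM ρ F))`, over `T / 𝔮`; `A → B` is surjective (so `FinOn`: one generator `1`, `s = 0`) with kernel generated by `𝔮`, contained in `p`, so there is `q` over `p`; `B` is trivial by induction, since the kernel of `R0 → T / 𝔮` is strictly larger than `I` (`𝔮 ≠ 0` because `T` is not a domain; use FM_FM). (b) `T` a domain: the hypothesis gives `h ≠ 0`, and the system over `T / (h)` is trivial by induction:
the kernel of `R0 → T / (h)` is strictly larger. -/
def S_DEV : Prop := ∀ (k R0 E τ κ : Type) [Field k] [CommRing R0] [Algebra k R0]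
  [Algebra.FiniteType k R0] [Field E] [CharZero E] [Finite τ] (F : κ → MvPolynomial τ R0) (l : ℕ),
  (∀ (T : Type) [CommRing T] [IsDomain T] [Algebra k T] [Algebra.FiniteType k T]
    (ρ : R0 →ₐ[k] T), Function.Surjective ρ → ∃ h : T, h ≠ 0 ∧
    (Triv k (AR (FM (Ideal.Quotient.mk (Ideal.span {h})) (FM ρ.toRingHom F))) E l →
      Triv k (AR (FM ρ.toRingHom F)) E l)) →
  Triv k (AR F) E l

def M_DEV : Prop := S_TIS → S_FIS → S_DEV

/-! ## 4. Open and closed pieces -/

/-- TPX. Polynomial rings in one variable: S_L0 (1): `c - d ∈ rat`, `d` the pull-back of a cycle `v`, `v ∈ rat`, so `d ∈ rat` by S_FP (`I = ⊥`, `⊥.map = ⊥`; S_GX). Localisations: `d` is the pull-back of a cycle `c` by S_LOC (2), `c ∈ rat`, so `d ∈ rat` by S_FP and S_GLO. Gluing: `c` has a pull-back `d` (S_FPX, S_GLO), in `rat` by hypothesis, so S_LOC (1) with `I = ⊥` gives `ρ ∈ rat` with `c - ρ` supported on `V(a)`;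
by S_PUSH (4), (3) for `A → A / (a)` and S_RON it is in `rat`. -/
def S_TPX : Prop :=
  (∀ (k A E : Type) [Field k] [CommRing A] [Algebra k A] [Algebra.FiniteType k A] [Field E]
    (l : ℕ), Triv k A E l → Triv k A[X] E (l + 1)) ∧
  (∀ (k A B E : Type) [Field k] [CommRing A] [CommRing B] [Algebra k A] [Algebra k B]
    [Algebra.FiniteType k A] [Algebra.FiniteType k B] [Field E] (φ : A →ₐ[k] B) (a : A) (l : ℕ),
    (@IsLocalization.Away A _ a B _ φ.toRingHom.toAlgebra) → Triv k A E l → Triv k B E l) ∧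
  (∀ (k A B E : Type) [Field k] [CommRing A] [CommRing B] [Algebra k A] [Algebra k B]
    [Algebra.FiniteType k A] [Algebra.FiniteType k B] [Field E] (φ : A →ₐ[k] B) (a : A) (l : ℕ),
    (@IsLocalization.Away A _ a B _ φ.toRingHom.toAlgebra) → Triv k B E l →
    Triv k (A ⧸ Ideal.span {a}) E l → Triv k A E l)

def M_TPX : Prop := S_LENA → S_PUSH → S_RON → S_FPX → S_FP → S_GX → S_GLO → S_LOC → S_PLIN →
  S_L0 → S_TPX

/-- TVA. A variable which does not occur. `e : Option τ ≃ τ'`; the ring `AR (FR (fun j => e (some j)) F)` is `(AR F)[X]`, `X (e none) ↦ X`, `X (e (some j)) ↦ C (X j)`. (`MvPolynomial.renameEquiv`, `MvPolynomial.optionEquivLeft`, `Ideal.polynomialQuotientEquivQuotientPolynomial`, or define both homomorphisms and check on generators.) Then S_TIS and S_TPX (1). -/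
def S_TVA : Prop := ∀ (k R E τ τ' κ : Type) [Field k] [CommRing R] [Algebra k R]
  [Algebra.FiniteType k R] [Field E] [Finite τ] (e : Option τ ≃ τ') (F : κ → MvPolynomial τ R)
  (l : ℕ), Triv k (AR F) E l → Triv k (AR (FR (fun j => e (some j)) F)) E (l + 1)

def M_TVA : Prop := S_TIS → S_TPX → S_TVA

/-- YSH. The substitution `y ↦ y + G`. `(y + G) ^ p = y ^ p + G ^ p` in characteristic `p` (if `R` is the zero ring everything is trivial; otherwise `CharP` by transport from `k`). The automorphism `θ : X none ↦ X none + rename some G`, `X (some j) ↦ X (some j)` of `MvPolynomial (Option σ) R` maps the equations of `vF p (f + (G ^ p - G)) L` to the equations of `vF p f L`: the first one is mapped to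
`y ^ p + G ^ p - y - G - f - (G ^ p - G)`. So it induces an isomorphism of the quotient rings (`Ideal.quotientEquiv`), S_TIS. -/
def S_YSH : Prop := ∀ (k R E σ ι : Type) [Field k] [CommRing R] [Algebra k R] [Field E]
  (p : ℕ) [Fact p.Prime] [CharP k p] (f G : MvPolynomial σ R) (L : ι → MvPolynomial σ R) (l : ℕ),
  Triv k (AR (vF p f L)) E l → Triv k (AR (vF p (f + (G ^ p - G)) L)) E l

def M_YSH : Prop := S_TIS → S_YSH

/-- OPN. The open piece. `A = AR (vF p (nf a f0 La) (FR Subtype.val L0))`, `λ` = the class of `La` in `A`, `C1 = (AR L0)[X]` (the variable `X` is `y`), `λ1` the class of `La` in `C1`, `B1 = Localization.Away λ1`. Define `ψ : A → B1`: `X (some j) ↦ X j` for `j ≠ a`, `X none ↦ X` and `X (some a) ↦ (X ^ p - X - f0) / λ1`; the relations are respected. CLAIM: `B1` is, through `ψ`, the localisation of `A` away from `λ`: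
`ψ λ` is a unit; every element of `B1` is `c / λ1 ^ n`, `c ∈ C1`, and `c` is the image of an element of `A` (under `j : C1 → A`, `X ↦ X none`, `X j ↦ X (some j)`; `ψ ∘ j` is the canonical map); if `ψ x = 0`: in `A` we have `λ t = y ^ p - y - f0` (`t = X (some a)`), so for every `x ∈ A` there are `N` and `c ∈ C1` with `λ ^ N x = j c` (true for the generators and closed under sums and products),
then `c` is `0` in `B1`, `λ1 ^ M c = 0` in `C1`, and `λ ^ (M + N) x = j (λ1 ^ M c) = 0`. -/
def S_OPN : Prop := ∀ (k R σ ι : Type) [Field k] [CommRing R] [Algebra k R] [Finite σ]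
  (p : ℕ) (a : σ) (f0 La : MvPolynomial {j : σ // j ≠ a} R)
  (L0 : ι → MvPolynomial {j : σ // j ≠ a} R),
  ∃ ψ : AR (vF p (nf a f0 La) (FR Subtype.val L0)) →ₐ[k]
      Localization.Away (C (Ideal.Quotient.mk _ La) : (AR L0)[X]),
    @IsLocalization.Away (AR (vF p (nf a f0 La) (FR Subtype.val L0))) _
      (Ideal.Quotient.mk _ (MvPolynomial.rename (fun j => some (Subtype.val j)) La))
      (Localization.Away (C (Ideal.Quotient.mk _ La) : (AR L0)[X])) _ ψ.toRingHom.toAlgebra

/-- CLO. The closed piece. The ideal generated by the equations `vF p (nf a f0 La) (FR val L0)` and `La` is also generated by `y ^ p - y - f0`, the `L0 i` and `La` (all renamed to `Option σ`), which is the family `FR (e ∘ some) (vF p f0 (cons La L0))` for the equivalence `e : Option (Option {j // j ≠ a}) ≃ Option σ`,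
`none ↦ some a`, `some none ↦ none`, `some (some j) ↦ some j`. `DoubleQuot.quotQuotEquivQuotSup` and S_TIS, S_TVA. -/
def S_CLO : Prop := ∀ (k R E σ ι : Type) [Field k] [CommRing R] [Algebra k R]
  [Algebra.FiniteType k R] [Field E] [Finite σ] (p : ℕ) (a : σ)
  (f0 La : MvPolynomial {j : σ // j ≠ a} R) (L0 : ι → MvPolynomial {j : σ // j ≠ a} R) (l : ℕ),
  Triv k (AR (vF p f0 (cons La L0))) E l →
  Triv k (AR (vF p (nf a f0 La) (FR Subtype.val L0)) ⧸ Ideal.span
    {Ideal.Quotient.mk (Ideal.span (Set.range (vF p (nf a f0 La) (FR Subtype.val L0))))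
      (MvPolynomial.rename (fun j => some (Subtype.val j)) La)}) E (l + 1)

def M_CLO : Prop := S_TIS → S_TVA → S_CLO

/-- DST. The decomposition: S_TPX (3) for the localisation S_OPN; the open piece is trivial in dimension `l + 1` by S_TPX (1) (`(AR L0)[X]`) and S_TPX (2); the closed piece by S_CLO. (`Localization.Away` is of finite type: `IsLocalization.finiteType` or similar.) -/
def S_DST : Prop := ∀ (k R E σ ι : Type) [Field k] [CommRing R] [Algebra k R]
  [Algebra.FiniteType k R] [Field E] [Finite σ] (p : ℕ) (a : σ)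
  (f0 La : MvPolynomial {j : σ // j ≠ a} R) (L0 : ι → MvPolynomial {j : σ // j ≠ a} R) (l : ℕ),
  Triv k (AR L0) E l → Triv k (AR (vF p f0 (cons La L0))) E l →
  Triv k (AR (vF p (nf a f0 La) (FR Subtype.val L0))) E (l + 1)

def M_DST : Prop := S_TPX → S_OPN → S_CLO → S_DST

/-! ## 5. The induction -/

/-- BAS. Dimension zero: S_ZER. `TA 0`: the non-constant equations are in `S`, `|S| < |σ|`. `TV 0`: the variables `Option σ`, the equations `vF p f L`, the non-constant ones in `insert none (S.map some)`, `|S| + 1 < |σ| + 1`; for `i ∉ S`: `rename some (C c) = C c`. -/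
def S_BAS : Prop := TA 0 ∧ TV 0

def M_BAS : Prop := S_ZER → S_BAS

/-- AST. `TA l → TA (l + 1)`. S_DEV for `F = L`; let `ρ : R → T`, `T` a domain. S_LFA for the images `FM ρ L` (PW.map) gives `φ : T → T'`, `h`, ...; let `F = FM ρ L`, `P = MvPolynomial σ T`, `P' = MvPolynomial σ T'`. We claim that `h` has the property required by S_DEV. (i) S_COV for `MvPolynomial.map φ : P → P'`, `Fin1` with `C h` by S_FN1 (3), injective (`MvPolynomial.map_injective`),
`I = span (range F)`, `I P' = span (range (FM φ F))`; and `P / (I + (C h))` is isomorphic to `AR (FM (mk (h)) F)` (S_TIS; both are `P` modulo `h` and the `F i`). So it is enough to show that `AR (FM φ F)` over `T'` is trivial. (ii) S_COV for `aeval (Phi p a v 0) : P' → P'` (S_FNP), with `h = 1` (the quotient by `I + (1)` is the zero ring, S_TIS (2)): the images of the equations are the `rename val (L0 i)`: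
it is enough to show that `AR (FR val L0)` is trivial in dimension `l + 1`. (iii) S_TVA for `Option {j // j ≠ a} ≃ σ` (`none ↦ a`): it is enough that `AR L0` is trivial in dimension `l`: `TA l`, since `l + |S| < |σ| - 1 = |{j // j ≠ a}|`. -/
def S_AST : Prop := ∀ l : ℕ, TA l → TA (l + 1)

def M_AST : Prop := S_LFA → S_FN1 → S_TIS → S_COV → S_FNP → S_DEV → S_TVA → S_AST

/-- VST. `TA l → TV l → TV (l + 1)`. As S_AST, for `F = vF p f L` (FM_vF): S_DEV, S_LFT (`|S| + 1 < |σ|` holds since `2 (l + 1) + |S| < |σ|`), (i) the base change `T → T'` as in S_AST for the variables `Option σ`, (ii) S_COV for `PhiO p a v B` (S_FNP): the images of the equations are `vF p (nf a f0 La + (G ^ p - G)) (FR val L0)` (`PhiO (rename some g) = rename some (aeval Phi g)`, and `PhiO` fixes `X none`),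
(iii) S_YSH: remove `G ^ p - G`, (iv) S_DST: it is enough that `AR L0` and `AR (vF p f0 (cons La L0))` are trivial in dimension `l`: `TA l` for `L0` with `S`: `l + |S| < |σ| - 1`; `TV l` for `f0` and `cons La L0` with `S' = insert none (S.map some)`, `2 l + |S| + 1 < |σ| - 1`. -/
def S_VST : Prop := ∀ l : ℕ, TA l → TV l → TV (l + 1)

def M_VST : Prop := S_LFT → S_FN1 → S_TIS → S_COV → S_FNP → S_DEV → S_YSH → S_DST → S_VST

end PQW
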