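import Mathlib
import Pool.Agent.PQW.Stmts

/-!
# PQW, module LFA: spreading out for additive systems
-/

set_option autoImplicit false

open Polynomial

namespace PQW

open CUB LOWD

namespace LFA

section Lift

variable {A B σ : Type} [CommRing A] [CommRing B] (f : A →+* B)

theorem lift_mv (P : MvPolynomial σ B) (h : ∀ m, P.coeff m ∈ Set.range f) :
    ∃ Q : MvPolynomial σ A, MvPolynomial.map f Q = P := by
  have h1 : P ∈ Set.range (MvPolynomial.map (σ := σ) f) := by
    rw [MvPolynomial.mem_range_map_iff_coeffs_subset]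
    intro c hc
    obtain ⟨m, _, hm⟩ := MvPolynomial.mem_coeffs_iff.mp hc
    rw [hm]
    exact h m
  exact h1

theorem lift_pol (P : B[X]) (h : ∀ m, P.coeff m ∈ Set.range f) :
    ∃ Q : A[X], Q.map f = P := by
  have h1 : P ∈ Polynomial.lifts f := (Polynomial.lifts_iff_coeff_lifts P).mpr h
  exact (Polynomial.mem_lifts P).mp h1

theorem map_aevalX (a : σ) (v : A[X]) :
    MvPolynomial.map f (Polynomial.aeval (MvPolynomial.X a : MvPolynomial σ A) v) =
      Polynomial.aeval (MvPolynomial.X a : MvPolynomial σ B) (v.map f) := by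
  induction v using Polynomial.induction_on' with
  | add p q hp hq => rw [map_add, map_add, hp, hq, Polynomial.map_add, map_add]
  | monomial n c =>
    rw [Polynomial.map_monomial, Polynomial.aeval_monomial, Polynomial.aeval_monomial, map_mul,
      map_pow, MvPolynomial.map_X, MvPolynomial.algebraMap_eq, MvPolynomial.algebraMap_eq,
      MvPolynomial.map_C]

theorem map_Phi (p : ℕ) (a : σ) (v : σ → A[X]) (b : ℕ) (j : σ) :
    MvPolynomial.map f (Phi p a v b j) = Phi p a (fun i => (v i).map f) b j := by
  classical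
  unfold Phi
  rw [map_add, map_aevalX]
  congr 1
  split_ifs
  · rw [map_zero]
  · rw [map_pow, MvPolynomial.map_X]

theorem map_aevalPhi (p : ℕ) (a : σ) (v : σ → A[X]) (b : ℕ) (P : MvPolynomial σ A) :
    MvPolynomial.map f (MvPolynomial.aeval (Phi p a v b) P) =
      MvPolynomial.aeval (Phi p a (fun i => (v i).map f) b) (MvPolynomial.map f P) := by
  induction P using MvPolynomial.induction_on with
  | C c => simp [MvPolynomial.algebraMap_eq]
  | add P Q hP hQ => simp only [map_add, hP, hQ]
  | mul_X P i hP => simp only [map_mul, hP, MvPolynomial.aeval_X, MvPolynomial.map_X, map_Phi]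

end Lift

/-- The algebraic closure of the field of fractions. -/
abbrev KK (T : Type) [CommRing T] [IsDomain T] : Type := AlgebraicClosure (FractionRing T)

theorem inj_KK (T : Type) [CommRing T] [IsDomain T] :
    Function.Injective (algebraMap T (KK T)) := by
  rw [IsScalarTower.algebraMap_eq T (FractionRing T) (KK T)]
  exact (algebraMap (FractionRing T) (KK T)).injective.comp (IsFractionRing.injective T _)

theorem alg_KK (T : Type) [CommRing T] [IsDomain T] : Algebra.IsAlgebraic T (KK T) :=
  (IsFractionRing.comap_isAlgebraic_iff (A := T) (K := FractionRing T) (C := KK T)).mpr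
    inferInstance

theorem char_KK (k T : Type) [Field k] [CommRing T] [IsDomain T] [Algebra k T] (p : ℕ)
    [CharP k p] : CharP (KK T) p :=
  charP_of_injective_ringHom ((algebraMap T (KK T)).comp (algebraMap k T)).injective p

end LFA

open LFA in
/-- LFA. -/
theorem t_LFA : M_LFA := by
  classical
  intro hVEC hNFL hSPR k T σ ι _ _ _ _ _ _ _ p _ _ L S hL hS hcard
  have hinjT := inj_KK T
  have : Algebra.IsAlgebraic T (KK T) := alg_KK T
  have : FaithfulSMul T (KK T) := (faithfulSMul_iff_algebraMap_injective T (KK T)).mpr hinjT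
  have : CharP (KK T) p := char_KK k T p
  set LK : ι → MvPolynomial σ (KK T) := fun i => MvPolynomial.map (algebraMap T (KK T)) (L i)
    with hLK
  have hLK1 : ∀ i, PW p 1 (LK i) := fun i => (hL i).map _
  obtain ⟨v, hv0, hvA, hvL⟩ := (hVEC (KK T) σ {i // i ∈ S} p (fun i => LK i.1)
    (fun i => hLK1 i.1)).1 (by simpa using hcard)
  have hvL' : ∀ i, MvPolynomial.aeval v (LK i) =
      Polynomial.C (MvPolynomial.constantCoeff (LK i)) := by
    intro i
    by_cases hi : i ∈ S
    · exact hvL ⟨i, hi⟩
    · obtain ⟨c, hc⟩ := hS i hi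
      simp only [hLK, hc, MvPolynomial.map_C, MvPolynomial.aeval_C, MvPolynomial.constantCoeff_C]
      rfl
  obtain ⟨a, ha⟩ := Function.ne_iff.mp hv0
  have ha' : v a ≠ 0 := ha
  choose L0 hL01 hL0c hL0e using fun i => hNFL (KK T) σ p a v 0 (LK i) (hLK1 i) (hvL' i)
  -- the coefficients
  set F : Finset (KK T) := (Finset.univ.biUnion fun j : σ => (v j).coeffs) ∪
    ((Finset.univ.biUnion fun i : ι => (L0 i).coeffs) ∪ {0, ((v a).leadingCoeff)⁻¹}) with hF
  obtain ⟨h, T', hh, hFT, hfin, hfin1⟩ := hSPR T (KK T) F
  have hmem : ∀ x ∈ F, x ∈ T' := fun x hx => hFT hx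
  have h0F : (0 : KK T) ∈ F := by simp [hF]
  set g : T' →+* KK T := algebraMap T' (KK T) with hg
  have hginj : Function.Injective g := Subtype.val_injective
  have hrange : ∀ x ∈ F, x ∈ Set.range g := fun x hx => ⟨⟨x, hmem x hx⟩, rfl⟩
  have hvl : ∀ j, ∃ Q : T'[X], Q.map g = v j := by
    intro j
    refine lift_pol g (v j) fun m => ?_
    apply hrange
    by_cases hm : (v j).coeff m = 0
    · rw [hm]
      exact h0F
    · simp only [hF, Finset.mem_union]
      left
      rw [Finset.mem_biUnion]
      exact ⟨j, Finset.mem_univ _, Polynomial.coeff_mem_coeffs hm⟩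
  choose v' hv' using hvl
  have hL0l : ∀ i, ∃ Q : MvPolynomial {j : σ // j ≠ a} T', MvPolynomial.map g Q = L0 i := by
    intro i
    refine lift_mv g (L0 i) fun m => ?_
    apply hrange
    by_cases hm : (L0 i).coeff m = 0
    · rw [hm]
      exact h0F
    · simp only [hF, Finset.mem_union]
      right
      left
      rw [Finset.mem_biUnion]
      exact ⟨i, Finset.mem_univ _, MvPolynomial.mem_coeffs_iff.mpr
        ⟨m, MvPolynomial.mem_support_iff.mpr hm, rfl⟩⟩
  choose L0' hL0' using hL0l
  have hcomp : g.comp (algebraMap T T') = algebraMap T (KK T) := rfl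
  let algk : Algebra k T' := ((algebraMap T T').comp (algebraMap k T)).toAlgebra
  have : IsScalarTower k T T' := IsScalarTower.of_algebraMap_eq fun _ => rfl
  have hft : Algebra.FiniteType k T' := Algebra.FiniteType.trans (S := T) inferInstance hfin
  let φ : T →ₐ[k] T' := { algebraMap T T' with commutes' := fun _ => rfl }
  have hφ : φ.toRingHom = algebraMap T T' := rfl
  have hφinj : Function.Injective φ := by
    intro x y hxy
    apply hinjT
    rw [← hcomp]
    exact congrArg g hxy
  have hmapφ : ∀ P : MvPolynomial σ T, MvPolynomial.map g (MvPolynomial.map φ.toRingHom P) =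
      MvPolynomial.map (algebraMap T (KK T)) P := by
    intro P
    rw [MvPolynomial.map_map, hφ, hcomp]
  have hlc : g (v' a).leadingCoeff = (v a).leadingCoeff := by
    rw [← hv' a, Polynomial.leadingCoeff_map_of_injective hginj]
  refine ⟨T', inferInstance, inferInstance, algk, hft, φ, h, a, v', L0', hh, hφinj, hfin1, ?_, ?_,
    ?_, ?_, ?_⟩
  · have h1 : ((v a).leadingCoeff)⁻¹ ∈ T' := hmem _ (by simp [hF])
    refine IsUnit.of_mul_eq_one ⟨_, h1⟩ ?_
    apply hginj
    rw [map_mul, map_one, hlc]
    exact mul_inv_cancel₀ (Polynomial.leadingCoeff_ne_zero.mpr ha')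
  · have h1 : (v' a).natDegree = (v a).natDegree := by
      rw [← hv' a, Polynomial.natDegree_map_eq_of_injective hginj]
    rw [h1]
    obtain ⟨s, hs⟩ := hvA a _ (Polynomial.natDegree_mem_support_of_nonzero ha')
    rw [hs]
    exact pow_pos (Fact.out : p.Prime).pos s
  · intro i m hm
    apply hL01 i
    rw [← hL0' i, MvPolynomial.support_map_of_injective _ hginj]
    exact hm
  · intro i hi
    obtain ⟨c, hc⟩ := hS i hi
    have h1 : LK i = MvPolynomial.C (algebraMap T (KK T) c) := by
      simp only [hLK, hc, MvPolynomial.map_C]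
    refine ⟨algebraMap T T' c, ?_⟩
    apply MvPolynomial.map_injective g hginj
    rw [hL0' i, hL0c i _ h1, MvPolynomial.map_C]
    rfl
  · intro i
    apply MvPolynomial.map_injective g hginj
    rw [map_aevalPhi, hmapφ, MvPolynomial.map_rename, hL0' i, ← hL0e i]
    congr 2
    funext j
    exact congrArg (fun v => Phi p a v 0 j) (funext hv')

end PQW
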