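import Pool.Agent.PQW.Stmts
import Pool.Agent.ASC.Stmts

/-!
# PQW: statements, part 2 (the assembly of the two parts of the proof)

Systems with several equations of `p`-weight two: the equations `f 1 = ... = f r = 0` are replaced by the cover
`y ^ p - y = ∑ t_j f_j` (`Pool/Agent/ASC`).
-/

set_option autoImplicit false

open Polynomial

namespace PQW

open CUB LOWD

/-- The polynomial `∑ t_j g_j` over the ring `R[t_1, ..., t_r]`. -/
noncomputable def FF {σ R : Type} [CommRing R] {r : ℕ} (g : Fin r → MvPolynomial σ R) :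
    MvPolynomial σ (MvPolynomial (Fin r) R) :=
  ∑ j, MvPolynomial.C (MvPolynomial.X j) * MvPolynomial.map MvPolynomial.C (g j)

/-- BRI. The two descriptions of the cover: both rings are `R[t_1, ..., t_r][x][y]` modulo the equations `L i` and `y ^ p - y - ∑ t_j g_j`. -/
def S_BRI : Prop := ∀ (k R σ κ : Type) [Field k] [CommRing R] [Algebra k R] (p r : ℕ)
  (g : Fin r → MvPolynomial σ R) (L : κ → MvPolynomial σ R),
  Nonempty (AR (vF p (FF g) (FM MvPolynomial.C L)) ≃ₐ[k] ASC.QP p (MvPolynomial (Fin r) (AR L))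
    (lin fun j => Ideal.Quotient.mk (Ideal.span (Set.range L)) (g j)))

/-- QUO. The system `f` is obtained from the equations `f (a i)` by adding the equations `f (b j)`, if every index is of the form `a i` or `b j`. -/
def S_QUO : Prop := ∀ (k R σ ι κ κ' : Type) [Field k] [CommRing R] [Algebra k R]
  (f : ι → MvPolynomial σ R) (a : κ → ι) (b : κ' → ι), (∀ i, (∃ j, a j = i) ∨ ∃ j, b j = i) →
  ∃ ψ : AR (fun i => f (a i)) →ₐ[k] AR f, Function.Surjective ψ ∧
    RingHom.ker ψ.toRingHom = Ideal.span (Set.range fun j =>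
      Ideal.Quotient.mk (Ideal.span (Set.range fun i => f (a i))) (f (b j)))

/-- PQ. The theorem. `w i = 1` for `i` in the image of `a`, `w i = 2` for `i` in the image of `b : Fin r → ι`; `∑ w i = s + 2 r`. S_ASX for `AR (f ∘ a)` and `ψ` (S_QUO): it is enough to show that the `(l + r)`-cycles on the cover are trivial; by S_BRI, S_TIS it is the system `vF p (FF g) (FM C L)` over `R[t]`:
`TV (l + r)`, as `2 (l + r) + s < |σ|`. `TA l` and `TV l` for all `l`: S_BAS, S_AST, S_VST. -/
def S_PQ : Prop := ∀ (k R E σ ι : Type) [Field k] [Finite k] [CommRing R] [Algebra k R]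
  [Algebra.FiniteType k R] [Field E] [CharZero E] [Fintype σ] [Fintype ι] (p : ℕ)
  [Fact p.Prime] [CharP k p] (f : ι → MvPolynomial σ R) (w : ι → ℕ), (∀ i, 1 ≤ w i) →
  (∀ i, w i ≤ 2) → (∀ i, PW p (w i) (f i)) → ∀ l : ℕ,
  2 * l + ∑ i, w i < Fintype.card σ → Triv k (AR f) E l

def M_PQ : Prop := S_BAS → S_AST → S_VST → ASC.S_ASX → S_BRI → S_QUO → S_TIS → S_PQ

end PQW
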