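import Pool.Agent.PQW.Stmts

/-!
# PQW: the substitution `y ↦ y + G`
-/

set_option autoImplicit false

namespace PQW

open CUB LOWD

namespace YSH

lemma add_pow_p (k : Type) [Field k] (p : ℕ) [Fact p.Prime] [CharP k p] {T : Type} [CommRing T]
    [Algebra k T] (x y : T) : (x + y) ^ p = x ^ p + y ^ p := by
  rcases subsingleton_or_nontrivial T with h | h
  · exact Subsingleton.elim _ _
  · have : CharP T p := charP_of_injective_algebraMap (algebraMap k T).injective p
    exact add_pow_char x y p

variable {σ R : Type} [CommRing R]

/-- The substitution `y ↦ y + G`. -/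
noncomputable def sub (G : MvPolynomial σ R) :
    MvPolynomial (Option σ) R →ₐ[R] MvPolynomial (Option σ) R :=
  MvPolynomial.aeval fun j => match j with
    | none => MvPolynomial.X none + MvPolynomial.rename some G
    | some j => MvPolynomial.X (some j)

lemma sub_none (G : MvPolynomial σ R) :
    sub G (MvPolynomial.X none) = MvPolynomial.X none + MvPolynomial.rename some G := by
  unfold sub
  rw [MvPolynomial.aeval_X]

lemma sub_some (G : MvPolynomial σ R) (j : σ) :
    sub G (MvPolynomial.X (some j)) = MvPolynomial.X (some j) := by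
  unfold sub
  rw [MvPolynomial.aeval_X]

lemma sub_rename (G g : MvPolynomial σ R) :
    sub G (MvPolynomial.rename some g) = MvPolynomial.rename some g := by
  have h : (sub G).comp (MvPolynomial.rename some) = MvPolynomial.rename some := by
    apply MvPolynomial.algHom_ext
    intro j
    rw [AlgHom.comp_apply, MvPolynomial.rename_X, sub_some]
  exact congrArg (fun φ => φ g) h

lemma sub_comp (G : MvPolynomial σ R) :
    (sub G).comp (sub (-G)) = AlgHom.id R (MvPolynomial (Option σ) R) := by
  apply MvPolynomial.algHom_ext
  intro j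
  cases j with
  | none =>
    rw [AlgHom.comp_apply, sub_none, map_add, sub_rename, sub_none, map_neg,
      add_neg_cancel_right]
    rfl
  | some j =>
    rw [AlgHom.comp_apply, sub_some, sub_some]
    rfl

/-- The automorphism `y ↦ y + G`. -/
noncomputable def aut (G : MvPolynomial σ R) :
    MvPolynomial (Option σ) R ≃ₐ[R] MvPolynomial (Option σ) R :=
  AlgEquiv.ofAlgHom (sub G) (sub (-G)) (sub_comp G) (by
    have h := sub_comp (-G)
    rwa [neg_neg] at h)

lemma aut_apply (G : MvPolynomial σ R) (x : MvPolynomial (Option σ) R) : aut G x = sub G x := rfl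

lemma aut_vF (k : Type) [Field k] [Algebra k R] {ι : Type} (p : ℕ) [Fact p.Prime] [CharP k p]
    (f G : MvPolynomial σ R) (L : ι → MvPolynomial σ R) (i : Option ι) :
    aut G (vF p (f + (G ^ p - G)) L i) = vF p f L i := by
  rw [aut_apply]
  cases i with
  | none =>
    simp only [vF, map_sub, map_add, map_pow, sub_none, sub_rename]
    rw [add_pow_p k p]
    ring
  | some i =>
    simp only [vF, sub_rename]

end YSH

theorem t_YSH : M_YSH := by
  intro hTIS k R E σ ι _ _ _ _ p _ _ f G L l h
  refine hTIS.1 k _ _ E (Ideal.quotientEquivAlg (Ideal.span (Set.range (vF p (f + (G ^ p - G)) L)))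
    (Ideal.span (Set.range (vF p f L))) ((YSH.aut G).restrictScalars k) ?_) l h
  have h1 : (vF p f L) = fun i => (YSH.aut G) (vF p (f + (G ^ p - G)) L i) := by
    funext i
    exact (YSH.aut_vF k p f G L i).symm
  have h2 : Set.range (vF p f L) =
      ((((YSH.aut G).restrictScalars k) : MvPolynomial (Option σ) R ≃ₐ[k] _) : _ →+* _) ''
        Set.range (vF p (f + (G ^ p - G)) L) := by
    rw [← Set.range_comp, h1]
    rfl
  rw [h2, ← Ideal.map_span]

end PQW
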